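import Mathlib

/-!
Prime ideals avoiding polynomials in all but one variable.
-/

namespace Run7.h100.AF

open Polynomial in
/-- a nonzero prime of `R[X]` meeting `R` trivially is generated by a prime element -/
theorem principal_poly {R : Type*} [CommRing R] [IsDomain R] [UniqueFactorizationMonoid R]
    (P : Ideal R[X]) [hP : P.IsPrime] (hne : P ≠ ⊥) (h0 : ∀ r : R, C r ∈ P → r = 0) :
    ∃ D : R[X], Prime D ∧ D ∈ P ∧ ∀ h ∈ P, D ∣ h := by
  classical
  obtain ⟨p0, hp0P, hp00⟩ := (Submodule.ne_bot_iff P).mp hne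
  have hex : ∃ N : ℕ, ∃ p ∈ P, p ≠ 0 ∧ p.natDegree = N := ⟨_, p0, hp0P, hp00, rfl⟩
  obtain ⟨p, hpP, hpne, hpN⟩ := Nat.find_spec hex
  have hmin : ∀ q ∈ P, q ≠ 0 → p.natDegree ≤ q.natDegree := by
    intro q hq hq0
    rw [hpN]
    exact Nat.find_min' hex ⟨q, hq, hq0, rfl⟩
  obtain ⟨f, hf, hfp⟩ := UniqueFactorizationMonoid.exists_prime_factors p hpne
  have hfP : f.prod ∈ P := (Ideal.mem_iff_of_associated hfp.symm).mp hpP
  obtain ⟨D, hDf, hDP⟩ := (hP.multiset_prod_mem_iff_exists_mem f).mp hfP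
  have hD : Prime D := hf D hDf
  have hDp : D ∣ p := (Multiset.dvd_prod hDf).trans hfp.dvd
  have hminD : ∀ q ∈ P, q ≠ 0 → D.natDegree ≤ q.natDegree := fun q hq hq0 =>
    (natDegree_le_of_dvd hDp hpne).trans (hmin q hq hq0)
  have key : ∀ N : ℕ, ∀ h ∈ P, h.natDegree ≤ N → ∃ s : R, s ≠ 0 ∧ D ∣ C s * h := by
    intro N
    induction N with
    | zero =>
      intro h hh hdeg
      have h1 := eq_C_of_natDegree_le_zero hdeg
      have h2 : h.coeff 0 = 0 := h0 _ (h1 ▸ hh)
      refine ⟨1, one_ne_zero, ?_⟩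
      rw [h1, h2, C_0, mul_zero]
      exact dvd_zero _
    | succ N ih =>
      intro h hh hdeg
      by_cases hh0 : h = 0
      · exact ⟨1, one_ne_zero, by rw [hh0, mul_zero]; exact dvd_zero _⟩
      have hle := hminD h hh hh0
      set q : R[X] := C h.leadingCoeff * (X ^ (h.natDegree - D.natDegree) * D) with hq
      have hlD : D.leadingCoeff ≠ 0 := leadingCoeff_ne_zero.mpr hD.ne_zero
      have hlh : h.leadingCoeff ≠ 0 := leadingCoeff_ne_zero.mpr hh0
      have hne1 : C D.leadingCoeff * h ≠ 0 := mul_ne_zero (C_ne_zero.mpr hlD) hh0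
      have e1 : (C D.leadingCoeff * h).degree = q.degree := by
        rw [hq, degree_C_mul hlD, degree_C_mul hlh, degree_mul, degree_X_pow,
          degree_eq_natDegree hh0, degree_eq_natDegree hD.ne_zero]
        exact_mod_cast (by omega : h.natDegree = h.natDegree - D.natDegree + D.natDegree)
      have e2 : (C D.leadingCoeff * h).leadingCoeff = q.leadingCoeff := by
        rw [hq, leadingCoeff_mul, leadingCoeff_C, leadingCoeff_mul, leadingCoeff_C,
          leadingCoeff_mul, leadingCoeff_X_pow, one_mul, mul_comm]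
      have h3 := degree_sub_lt_left e1 hne1 e2
      have h4 : C D.leadingCoeff * h - q ∈ P := by
        refine sub_mem (Ideal.mul_mem_left _ _ hh) ?_
        exact Ideal.mul_mem_left _ _ (Ideal.mul_mem_left _ _ hDP)
      have h5 : ∃ s : R, s ≠ 0 ∧ D ∣ C s * (C D.leadingCoeff * h - q) := by
        by_cases hz : C D.leadingCoeff * h - q = 0
        · exact ⟨1, one_ne_zero, by rw [hz, mul_zero]; exact dvd_zero _⟩
        · apply ih _ h4
          have h6 := natDegree_lt_natDegree hz h3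
          rw [natDegree_C_mul hlD] at h6
          omega
      obtain ⟨s, hs, hdvd⟩ := h5
      refine ⟨s * D.leadingCoeff, mul_ne_zero hs hlD, ?_⟩
      have h6 : C (s * D.leadingCoeff) * h = C s * (C D.leadingCoeff * h - q) +
          (C s * C h.leadingCoeff * X ^ (h.natDegree - D.natDegree)) * D := by
        rw [hq, C_mul]; ring
      rw [h6]
      exact dvd_add hdvd (dvd_mul_left _ _)
  refine ⟨D, hD, hDP, fun h hh => ?_⟩
  obtain ⟨s, hs, hdvd⟩ := key _ h hh le_rfl
  rcases hD.dvd_or_dvd hdvd with h1 | h1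
  · exfalso
    apply hs
    apply h0
    exact Ideal.mem_of_dvd P h1 hDP
  · exact h1

open MvPolynomial in
/-- the multivariate version -/
theorem principal_mv {κ : Type*} [Finite κ] [DecidableEq κ] (κ0 : κ)
    (P : Ideal (MvPolynomial κ ℂ)) [hP : P.IsPrime] (hne : P ≠ ⊥)
    (h0 : ∀ r : MvPolynomial {x // x ≠ κ0} ℂ, rename (Subtype.val) r ∈ P → r = 0) :
    ∃ D : MvPolynomial κ ℂ, Prime D ∧ D ∈ P ∧ ∀ h ∈ P, D ∣ h := by
  classical
  let e : MvPolynomial κ ℂ ≃ₐ[ℂ] Polynomial (MvPolynomial {x // x ≠ κ0} ℂ) :=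
    (renameEquiv ℂ (Equiv.optionSubtypeNe κ0).symm).trans (optionEquivLeft ℂ _)
  have he : ∀ r : MvPolynomial {x // x ≠ κ0} ℂ, e.symm (Polynomial.C r) = rename Subtype.val r := by
    intro r
    rw [AlgEquiv.symm_apply_eq]
    induction r using MvPolynomial.induction_on with
    | C a => simp [e]
    | add p q hp hq => rw [map_add, hp, hq, map_add, map_add]
    | mul_X p i hp =>
      rw [map_mul, hp, map_mul, map_mul]
      congr 1
      simp [e, i.2]
  let P' : Ideal (Polynomial (MvPolynomial {x // x ≠ κ0} ℂ)) := P.comap (e.symm : _ →+* _)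
  have hmem : ∀ q, q ∈ P' ↔ e.symm q ∈ P := fun q => Iff.rfl
  have hP' : P'.IsPrime := Ideal.IsPrime.comap _
  have hne' : P' ≠ ⊥ := by
    obtain ⟨p, hp, hp0⟩ := (Submodule.ne_bot_iff P).mp hne
    rw [Submodule.ne_bot_iff]
    refine ⟨e p, ?_, ?_⟩
    · rw [hmem, AlgEquiv.symm_apply_apply]; exact hp
    · rwa [Ne, EmbeddingLike.map_eq_zero_iff]
  obtain ⟨D, hD, hDP, hall⟩ := principal_poly P' hne' (by
    intro r hr
    apply h0
    rw [← he]
    exact hr)
  refine ⟨e.symm D, ?_, hDP, fun h hh => ?_⟩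
  · exact (MulEquiv.prime_iff e.symm.toRingEquiv.toMulEquiv).mpr hD
  · have h1 := hall (e h) (by rw [hmem, AlgEquiv.symm_apply_apply]; exact hh)
    have h2 := map_dvd e.symm h1
    rwa [AlgEquiv.symm_apply_apply] at h2

end Run7.h100.AF
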