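import Mathlib

/-!
The grid of roots of `x ^ (m + 1) = x`.
-/

open MvPolynomial

namespace Run7.h100.AF

/-- the roots of `x ^ (m + 1) - x` -/
noncomputable def Sg (m : ℕ) : Finset ℂ := insert 0 (Polynomial.nthRootsFinset m (1 : ℂ))

section one

variable {m : ℕ}

theorem zero_mem_Sg : (0 : ℂ) ∈ Sg m := Finset.mem_insert_self _ _

theorem one_mem_Sg (hm : 0 < m) : (1 : ℂ) ∈ Sg m := by
  unfold Sg
  refine Finset.mem_insert_of_mem ?_
  rw [Polynomial.mem_nthRootsFinset hm, one_pow]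

theorem zero_notMem (hm : 0 < m) : (0 : ℂ) ∉ Polynomial.nthRootsFinset m (1 : ℂ) := by
  rw [Polynomial.mem_nthRootsFinset hm, zero_pow hm.ne']
  exact zero_ne_one

theorem pow_Sg (hm : 0 < m) {q : ℂ} (hq : q ∈ Sg m) : q ^ (m + 1) = q := by
  unfold Sg at hq
  rcases Finset.mem_insert.mp hq with h | h
  · rw [h, zero_pow (by omega)]
  · rw [Polynomial.mem_nthRootsFinset hm] at h
    rw [pow_succ, h, one_mul]

theorem prod_Sg (hm : 0 < m) :
    ∏ q ∈ Sg m, (Polynomial.X - Polynomial.C q) = (Polynomial.X ^ (m + 1) - Polynomial.X : Polynomial ℂ) := by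
  unfold Sg
  rw [Finset.prod_insert (zero_notMem hm),
    ← Polynomial.X_pow_sub_one_eq_prod hm (Complex.isPrimitiveRoot_exp m hm.ne')]
  rw [map_zero]; ring

theorem card_Sg (hm : 0 < m) : (Sg m).card = m + 1 := by
  unfold Sg
  rw [Finset.card_insert_of_notMem (zero_notMem hm),
    (Complex.isPrimitiveRoot_exp m hm.ne').card_nthRootsFinset]

/-- weights -/
noncomputable def cw (m : ℕ) (q : ℂ) : ℂ := Lagrange.nodalWeight (Sg m) id q

theorem cw_mul (hm : 0 < m) {q : ℂ} (hq : q ∈ Sg m) : cw m q * ((m + 1) * q ^ m - 1) = 1 := by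
  have h1 := Lagrange.nodalWeight_eq_eval_derivative_nodal (v := id) hq
  have h2 : Lagrange.nodal (Sg m) id = (Polynomial.X ^ (m + 1) - Polynomial.X : Polynomial ℂ) := by
    rw [Lagrange.nodal_eq]; exact prod_Sg hm
  have h3 : (m + 1) * q ^ m - 1 ≠ 0 := by
    have h4 := Lagrange.nodalWeight_ne_zero (s := Sg m) (v := id) Function.injective_id.injOn hq
    rw [h1, h2] at h4
    simpa using inv_ne_zero h4
  unfold cw
  rw [h1, h2]
  simp only [id, Polynomial.derivative_sub, Polynomial.derivative_X_pow, Polynomial.derivative_X,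
    Polynomial.eval_sub, Polynomial.eval_mul, Polynomial.eval_pow, Polynomial.eval_X,
    Polynomial.eval_one, Nat.add_sub_cancel, Polynomial.eval_C]
  push_cast
  exact inv_mul_cancel₀ h3

theorem cw_ne_zero (hm : 0 < m) {q : ℂ} (hq : q ∈ Sg m) : cw m q ≠ 0 :=
  left_ne_zero_of_mul_eq_one (cw_mul hm hq)

theorem cw_sum (hm : 0 < m) {α : ℕ} (hα : α < m) : ∑ q ∈ Sg m, cw m q * q ^ α = 0 := by
  have h1 := Lagrange.coeff_eq_sum (s := Sg m) (v := id) (P := (Polynomial.X ^ α : Polynomial ℂ))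
    Function.injective_id.injOn (by
      rw [Polynomial.degree_X_pow, card_Sg hm]
      exact_mod_cast (by omega : α < m + 1))
  rw [card_Sg hm, Nat.add_sub_cancel, Polynomial.coeff_X_pow, if_neg (by omega)] at h1
  rw [h1]
  refine Finset.sum_congr rfl fun q _ => ?_
  unfold cw Lagrange.nodalWeight
  rw [Finset.prod_inv_distrib, Polynomial.eval_pow, Polynomial.eval_X, div_eq_mul_inv, mul_comm]
  rfl

theorem cw_sum_top (hm : 0 < m) : ∑ q ∈ Sg m, cw m q * q ^ m = 1 := by
  have h1 := Lagrange.coeff_eq_sum (s := Sg m) (v := id) (P := (Polynomial.X ^ m : Polynomial ℂ))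
    Function.injective_id.injOn (by
      rw [Polynomial.degree_X_pow, card_Sg hm]
      exact_mod_cast (by omega : m < m + 1))
  rw [card_Sg hm, Nat.add_sub_cancel, Polynomial.coeff_X_pow, if_pos rfl] at h1
  rw [h1]
  refine Finset.sum_congr rfl fun q _ => ?_
  unfold cw Lagrange.nodalWeight
  rw [Finset.prod_inv_distrib, Polynomial.eval_pow, Polynomial.eval_X, div_eq_mul_inv, mul_comm]
  rfl

end one

section grid

variable {k m : ℕ}

/-- the grid -/
noncomputable def Gr (k m : ℕ) : Finset (Fin k → ℂ) := Fintype.piFinset fun _ => Sg m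

/-- the weights -/
noncomputable def cW (m : ℕ) (Q : Fin k → ℂ) : ℂ := ∏ i, cw m (Q i)

theorem cW_ne_zero (hm : 0 < m) {Q : Fin k → ℂ} (hQ : Q ∈ Gr k m) : cW m Q ≠ 0 :=
  Finset.prod_ne_zero_iff.mpr fun i _ => cw_ne_zero hm (Fintype.mem_piFinset.mp hQ i)

theorem zero_mem_Gr : (0 : Fin k → ℂ) ∈ Gr k m := Fintype.mem_piFinset.mpr fun _ => zero_mem_Sg

/-- vanishing of the weighted sums in low degree -/
theorem cW_sum (hm : 0 < m) (α : Fin k →₀ ℕ) (hα : α.degree < k * m) :
    ∑ Q ∈ Gr k m, cW m Q * ∏ i, Q i ^ α i = 0 := by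
  have h1 : ∃ i, α i < m := by
    by_contra hcon
    push Not at hcon
    have h2 : ∑ i : Fin k, m ≤ ∑ i, α i := Finset.sum_le_sum fun i _ => hcon i
    rw [Finset.sum_const, Finset.card_univ, Fintype.card_fin, smul_eq_mul] at h2
    rw [Finsupp.degree_eq_sum] at hα
    omega
  obtain ⟨i, hi⟩ := h1
  have h3 : ∑ Q ∈ Gr k m, cW m Q * ∏ i, Q i ^ α i =
      ∏ i : Fin k, ∑ q ∈ Sg m, cw m q * q ^ α i := by
    rw [Finset.prod_univ_sum]
    refine Finset.sum_congr rfl fun Q _ => ?_
    unfold cW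
    rw [← Finset.prod_mul_distrib]
  rw [h3]
  exact Finset.prod_eq_zero (Finset.mem_univ i) (cw_sum hm hi)

/-- reduction of a polynomial vanishing on the grid -/
theorem grid_null (hm : 0 < m) (g : MvPolynomial (Fin k) ℂ) (hg : ∀ Q ∈ Gr k m, eval Q g = 0) :
    ∃ h : Fin k → MvPolynomial (Fin k) ℂ,
      (∀ i, h i = 0 ∨ (h i).totalDegree + (m + 1) ≤ g.totalDegree) ∧
      g = ∑ i, h i * (X i ^ (m + 1) - X i) := by
  classical
  obtain ⟨h, h1, h2⟩ := MvPolynomial.combinatorial_nullstellensatz_exists_linearCombination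
    (R := ℂ) (σ := Fin k) (fun _ => Sg m) (fun _ => ⟨0, zero_mem_Sg⟩) g
    (fun x hx => hg x (Fintype.mem_piFinset.mpr hx))
  have h3 : ∀ i : Fin k, (∏ s ∈ Sg m, (X i - C s)) = (X i ^ (m + 1) - X i : MvPolynomial (Fin k) ℂ) := by
    intro i
    have h4 := congrArg (Polynomial.aeval (X i : MvPolynomial (Fin k) ℂ)) (prod_Sg hm)
    rw [map_prod] at h4
    simpa [algebraMap_eq] using h4
  refine ⟨fun i => h i, fun i => ?_, ?_⟩
  · by_cases hi : h i = 0
    · exact Or.inl hi
    · right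
      have h4 := h1 i
      have h5 : (∏ s ∈ Sg m, (X i - C s) : MvPolynomial (Fin k) ℂ) ≠ 0 := by
        rw [Finset.prod_ne_zero_iff]
        intro s _ hs
        have := congrArg (MvPolynomial.eval (fun _ => s + 1)) hs
        simp at this
      rw [totalDegree_mul_of_isDomain h5 hi] at h4
      have h6 : (∏ s ∈ Sg m, (X i - C s) : MvPolynomial (Fin k) ℂ).totalDegree = m + 1 := by
        rw [h3]
        have h7 : (X i ^ (m + 1) : MvPolynomial (Fin k) ℂ).totalDegree = m + 1 := by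
          rw [totalDegree_X_pow]
        rw [sub_eq_add_neg, totalDegree_add_eq_left_of_totalDegree_lt, h7]
        rw [totalDegree_neg, totalDegree_X, h7]
        omega
      change (h i).totalDegree + (m + 1) ≤ g.totalDegree
      omega
  · conv_lhs => rw [h2]
    rw [Finsupp.linearCombination_apply, Finsupp.sum_fintype _ _ (fun i => by simp)]
    refine Finset.sum_congr rfl fun i _ => ?_
    rw [smul_eq_mul, h3]

/-- the Lagrange polynomial at `Q`, split as top monomial plus lower order terms -/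
noncomputable def dl (m : ℕ) (Q : Fin k → ℂ) : MvPolynomial (Fin k) ℂ :=
  ∏ i, Polynomial.aeval (X i) (Lagrange.basis (Sg m) id (Q i))

theorem eval_dl_self {Q : Fin k → ℂ} (hQ : Q ∈ Gr k m) : eval Q (dl m Q) = 1 := by
  unfold dl
  rw [map_prod]
  refine Finset.prod_eq_one fun i _ => ?_
  have h1 : eval Q (Polynomial.aeval (X i) (Lagrange.basis (Sg m) id (Q i))) =
      Polynomial.eval (Q i) (Lagrange.basis (Sg m) id (Q i)) := by
    rw [← aeval_eq_eval, ← Polynomial.aeval_algHom_apply, aeval_X, Polynomial.coe_aeval_eq_eval]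
  rw [h1]
  exact Lagrange.eval_basis_self (v := id) Function.injective_id.injOn (Fintype.mem_piFinset.mp hQ i)

theorem eval_dl_of_ne {Q R : Fin k → ℂ} (hR : R ∈ Gr k m)
    (hne : Q ≠ R) : eval R (dl m Q) = 0 := by
  obtain ⟨i, hi⟩ := Function.ne_iff.mp hne
  unfold dl
  rw [map_prod]
  refine Finset.prod_eq_zero (Finset.mem_univ i) ?_
  have h1 : eval R (Polynomial.aeval (X i) (Lagrange.basis (Sg m) id (Q i))) =
      Polynomial.eval (R i) (Lagrange.basis (Sg m) id (Q i)) := by
    rw [← aeval_eq_eval, ← Polynomial.aeval_algHom_apply, aeval_X, Polynomial.coe_aeval_eq_eval]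
  rw [h1]
  exact Lagrange.eval_basis_of_ne (v := id) hi (Fintype.mem_piFinset.mp hR i)

theorem totalDegree_dl_le (hm : 0 < m) {Q : Fin k → ℂ} (hQ : Q ∈ Gr k m) :
    (dl m Q).totalDegree ≤ k * m := by
  unfold dl
  refine (totalDegree_finsetProd _ _).trans ?_
  have h1 : ∀ i ∈ (Finset.univ : Finset (Fin k)), (Polynomial.aeval (X i : MvPolynomial (Fin k) ℂ)
      (Lagrange.basis (Sg m) id (Q i))).totalDegree ≤ m := by
    intro i _
    rw [Polynomial.aeval_eq_sum_range]
    refine totalDegree_finsetSum_le fun a ha => ?_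
    refine (totalDegree_smul_le _ _).trans ?_
    rw [totalDegree_X_pow]
    have h2 := Lagrange.natDegree_basis (s := Sg m) (v := id) Function.injective_id.injOn
      (Fintype.mem_piFinset.mp hQ i)
    rw [h2, card_Sg hm, Nat.add_sub_cancel] at ha
    have := Finset.mem_range.mp ha
    omega
  refine (Finset.sum_le_sum h1).trans ?_
  rw [Finset.sum_const, Finset.card_univ, Fintype.card_fin, smul_eq_mul]

/-- reduced monomials separate functions on the grid -/
theorem grid_dual (hm : 0 < m) (x : (Fin k → ℂ) → ℂ)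
    (hx : ∀ β : Fin k → ℕ, (∀ i, β i ≤ m) → ∑ Q ∈ Gr k m, x Q * ∏ i, Q i ^ β i = 0) :
    ∀ R ∈ Gr k m, x R = 0 := by
  classical
  intro R hR
  have h1 : ∑ Q ∈ Gr k m, x Q * eval Q (dl m R) = x R := by
    rw [Finset.sum_eq_single R]
    · rw [eval_dl_self hR, mul_one]
    · intro Q hQ hne
      rw [eval_dl_of_ne hQ hne.symm, mul_zero]
    · intro h; exact absurd hR h
  have h2 : ∀ Q : Fin k → ℂ, eval Q (dl m R) = ∑ β ∈ Fintype.piFinset fun _ : Fin k => Finset.range (m + 1),
      (∏ i, (Lagrange.basis (Sg m) id (R i)).coeff (β i)) * ∏ i, Q i ^ β i := by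
    intro Q
    unfold dl
    rw [map_prod]
    have h3 : ∀ i, eval Q (Polynomial.aeval (X i) (Lagrange.basis (Sg m) id (R i))) =
        ∑ a ∈ Finset.range (m + 1), (Lagrange.basis (Sg m) id (R i)).coeff a * Q i ^ a := by
      intro i
      rw [← aeval_eq_eval, ← Polynomial.aeval_algHom_apply, aeval_X, Polynomial.coe_aeval_eq_eval,
        Polynomial.eval_eq_sum_range, Lagrange.natDegree_basis (s := Sg m) (v := id)
          Function.injective_id.injOn (Fintype.mem_piFinset.mp hR i), card_Sg hm, Nat.add_sub_cancel]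
    simp only [h3]
    rw [Finset.prod_univ_sum]
    exact Finset.sum_congr rfl fun β _ => Finset.prod_mul_distrib
  rw [← h1]
  simp only [h2, Finset.mul_sum]
  rw [Finset.sum_comm]
  refine Finset.sum_eq_zero fun β hβ => ?_
  have h4 := hx β (fun i => by
    have := Finset.mem_range.mp (Fintype.mem_piFinset.mp hβ i)
    omega)
  calc ∑ Q ∈ Gr k m, x Q * ((∏ i, (Lagrange.basis (Sg m) id (R i)).coeff (β i)) * ∏ i, Q i ^ β i)
      = (∏ i, (Lagrange.basis (Sg m) id (R i)).coeff (β i)) *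
        ∑ Q ∈ Gr k m, x Q * ∏ i, Q i ^ β i := by
        rw [Finset.mul_sum]
        exact Finset.sum_congr rfl fun Q _ => by ring
    _ = 0 := by rw [h4, mul_zero]

/-- functionals on the grid killing low degree are multiples of the residue -/
theorem grid_dual' (hm : 0 < m) (x : (Fin k → ℂ) → ℂ)
    (hx : ∀ β : Fin k →₀ ℕ, β.degree < k * m → ∑ Q ∈ Gr k m, x Q * ∏ i, Q i ^ β i = 0) :
    ∃ t : ℂ, ∀ R ∈ Gr k m, x R = t * cW m R := by
  classical
  set t := ∑ Q ∈ Gr k m, x Q * ∏ i, Q i ^ m with ht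
  refine ⟨t, ?_⟩
  have h0 : ∑ Q ∈ Gr k m, cW m Q * ∏ i, Q i ^ m = 1 := by
    have h3 : ∑ Q ∈ Gr k m, cW m Q * ∏ i, Q i ^ m =
        ∏ i : Fin k, ∑ q ∈ Sg m, cw m q * q ^ m := by
      rw [Finset.prod_univ_sum]
      refine Finset.sum_congr rfl fun Q _ => ?_
      unfold cW
      rw [← Finset.prod_mul_distrib]
    rw [h3]
    exact Finset.prod_eq_one fun i _ => cw_sum_top hm
  have h1 := grid_dual hm (fun Q => x Q - t * cW m Q) (by
    intro β hβ
    by_cases hall : ∀ i, β i = m
    · simp only [hall, sub_mul, Finset.sum_sub_distrib, mul_assoc]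
      rw [← Finset.mul_sum, h0, mul_one, ← ht, sub_self]
    · push Not at hall
      obtain ⟨i, hi⟩ := hall
      set β' : Fin k →₀ ℕ := Finsupp.equivFunOnFinite.symm β with hβ'
      have hdeg : β'.degree < k * m := by
        rw [Finsupp.degree_eq_sum]
        have h2 : ∑ i, β' i < ∑ i : Fin k, m := by
          refine Finset.sum_lt_sum (fun j _ => hβ j) ⟨i, Finset.mem_univ _, ?_⟩
          exact lt_of_le_of_ne (hβ i) hi
        rwa [Finset.sum_const, Finset.card_univ, Fintype.card_fin, smul_eq_mul] at h2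
      have h2 := hx β' hdeg
      have h3 := cW_sum hm β' hdeg
      have h4 : ∀ Q : Fin k → ℂ, ∏ i, Q i ^ β' i = ∏ i, Q i ^ β i := fun Q => rfl
      simp only [h4] at h2 h3
      simp only [sub_mul, Finset.sum_sub_distrib, mul_assoc]
      rw [← Finset.mul_sum, h2, h3, mul_zero, sub_self])
  intro R hR
  exact sub_eq_zero.mp (h1 R hR)

theorem eval_monomial_one (β : Fin k →₀ ℕ) (Q : Fin k → ℂ) :
    eval Q (monomial β (1 : ℂ)) = ∏ i, Q i ^ β i := by
  rw [eval_monomial, one_mul, Finsupp.prod_fintype _ _ fun i => pow_zero _]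

/-- the main grid lemma -/
theorem grid_main (hm : 0 < m) (F1 : MvPolynomial (Fin k) ℂ) (hF1 : F1.totalDegree ≤ m + 1)
    (hP : eval 0 F1 = 0) (hQ : ∀ Q ∈ Gr k m, Q ≠ 0 → eval Q F1 ≠ 0)
    (L : MvPolynomial (Fin k) ℂ →ₗ[ℂ] ℂ)
    (h1 : ∀ i (β : Fin k →₀ ℕ), β.degree + (m + 1) ≤ (k + 1) * m →
      L (monomial β 1 * (X i ^ (m + 1) - X i)) = 0)
    (h2 : ∀ β : Fin k →₀ ℕ, β.degree + (m + 1) ≤ (k + 1) * m → L (monomial β 1 * F1) = 0) :
    ∀ β : Fin k →₀ ℕ, β ≠ 0 → β.degree ≤ (k + 1) * m → L (monomial β 1) = 0 := by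
  classical
  have hlin : ∀ (r : MvPolynomial (Fin k) ℂ), (∀ β : Fin k →₀ ℕ, β.degree + (m + 1) ≤ (k + 1) * m →
      L (monomial β 1 * r) = 0) → ∀ g : MvPolynomial (Fin k) ℂ,
      g.totalDegree + (m + 1) ≤ (k + 1) * m → L (g * r) = 0 := by
    intro r hr g hg
    have e1 : g = ∑ β ∈ g.support, C (coeff β g) * monomial β 1 := by
      conv_lhs => rw [g.as_sum]
      exact Finset.sum_congr rfl fun β _ => by rw [C_mul_monomial, mul_one]
    rw [e1, Finset.sum_mul, map_sum]
    refine Finset.sum_eq_zero fun β hβ => ?_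
    rw [mul_assoc, ← smul_eq_C_mul, map_smul, hr, smul_zero]
    have := le_totalDegree hβ
    have h5 : β.degree ≤ g.totalDegree := by
      rw [Finsupp.degree_eq_sum]
      rwa [Finsupp.sum_fintype _ _ fun i => rfl] at this
    omega
  -- vanishing on the grid
  have hnull : ∀ g : MvPolynomial (Fin k) ℂ, g.totalDegree ≤ (k + 1) * m →
      (∀ Q ∈ Gr k m, eval Q g = 0) → L g = 0 := by
    intro g hg hg0
    obtain ⟨h, hd, he⟩ := grid_null hm g hg0
    rw [he, map_sum]
    refine Finset.sum_eq_zero fun i _ => ?_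
    rcases hd i with h0 | hdi
    · rw [h0, zero_mul, map_zero]
    · exact hlin _ (h1 i) _ (by omega)
  have hrep : ∀ g : MvPolynomial (Fin k) ℂ, g.totalDegree ≤ (k + 1) * m →
      L g = ∑ Q ∈ Gr k m, L (dl m Q) * eval Q g := by
    intro g hg
    have h3 := hnull (g - ∑ Q ∈ Gr k m, C (eval Q g) * dl m Q) (by
      refine (totalDegree_sub _ _).trans (max_le hg ?_)
      refine totalDegree_finsetSum_le fun Q hQ' => ?_
      refine (totalDegree_mul _ _).trans ?_
      rw [totalDegree_C, zero_add]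
      refine (totalDegree_dl_le hm hQ').trans ?_
      exact Nat.mul_le_mul_right _ (Nat.le_succ k)) (by
      intro R hR
      rw [map_sub, map_sum, Finset.sum_eq_single R]
      · rw [map_mul, eval_C, eval_dl_self hR, mul_one, sub_self]
      · intro Q hQ' hne
        rw [map_mul, eval_dl_of_ne hR hne, mul_zero]
      · intro h; exact absurd hR h)
    rw [map_sub, sub_eq_zero, map_sum] at h3
    rw [h3]
    refine Finset.sum_congr rfl fun Q _ => ?_
    rw [← smul_eq_C_mul, map_smul, smul_eq_mul, mul_comm]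
  -- the values at nonzero points vanish
  obtain ⟨t, ht⟩ := grid_dual' hm (fun Q => L (dl m Q) * eval Q F1) (by
    intro β hβ
    have h3 := h2 β (by
      have : (k + 1) * m = k * m + m := by ring
      omega)
    rw [hrep] at h3
    · rw [← h3]
      refine Finset.sum_congr rfl fun Q _ => ?_
      rw [map_mul, eval_monomial_one]
      ring
    · refine (totalDegree_mul _ _).trans ?_
      have h4 : (monomial β (1 : ℂ)).totalDegree = β.degree := by
        rw [totalDegree_monomial _ one_ne_zero, Finsupp.degree_eq_sum,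
          Finsupp.sum_fintype _ _ fun i => rfl]
      have : (k + 1) * m = k * m + m := by ring
      omega)
  have ht0 : t = 0 := by
    have h3 := ht 0 zero_mem_Gr
    simp only [hP, mul_zero] at h3
    exact (mul_eq_zero.mp h3.symm).resolve_right (cW_ne_zero hm zero_mem_Gr)
  have hval : ∀ Q ∈ Gr k m, Q ≠ 0 → L (dl m Q) = 0 := by
    intro Q hQ1 hQ2
    have h3 := ht Q hQ1
    rw [ht0, zero_mul] at h3
    exact (mul_eq_zero.mp h3).resolve_right (hQ Q hQ1 hQ2)
  intro β hβ0 hβ
  rw [hrep]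
  · refine Finset.sum_eq_zero fun Q hQ1 => ?_
    by_cases hQ2 : Q = 0
    · rw [hQ2, eval_monomial_one]
      obtain ⟨i, hi⟩ := Finsupp.ne_iff.mp hβ0
      rw [Finset.prod_eq_zero (Finset.mem_univ i), mul_zero]
      exact zero_pow hi
    · rw [hval Q hQ1 hQ2, zero_mul]
  · rw [totalDegree_monomial _ one_ne_zero, Finsupp.sum_fintype _ _ fun i => rfl]
    rwa [Finsupp.degree_eq_sum] at hβ

/-- suitable coefficients -/
theorem exists_weights (hm : 0 < m) : ∃ w : Fin k → ℂ, (∀ i, w i ≠ 0) ∧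
    ∀ Q ∈ Gr k m, Q ≠ 0 → ∑ i, w i * Q i ^ 2 ≠ 0 := by
  classical
  set p : MvPolynomial (Fin k) ℂ := ∏ Q ∈ (Gr k m).erase 0, ∑ i, X i * C (Q i ^ 2) with hp
  have hp0 : p ≠ 0 := by
    rw [hp, Finset.prod_ne_zero_iff]
    intro Q hQ h0
    obtain ⟨hne, hQ'⟩ := Finset.mem_erase.mp hQ
    obtain ⟨i, hi⟩ := Function.ne_iff.mp hne
    have h1 := congrArg (eval (Pi.single i 1)) h0
    rw [map_sum, Finset.sum_eq_single i] at h1
    · simp at h1
      exact hi h1
    · intro j _ hj
      simp [hj]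
    · intro h; exact absurd (Finset.mem_univ _) h
  obtain ⟨w, hw⟩ : ∃ w, eval w p ≠ 0 := by
    by_contra hcon
    push Not at hcon
    exact hp0 (MvPolynomial.funext fun x => by rw [hcon, map_zero])
  rw [hp, map_prod, Finset.prod_ne_zero_iff] at hw
  have hw' : ∀ Q ∈ Gr k m, Q ≠ 0 → ∑ i, w i * Q i ^ 2 ≠ 0 := by
    intro Q hQ hne
    have := hw Q (Finset.mem_erase.mpr ⟨hne, hQ⟩)
    simpa using this
  refine ⟨w, fun i => ?_, hw'⟩
  have h2 := hw' (Pi.single i 1) (Fintype.mem_piFinset.mpr fun j => by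
    by_cases hj : j = i
    · rw [hj, Pi.single_eq_same]; exact one_mem_Sg hm
    · rw [Pi.single_eq_of_ne hj]; exact zero_mem_Sg) (by
    intro h
    have := congrFun h i
    simp at this)
  intro h0
  apply h2
  refine Finset.sum_eq_zero fun j _ => ?_
  by_cases hj : j = i
  · rw [hj, h0, zero_mul]
  · rw [Pi.single_eq_of_ne hj]; simp

end grid

end Run7.h100.AF
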