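import Mathlib
import Pool.Agent.H503R3.QCI.Hilb

/-!
Forms of equal degree with only the trivial common zero generate the same ideal as a regular
sequence; the Hilbert function in the socle degree.
-/

open MvPolynomial

namespace Run7.h100.AF

open H503R3.QCI

universe u

variable {F : Type u} [Field F] {n : ℕ}

/-- `l` is a regular sequence modulo `J` (ideal form, no properness). -/
def RegOn : Ideal (MvPolynomial (Fin n) F) → List (MvPolynomial (Fin n) F) → Prop
  | _, [] => True
  | J, a :: l => NZD J a ∧ RegOn (J ⊔ Ideal.span {a}) l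

/-- homogeneous of positive degree -/
def HP (a : MvPolynomial (Fin n) F) : Prop := ∃ e, 1 ≤ e ∧ a.IsHomogeneous e

theorem homog_sup_span {J : Ideal (MvPolynomial (Fin n) F)} (hJ : Homog J)
    {a : MvPolynomial (Fin n) F} (ha : HP a) : Homog (J ⊔ Ideal.span {a}) := by
  obtain ⟨e, _, he⟩ := ha
  intro p hp k
  obtain ⟨u, hu, v, hv, rfl⟩ := Submodule.mem_sup.mp hp
  rw [map_add]
  have h2 : Homog (Ideal.span {a}) := homog_span (by
    rintro x hx
    rw [Set.mem_singleton_iff] at hx
    exact ⟨e, hx ▸ he⟩)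
  exact Submodule.add_mem_sup (hJ u hu k) (h2 v hv k)

/-- swap lemma, first part -/
theorem nzd_of_swap {J : Ideal (MvPolynomial (Fin n) F)} (hJ : Homog J)
    {a b : MvPolynomial (Fin n) F} (ha : HP a) (hb : HP b) (h1 : NZD J a)
    (h2 : NZD (J ⊔ Ideal.span {a}) b) : NZD J b := by
  obtain ⟨ea, hea, hha⟩ := ha
  obtain ⟨eb, heb, hhb⟩ := hb
  have key : ∀ D : ℕ, ∀ h : MvPolynomial (Fin n) F, h.IsHomogeneous D → b * h ∈ J → h ∈ J := by
    intro D
    induction D using Nat.strong_induction_on with
    | _ D ih =>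
      intro h hh hbh
      have h3 : h ∈ J ⊔ Ideal.span {a} := h2 h (Ideal.mem_sup_left hbh)
      obtain ⟨u, hu, v, hv, huv⟩ := Submodule.mem_sup.mp h3
      obtain ⟨w, rfl⟩ := Ideal.mem_span_singleton'.mp hv
      by_cases hD : D < ea
      · -- then h is in J
        have h4 := homogeneousComponent_eq_self hh
        rw [← huv, map_add, mul_comm w a, comp_mul_of_lt hha hD, add_zero] at h4
        have h5 := hJ u hu D
        rw [h4, mul_comm a w, huv] at h5
        exact h5
      · obtain ⟨k, rfl⟩ := Nat.exists_eq_add_of_le (not_lt.mp hD)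
        have h4 := homogeneousComponent_eq_self hh
        rw [← huv, map_add, mul_comm w a, comp_mul hha] at h4
        set w' := homogeneousComponent k w with hw'
        have hw'h : w'.IsHomogeneous k := homogeneousComponent_isHomogeneous k w
        have h5 := hJ u hu (ea + k)
        have h6 : h = homogeneousComponent (ea + k) u + a * w' := by
          rw [h4, mul_comm a w, huv]
        have h7 : a * (b * w') ∈ J := by
          have : a * (b * w') = b * h - b * homogeneousComponent (ea + k) u := by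
            rw [h6]; ring
          rw [this]
          exact sub_mem hbh (Ideal.mul_mem_left _ _ h5)
        have h8 := h1 _ h7
        have h9 := ih k (by omega) w' hw'h h8
        rw [h6]
        exact add_mem h5 (Ideal.mul_mem_left _ _ h9)
  intro h hbh
  rw [← sum_homogeneousComponent h]
  refine sum_mem fun i _ => ?_
  apply key i _ (homogeneousComponent_isHomogeneous i h)
  rw [← comp_mul hhb]
  exact hJ _ hbh _

/-- swap lemma, second part -/
theorem nzd_of_swap' {J : Ideal (MvPolynomial (Fin n) F)} {a b : MvPolynomial (Fin n) F}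
    (h1 : NZD J a) (h2 : NZD (J ⊔ Ideal.span {a}) b) : NZD (J ⊔ Ideal.span {b}) a := by
  intro h hh
  obtain ⟨u, hu, v, hv, huv⟩ := Submodule.mem_sup.mp hh
  obtain ⟨g, rfl⟩ := Ideal.mem_span_singleton'.mp hv
  have h3 : b * g ∈ J ⊔ Ideal.span {a} := by
    have : b * g = a * h - u := by rw [← huv]; ring
    rw [this]
    exact sub_mem (Ideal.mem_sup_right (Ideal.mul_mem_right _ _ (Ideal.mem_span_singleton_self a)))
      (Ideal.mem_sup_left hu)
  have h4 := h2 g h3
  obtain ⟨u', hu', v', hv', huv'⟩ := Submodule.mem_sup.mp h4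
  obtain ⟨g', rfl⟩ := Ideal.mem_span_singleton'.mp hv'
  have h5 : a * (h - b * g') ∈ J := by
    have : a * (h - b * g') = u + b * u' := by
      have e1 : a * h = u + g * b := huv.symm
      have e2 : g = u' + g' * a := huv'.symm
      rw [mul_sub, e1, e2]; ring
    rw [this]
    exact add_mem hu (Ideal.mul_mem_left _ _ hu')
  have h6 := h1 _ h5
  have h7 : h = (h - b * g') + b * g' := by ring
  rw [h7]
  exact add_mem (Ideal.mem_sup_left h6)
    (Ideal.mem_sup_right (Ideal.mul_mem_right _ _ (Ideal.mem_span_singleton_self b)))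

theorem RegOn.perm {l l' : List (MvPolynomial (Fin n) F)} (h : l.Perm l') :
    ∀ J : Ideal (MvPolynomial (Fin n) F), Homog J → (∀ a ∈ l, HP a) → RegOn J l → RegOn J l' := by
  induction h with
  | nil => intro J _ _ _; trivial
  | cons x _ ih =>
    intro J hJ hl hreg
    exact ⟨hreg.1, ih _ (homog_sup_span hJ (hl x (by simp))) (fun a ha => hl a (by simp [ha])) hreg.2⟩
  | swap x y l =>
    intro J hJ hl hreg
    obtain ⟨h1, h2, h3⟩ := hreg
    refine ⟨nzd_of_swap hJ (hl y (by simp)) (hl x (by simp)) h1 h2, nzd_of_swap' h1 h2, ?_⟩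
    have : J ⊔ Ideal.span {x} ⊔ Ideal.span {y} = J ⊔ Ideal.span {y} ⊔ Ideal.span {x} := by
      rw [sup_assoc, sup_comm (Ideal.span {x}), ← sup_assoc]
    rw [this]
    exact h3
  | trans h1 _ ih1 ih2 =>
    intro J hJ hl hreg
    exact ih2 J hJ (fun a ha => hl a ((h1.mem_iff).mpr ha)) (ih1 J hJ hl hreg)

/-- Prime avoidance for a subspace spanning an ideal which contains a nonzerodivisor. -/
theorem exists_nzd [Infinite F] (W : Submodule F (MvPolynomial (Fin n) F))
    (J : Ideal (MvPolynomial (Fin n) F)) {g : MvPolynomial (Fin n) F} (hg : NZD J g)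
    (hgW : g ∈ Ideal.span (W : Set (MvPolynomial (Fin n) F))) : ∃ f ∈ W, NZD J f := by
  classical
  by_contra hcon
  push Not at hcon
  let M := MvPolynomial (Fin n) F ⧸ J
  have hfin := associatedPrimes.finite (MvPolynomial (Fin n) F) M
  have hun := biUnion_associatedPrimes_eq_zero_divisors (MvPolynomial (Fin n) F) M
  have hzd : ∀ f : MvPolynomial (Fin n) F, ¬ NZD J f →
      f ∈ ⋃ p ∈ associatedPrimes (MvPolynomial (Fin n) F) M, (p : Set (MvPolynomial (Fin n) F)) := by
    intro f hf
    rw [hun]
    simp only [NZD] at hf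
    push Not at hf
    obtain ⟨h, h1, h2⟩ := hf
    refine ⟨Ideal.Quotient.mk J h, ?_, ?_⟩
    · rwa [Ne, Ideal.Quotient.eq_zero_iff_mem]
    · rw [← Ideal.Quotient.mk_eq_mk, ← Submodule.Quotient.mk_smul, Submodule.Quotient.mk_eq_zero]
      simpa using h1
  -- cover W
  let ι := {p // p ∈ associatedPrimes (MvPolynomial (Fin n) F) M}
  have : Finite ι := hfin
  let q : ι → Subspace F W := fun p => (Submodule.restrictScalars F p.1).comap W.subtype
  have hcov : (⋃ i, (q i : Set W)) = Set.univ := by
    rw [Set.eq_univ_iff_forall]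
    intro w
    have := hzd w.1 (hcon w.1 w.2)
    simp only [Set.mem_iUnion] at this
    obtain ⟨p, hp, hw⟩ := this
    exact Set.mem_iUnion.mpr ⟨⟨p, hp⟩, hw⟩
  obtain ⟨p, hp⟩ := Subspace.exists_eq_top_of_iUnion_eq_univ hcov
  have hW : (W : Set (MvPolynomial (Fin n) F)) ⊆ p.1 := by
    intro w hw
    have : (⟨w, hw⟩ : W) ∈ q p := by rw [hp]; trivial
    exact this
  have hgp : g ∈ p.1 := (Ideal.span_le.mpr hW) hgW
  have hgz : g ∈ ⋃ p ∈ associatedPrimes (MvPolynomial (Fin n) F) M,
      (p : Set (MvPolynomial (Fin n) F)) := Set.mem_iUnion₂.mpr ⟨p.1, p.2, hgp⟩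
  rw [hun] at hgz
  obtain ⟨x, hx, hgx⟩ := hgz
  obtain ⟨y, rfl⟩ := Ideal.Quotient.mk_surjective x
  apply hx
  rw [Ideal.Quotient.eq_zero_iff_mem]
  apply hg
  rw [← Ideal.Quotient.mk_eq_mk, ← Submodule.Quotient.mk_smul, Submodule.Quotient.mk_eq_zero] at hgx
  simpa using hgx

theorem RegOn.append {l l' : List (MvPolynomial (Fin n) F)} :
    ∀ J : Ideal (MvPolynomial (Fin n) F), RegOn J (l ++ l') ↔
      RegOn J l ∧ RegOn (J ⊔ Ideal.span {a | a ∈ l}) l' := by
  induction l with
  | nil => intro J; simp [RegOn]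
  | cons a l ih =>
    intro J
    simp only [List.cons_append, RegOn, ih, and_assoc]
    have : J ⊔ Ideal.span {a} ⊔ Ideal.span {b | b ∈ l} = J ⊔ Ideal.span {b | b ∈ a :: l} := by
      rw [sup_assoc, ← Ideal.span_union]
      congr 2
      ext x
      simp
    rw [this]

theorem homog_bot' : Homog (⊥ : Ideal (MvPolynomial (Fin n) F)) := homog_bot

/-- Replace all members of a regular sequence in `(W)` by members of `W`. -/
theorem exists_replace [Infinite F] (W : Submodule F (MvPolynomial (Fin n) F))
    (hW : ∀ w ∈ W, HP w) (G : List (MvPolynomial (Fin n) F)) :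
    ∀ L : List (MvPolynomial (Fin n) F), (∀ g ∈ G, HP g ∧ g ∈ Ideal.span
      (W : Set (MvPolynomial (Fin n) F))) → (∀ f ∈ L, f ∈ W) → RegOn ⊥ (G ++ L) →
      ∃ L' : List (MvPolynomial (Fin n) F), L'.length = G.length + L.length ∧ (∀ f ∈ L', f ∈ W) ∧
        RegOn ⊥ L' := by
  induction G with
  | nil => intro L _ hL h; exact ⟨L, by simp, hL, by simpa using h⟩
  | cons g G ih =>
    intro L hG hL h
    have hall : ∀ a ∈ (g :: G) ++ L, HP a := by
      intro a ha
      rcases List.mem_append.mp ha with h | h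
      · exact (hG a h).1
      · exact hW a (hL a h)
    have hp : ((g :: G) ++ L).Perm ((G ++ L) ++ [g]) := by
      simpa using (List.perm_append_singleton g (G ++ L)).symm
    have h1 := RegOn.perm hp ⊥ homog_bot' hall h
    rw [RegOn.append] at h1
    obtain ⟨h2, h3⟩ := h1
    obtain ⟨f, hfW, hf⟩ := exists_nzd W _ h3.1 (hG g (by simp)).2
    have h4 : RegOn ⊥ ((G ++ L) ++ [f]) := (RegOn.append _).mpr ⟨h2, hf, trivial⟩
    have hall' : ∀ a ∈ (G ++ L) ++ [f], HP a := by
      intro a ha
      rcases List.mem_append.mp ha with h | h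
      · exact hall a (by simp only [List.cons_append, List.mem_cons]; exact Or.inr h)
      · rw [List.mem_singleton] at h
        rw [h]
        exact hW f hfW
    have hp2 : ((G ++ L) ++ [f]).Perm (G ++ (f :: L)) := by
      rw [List.append_assoc]
      exact List.Perm.append_left G (List.perm_append_singleton f L)
    have h5 := RegOn.perm hp2 ⊥ homog_bot' hall' h4
    obtain ⟨L', h6, h7, h8⟩ := ih (f :: L) (fun g hg => hG g (by simp [hg])) (by
      intro a ha
      rcases List.mem_cons.mp ha with h | h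
      · rw [h]; exact hfW
      · exact hL a h) h5
    exact ⟨L', by rw [h6]; simp; ring, h7, h8⟩

end Run7.h100.AF
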