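import Mathlib
import Pool.Agent.H503R3.QCI.Tri
import Pool.Agent.Run7.h100.AF.CI

/-!
Forms of equal degree with only the trivial common zero: codimension one in the socle degree.
-/

open MvPolynomial

namespace Run7.h100.AF

open H503R3.QCI

universe u

variable {F : Type u} [Field F] {n : ℕ}

theorem regOn_ofFn {m : ℕ} : ∀ (f : Fin m → MvPolynomial (Fin n) F)
    (J : Ideal (MvPolynomial (Fin n) F)),
    RegOn J (List.ofFn f) ↔ ∀ i, NZD (J ⊔ Ideal.span (f '' {j | j < i})) (f i) := by
  induction m with
  | zero => intro f J; simp [RegOn]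
  | succ m ih =>
    intro f J
    rw [List.ofFn_succ, RegOn, ih, Fin.forall_fin_succ]
    have h0 : J ⊔ Ideal.span (f '' {j | j < 0}) = J := by
      have : {j : Fin (m + 1) | j < 0} = ∅ := by
        ext j; simp
      rw [this]; simp
    rw [h0]
    refine and_congr Iff.rfl (forall_congr' fun i => ?_)
    have : J ⊔ Ideal.span {f 0} ⊔ Ideal.span ((fun i : Fin m => f i.succ) '' {j | j < i}) =
        J ⊔ Ideal.span (f '' {j | j < i.succ}) := by
      rw [sup_assoc, ← Ideal.span_union]
      congr 2
      ext x
      simp only [Set.singleton_union, Set.mem_insert_iff, Set.mem_image, Set.mem_ofPred_eq]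
      constructor
      · rintro (rfl | ⟨j, hj, rfl⟩)
        · exact ⟨0, Fin.succ_pos i, rfl⟩
        · exact ⟨j.succ, Fin.succ_lt_succ_iff.mpr hj, rfl⟩
      · rintro ⟨j, hj, rfl⟩
        rcases Fin.eq_zero_or_eq_succ j with rfl | ⟨k, rfl⟩
        · left; rfl
        · right; exact ⟨k, Fin.succ_lt_succ_iff.mp hj, rfl⟩
    rw [this]

theorem reg_iff_regOn {m : ℕ} (f : Fin m → MvPolynomial (Fin n) F) :
    Reg f ↔ RegOn ⊥ (List.ofFn f) := by
  rw [regOn_ofFn]
  simp [Reg]

/-- members of a regular sequence of forms of positive degree are linearly independent -/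
theorem linearIndependent_of_reg {m : ℕ} {f : Fin m → MvPolynomial (Fin n) F}
    (hf : ∀ i, HP (f i)) (h : Reg f) : LinearIndependent F f := by
  classical
  rw [Fintype.linearIndependent_iff]
  intro c hc
  by_contra hcon
  push Not at hcon
  let T := Finset.univ.filter (fun i => c i ≠ 0)
  have hT : T.Nonempty := by
    obtain ⟨i, hi⟩ := hcon
    exact ⟨i, by simp [T, hi]⟩
  let i := T.max' hT
  have hi : c i ≠ 0 := by
    have := T.max'_mem hT
    simpa [T] using this
  have hmax : ∀ j, i < j → c j = 0 := by
    intro j hj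
    by_contra h
    have : j ≤ i := T.le_max' j (by simp [T, h])
    exact absurd hj (not_lt.mpr this)
  have h1 : f i * C (c i) ∈ Ideal.span (f '' {j | j < i}) := by
    have h2 : f i * C (c i) = - ∑ j ∈ Finset.univ.erase i, c j • f j := by
      have := Finset.add_sum_erase Finset.univ (fun j => c j • f j) (Finset.mem_univ i)
      rw [hc] at this
      rw [MvPolynomial.smul_eq_C_mul] at this
      linear_combination this
    rw [h2]
    refine neg_mem (sum_mem fun j hj => ?_)
    rcases lt_trichotomy j i with h | h | h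
    · rw [MvPolynomial.smul_eq_C_mul]
      exact Ideal.mul_mem_left _ _ (Ideal.subset_span ⟨j, h, rfl⟩)
    · exact absurd h (Finset.ne_of_mem_erase hj)
    · rw [hmax j h, zero_smul]; exact zero_mem _
  have h2 := h i _ h1
  have h3 : Ideal.span (f '' {j | j < i}) ≤ RingHom.ker (eval (0 : Fin n → F)) := by
    rw [Ideal.span_le]
    rintro _ ⟨j, _, rfl⟩
    obtain ⟨e, he, hfe⟩ := hf j
    simp only [SetLike.mem_coe, RingHom.mem_ker]
    rw [eval_zero, constantCoeff_eq]
    by_contra hne
    have h4 := hfe hne
    simp at h4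
    omega
  have h4 := h3 h2
  rw [RingHom.mem_ker, eval_C] at h4
  exact hi h4

/-- the coefficient of the product polynomial in the top degree is one -/
theorem cip_coeff (n m : ℕ) (hm : 1 ≤ m) :
    (cip (fun _ : Fin n => m)).coeff (n * (m - 1)) = 1 := by
  have hmon1 : ∀ k : ℕ, (∑ j ∈ Finset.range (k + 1), (Polynomial.X : Polynomial ℤ) ^ j).Monic ∧
      (∑ j ∈ Finset.range (k + 1), (Polynomial.X : Polynomial ℤ) ^ j).natDegree = k := by
    intro k
    constructor
    · exact Polynomial.Monic.geom_sum' Polynomial.monic_X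
        (by rw [Polynomial.degree_X]; exact one_pos) k.succ_ne_zero
    · induction k with
      | zero => simp
      | succ k ih =>
        rw [Finset.sum_range_succ, Polynomial.natDegree_add_eq_right_of_natDegree_lt,
          Polynomial.natDegree_X_pow]
        rw [ih, Polynomial.natDegree_X_pow]
        exact Nat.lt_succ_self k
  have hmon : (∑ k ∈ Finset.range m, (Polynomial.X : Polynomial ℤ) ^ k).Monic := by
    have := (hmon1 (m - 1)).1
    rwa [Nat.sub_add_cancel hm] at this
  have hdeg : (cip (fun _ : Fin n => m)).natDegree = n * (m - 1) := by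
    rw [cip, Polynomial.natDegree_prod_of_monic _ _ (fun i _ => hmon)]
    have := (hmon1 (m - 1)).2
    rw [Nat.sub_add_cancel hm] at this
    rw [this]
    simp
  have hcm : (cip (fun _ : Fin n => m)).Monic := Polynomial.monic_prod_of_monic _ _ (fun i _ => hmon)
  have := hcm.coeff_natDegree
  rwa [hdeg] at this

/-- The common zero locus condition. -/
def OnlyZero {m : ℕ} (f : Fin m → MvPolynomial (Fin n) F) : Prop :=
  ∀ z : Fin n → F, (∀ i, eval z (f i) = 0) → z = 0

theorem exists_pow_mem [IsAlgClosed F] {m : ℕ} (f : Fin m → MvPolynomial (Fin n) F)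
    (h : OnlyZero f) : ∃ K : ℕ, 1 ≤ K ∧ ∀ i : Fin n, (X i : MvPolynomial (Fin n) F) ^ K ∈
      Ideal.span (Set.range f) := by
  have h1 : ∀ i : Fin n, (X i : MvPolynomial (Fin n) F) ∈ (Ideal.span (Set.range f)).radical := by
    intro i
    rw [← vanishingIdeal_zeroLocus_eq_radical (K := F)]
    rw [mem_vanishingIdeal_iff]
    intro z hz
    have : z = 0 := by
      apply h
      intro j
      have := hz (f j) (Ideal.subset_span ⟨j, rfl⟩)
      simpa [aeval_eq_eval] using this
    simp [this]
  choose K hK using h1
  refine ⟨1 + ∑ i, K i, by omega, fun i => ?_⟩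
  have h2 : K i ≤ 1 + ∑ i, K i := by
    have := Finset.single_le_sum (f := K) (fun _ _ => Nat.zero_le _) (Finset.mem_univ i)
    omega
  obtain ⟨k, hk⟩ := Nat.exists_eq_add_of_le h2
  rw [hk, pow_add]
  exact Ideal.mul_mem_right _ _ (hK i)

theorem finrank_top [IsAlgClosed F] {m : ℕ} (hm : 1 ≤ m) (f : Fin n → MvPolynomial (Fin n) F)
    (hf : ∀ i, (f i).IsHomogeneous m) (h : OnlyZero f) :
    Module.finrank F (homogeneousSubmodule (Fin n) F (n * (m - 1))) =
      Module.finrank F (gr (Ideal.span (Set.range f)) (n * (m - 1))) + 1 := by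
  classical
  have : Infinite F := IsAlgClosed.instInfinite
  obtain ⟨K, hK1, hK⟩ := exists_pow_mem f h
  -- the subspace
  let W : Submodule F (MvPolynomial (Fin n) F) := Submodule.span F (Set.range f)
  have hWh : ∀ w ∈ W, w.IsHomogeneous m := by
    intro w hw
    have : W ≤ homogeneousSubmodule (Fin n) F m := by
      rw [Submodule.span_le]
      rintro _ ⟨i, rfl⟩
      exact hf i
    exact this hw
  have hWI : Ideal.span (W : Set (MvPolynomial (Fin n) F)) = Ideal.span (Set.range f) := by
    apply le_antisymm
    · rw [Ideal.span_le]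
      intro w hw
      have : W ≤ (Ideal.span (Set.range f)).restrictScalars F := by
        rw [Submodule.span_le]
        exact Ideal.subset_span
      exact this hw
    · exact Ideal.span_mono Submodule.subset_span
  have hreg0 : Reg (fun i : Fin n => (X i : MvPolynomial (Fin n) F) ^ K) :=
    tri_reg (f := fun i : Fin n => (X i : MvPolynomial (Fin n) F) ^ K) (G := fun _ => 0)
      (e := fun _ => K) (fun i => by simp) (fun _ => hK1) (fun i => zero_mem _)
  rw [reg_iff_regOn] at hreg0
  obtain ⟨L, hL1, hL2, hL3⟩ := exists_replace W (fun w hw => ⟨m, hm, hWh w hw⟩)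
    (List.ofFn fun i : Fin n => (X i : MvPolynomial (Fin n) F) ^ K) [] (by
      intro g hg
      rw [List.mem_ofFn] at hg
      obtain ⟨i, rfl⟩ := hg
      refine ⟨⟨K, hK1, ?_⟩, ?_⟩
      · simpa using (isHomogeneous_X F i).pow K
      · rw [hWI]; exact hK i) (by simp) (by simpa using hreg0)
  simp only [List.length_ofFn, List.length_nil, add_zero] at hL1
  obtain ⟨f', rfl⟩ : ∃ f' : Fin n → MvPolynomial (Fin n) F, L = List.ofFn f' := by
    refine ⟨fun i => L.get (i.cast hL1.symm), ?_⟩
    apply List.ext_getElem
    · simp [hL1]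
    · intro i h1 h2
      simp
  have hf'reg : Reg f' := by
    rw [reg_iff_regOn]
    exact hL3
  have hf'W : ∀ i, f' i ∈ W := fun i => hL2 _ (by rw [List.mem_ofFn]; exact ⟨i, rfl⟩)
  have hf'h : ∀ i, (f' i).IsHomogeneous m := fun i => hWh _ (hf'W i)
  have hli : LinearIndependent F f' :=
    linearIndependent_of_reg (fun i => ⟨m, hm, hf'h i⟩) hf'reg
  have hspan : Submodule.span F (Set.range f') = W := by
    have hle : Submodule.span F (Set.range f') ≤ W := by
      rw [Submodule.span_le]
      rintro _ ⟨i, rfl⟩
      exact hf'W i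
    have hfd : FiniteDimensional F W := FiniteDimensional.span_of_finite F (Set.finite_range f)
    apply Submodule.eq_of_le_of_finrank_le hle
    rw [finrank_span_eq_card hli]
    exact finrank_range_le_card (R := F) f
  have hI : Ideal.span (Set.range f') = Ideal.span (Set.range f) := by
    rw [← hWI, ← hspan]
    apply le_antisymm
    · exact Ideal.span_mono Submodule.subset_span
    · rw [Ideal.span_le]
      intro w hw
      have : Submodule.span F (Set.range f') ≤ (Ideal.span (Set.range f')).restrictScalars F := by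
        rw [Submodule.span_le]
        exact Ideal.subset_span
      exact this hw
  have hHS := HS_ci f' (fun _ => m) hf'h hf'reg
  rw [hI] at hHS
  have h2 := congrArg (PowerSeries.coeff (n * (m - 1))) hHS
  rw [HS, PowerSeries.coeff_mk, Polynomial.coeff_coe, cip_coeff _ _ hm] at h2
  omega

end Run7.h100.AF
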