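import Mathlib
import Pool.Agent.Run7.h100.AF.CI2

/-!
The Jacobian type determinant is not in the ideal.
-/

open MvPolynomial

namespace Run7.h100.AF

open H503R3.QCI

universe u

variable {F : Type u} [Field F] {n : ℕ}

/-- the ideal of `K`-th powers of variables -/
noncomputable def IK (F : Type u) [Field F] (n K : ℕ) : Ideal (MvPolynomial (Fin n) F) :=
  Ideal.span (Set.range fun i : Fin n => (X i : MvPolynomial (Fin n) F) ^ K)

theorem nzd_var (K : ℕ) (i : Fin n) :
    NZD (Ideal.span ((fun j : Fin n => (X j : MvPolynomial (Fin n) F) ^ K) '' {j | j ≠ i})) (X i) := by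
  have h := monic_nzd (F := F) (k := i)
    (s := (fun j : Fin n => (X j : MvPolynomial (Fin n) F) ^ K) '' {j | j ≠ i}) (e := 1) (G := 0)
  intro x hx
  apply h
  · rintro _ ⟨j, hj, rfl⟩
    refine pow_mem ?_ _
    rw [X_mem_supported]
    exact hj
  · norm_num
  · exact zero_mem _
  · simpa using hx


open Matrix in
theorem det_row (K : ℕ) (i : Fin n) (N : Matrix (Fin n) (Fin n) (MvPolynomial (Fin n) F))
    (y : Fin n → MvPolynomial (Fin n) F) (hy0 : y i = 0) (hy : ∀ l, l ≠ i → y l = X l ^ K)
    (hN : N.mulVec X = y) : N.det ∈ IK F n K := by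
  have h1 : N.det • (X : Fin n → MvPolynomial (Fin n) F) = N.adjugate.mulVec y := by
    rw [← hN, Matrix.mulVec_mulVec, Matrix.adjugate_mul, Matrix.smul_mulVec, Matrix.one_mulVec]
  have h2 : X i * N.det = ∑ l, N.adjugate i l * y l := by
    have := congrFun h1 i
    rw [Pi.smul_apply, smul_eq_mul, mul_comm] at this
    rw [this]
    rfl
  have h3 : X i * N.det ∈
      Ideal.span ((fun j : Fin n => (X j : MvPolynomial (Fin n) F) ^ K) '' {j | j ≠ i}) := by
    rw [h2]
    refine sum_mem fun l _ => ?_
    by_cases hl : l = i
    · rw [hl, hy0, mul_zero]; exact zero_mem _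
    · rw [hy l hl]
      exact Ideal.mul_mem_left _ _ (Ideal.subset_span ⟨l, hl, rfl⟩)
  have h4 := nzd_var K i _ h3
  refine Ideal.span_mono ?_ h4
  rintro _ ⟨j, _, rfl⟩
  exact ⟨j, rfl⟩

open Matrix in
theorem det_updateRow_sub' {R : Type*} [CommRing R] (A : Matrix (Fin n) (Fin n) R) (i : Fin n)
    (u v : Fin n → R) : (A.updateRow i u).det - (A.updateRow i v).det =
      (A.updateRow i (u - v)).det := by
  have h := Matrix.det_updateRow_add A i (u - v) v
  rw [sub_add_cancel] at h
  rw [h]
  ring

open Matrix in
theorem det_congr (K : ℕ) (M M' : Matrix (Fin n) (Fin n) (MvPolynomial (Fin n) F))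
    (hM : M.mulVec X = fun i => X i ^ K) (hM' : M'.mulVec X = fun i => X i ^ K) :
    M.det - M'.det ∈ IK F n K := by
  classical
  have key : ∀ S : Finset (Fin n),
      M.det - (Matrix.of fun i => if i ∈ S then M' i else M i).det ∈ IK F n K := by
    intro S
    induction S using Finset.induction_on with
    | empty =>
      have : (Matrix.of fun i => if i ∈ (∅ : Finset (Fin n)) then M' i else M i) = M := by
        ext i j; simp
      rw [this, sub_self]
      exact zero_mem _
    | insert i S hi ih =>
      set A : Matrix (Fin n) (Fin n) (MvPolynomial (Fin n) F) :=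
        Matrix.of fun i => if i ∈ S then M' i else M i with hA
      have h1 : (Matrix.of fun l => if l ∈ insert i S then M' l else M l) = A.updateRow i (M' i) := by
        ext l j
        rw [Matrix.updateRow_apply]
        by_cases hl : l = i
        · subst hl; simp
        · simp [hA, hl]
      have h2 : A = A.updateRow i (M i) := by
        ext l j
        rw [Matrix.updateRow_apply]
        by_cases hl : l = i
        · subst hl; simp [hA, hi]
        · simp [hl]
      have h3 : A.det - (A.updateRow i (M' i)).det ∈ IK F n K := by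
        have e0 : A.det = (A.updateRow i (M i)).det := congrArg Matrix.det h2
        rw [e0, det_updateRow_sub']
        refine det_row K i _ (fun l => if l = i then 0 else X l ^ K) (by simp)
          (fun l hl => by simp [hl]) ?_
        ext1 l
        simp only [Matrix.mulVec]
        by_cases hl : l = i
        · subst hl
          rw [Matrix.updateRow_self, if_pos rfl, sub_dotProduct]
          have e1 := congrFun hM l
          have e2 := congrFun hM' l
          simp only [Matrix.mulVec] at e1 e2
          rw [e1, e2, sub_self]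
        · rw [Matrix.updateRow_ne hl, if_neg hl]
          have e1 := congrFun hM l
          have e2 := congrFun hM' l
          simp only [Matrix.mulVec] at e1 e2
          by_cases hlS : l ∈ S
          · simp only [hA, Matrix.of_apply, hlS, if_true]
            exact e2
          · simp only [hA, Matrix.of_apply, hlS, if_false]
            exact e1
      rw [h1]
      have : M.det - (A.updateRow i (M' i)).det =
          (M.det - A.det) + (A.det - (A.updateRow i (M' i)).det) := by ring
      rw [this]
      exact add_mem ih h3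
  have h := key Finset.univ
  have : (Matrix.of fun i => if i ∈ (Finset.univ : Finset (Fin n)) then M' i else M i) = M' := by
    ext i j; simp
  rwa [this] at h

theorem prod_notMem (K : ℕ) (hK : 1 ≤ K) :
    ∏ i, (X i : MvPolynomial (Fin n) F) ^ (K - 1) ∉ IK F n K := by
  have h := tri_socle (F := F) (n := n) (f := fun i : Fin n => (X i : MvPolynomial (Fin n) F) ^ K)
    (G := fun _ => 0) (e := fun _ => K) (fun i => by simp) (fun _ => hK) (fun i => zero_mem _)
  exact h

open Matrix in
/-- the determinant of a matrix expressing `f` by the variables is not in the ideal of `f` -/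
theorem det_notMem [IsAlgClosed F] (f : Fin n → MvPolynomial (Fin n) F) (h : OnlyZero f)
    (B : Matrix (Fin n) (Fin n) (MvPolynomial (Fin n) F)) (hB : B.mulVec X = f) :
    B.det ∉ Ideal.span (Set.range f) := by
  intro hdet
  obtain ⟨K, hK1, hK⟩ := exists_pow_mem f h
  have h1 : ∀ i, ∃ c : Fin n → MvPolynomial (Fin n) F, ∑ j, c j * f j = X i ^ K := by
    intro i
    obtain ⟨c, hc⟩ := Ideal.mem_span_range_iff_exists_fun.mp (hK i)
    exact ⟨c, hc⟩
  choose c hc using h1
  let C' : Matrix (Fin n) (Fin n) (MvPolynomial (Fin n) F) := Matrix.of c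
  have hC : C'.mulVec f = fun i => X i ^ K := by
    ext1 i
    exact hc i
  have h2 : (C' * B).mulVec X = fun i => X i ^ K := by
    rw [← Matrix.mulVec_mulVec, hB, hC]
  have h3 : (Matrix.diagonal fun i : Fin n => (X i : MvPolynomial (Fin n) F) ^ (K - 1)).mulVec X =
      fun i => X i ^ K := by
    ext1 i
    rw [Matrix.mulVec_diagonal, ← pow_succ, Nat.sub_add_cancel hK1]
  have h4 := det_congr K _ _ h2 h3
  rw [Matrix.det_diagonal] at h4
  have h5 : (C' * B).det ∈ IK F n K := by
    rw [Matrix.det_mul]
    obtain ⟨a, ha⟩ := Ideal.mem_span_range_iff_exists_fun.mp hdet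
    rw [← ha, Finset.mul_sum]
    refine sum_mem fun i _ => ?_
    have h6 : C'.det * f i = ∑ l, C'.adjugate i l * X l ^ K := by
      have h7 : C'.det • f = C'.adjugate.mulVec (fun i => X i ^ K) := by
        rw [← hC, Matrix.mulVec_mulVec, Matrix.adjugate_mul, Matrix.smul_mulVec, Matrix.one_mulVec]
      have := congrFun h7 i
      rw [Pi.smul_apply, smul_eq_mul] at this
      rw [this]
      rfl
    have h8 : C'.det * (a i * f i) = a i * (C'.det * f i) := by ring
    rw [h8, h6]
    refine Ideal.mul_mem_left _ _ (sum_mem fun l _ => Ideal.mul_mem_left _ _ ?_)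
    exact Ideal.subset_span ⟨l, rfl⟩
  have h6 : ∏ i, (X i : MvPolynomial (Fin n) F) ^ (K - 1) ∈ IK F n K := by
    have : ∏ i, (X i : MvPolynomial (Fin n) F) ^ (K - 1) =
        (C' * B).det - ((C' * B).det - ∏ i, (X i : MvPolynomial (Fin n) F) ^ (K - 1)) := by ring
    rw [this]
    exact sub_mem h5 h4
  exact prod_notMem K hK1 h6

end Run7.h100.AF
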