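import Mathlib

/-!
Linear algebra of minors.
-/

namespace Run7.h100.AF

section ring

variable {B : Type*} [CommRing B] {κ I : Type*} [Fintype κ] [DecidableEq κ]

/-- determinant of the matrix with column `κ0` equal to `g` and other columns `c (S κ)` -/
noncomputable def DDc (c : I → κ → B) (κ0 : κ) (S : κ → I) (g : κ → B) : B :=
  (Matrix.of fun row col => if col = κ0 then g row else c (S col) row).det

theorem DDc_eq_updateCol (c : I → κ → B) (κ0 : κ) (S : κ → I) (g h : κ → B) :
    DDc c κ0 S h = ((Matrix.of fun row col => if col = κ0 then g row else c (S col) row).updateCol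
      κ0 h).det := by
  unfold DDc
  congr 1
  ext i j
  rw [Matrix.updateCol_apply]
  by_cases h : j = κ0 <;> simp [h]

theorem DDc_cramer (c : I → κ → B) (κ0 : κ) (S : κ → I) (g h : κ → B) (l : (κ → B) →ₗ[B] B)
    (hl : ∀ k, k ≠ κ0 → l (c (S k)) = 0) : DDc c κ0 S g * l h = DDc c κ0 S h * l g := by
  set A : Matrix κ κ B := Matrix.of fun row col => if col = κ0 then g row else c (S col) row with hA
  have h1 : A.mulVec (A.cramer h) = A.det • h := Matrix.mulVec_cramer A h
  have h2 : l (A.mulVec (A.cramer h)) = A.cramer h κ0 * l g := by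
    have h3 : A.mulVec (A.cramer h) = ∑ k, A.cramer h k • (fun r => A r k) := by
      ext r
      simp only [Matrix.mulVec, dotProduct, Finset.sum_apply, Pi.smul_apply, smul_eq_mul]
      exact Finset.sum_congr rfl fun k _ => mul_comm _ _
    rw [h3, map_sum]
    simp only [map_smul, smul_eq_mul]
    rw [Finset.sum_eq_single κ0]
    · have : (fun r => A r κ0) = g := by
        ext r; simp [hA]
      rw [this]
    · intro k _ hk
      have : (fun r => A r k) = c (S k) := by
        ext r; simp [hA, hk]
      rw [this, hl k hk, mul_zero]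
    · intro h; exact absurd (Finset.mem_univ _) h
  rw [h1, map_smul, smul_eq_mul, Matrix.cramer_apply] at h2
  rw [DDc_eq_updateCol c κ0 S g h]
  exact h2

theorem map_DDc {B' : Type*} [CommRing B'] (φ : B →+* B') (c : I → κ → B) (κ0 : κ) (S : κ → I)
    (g : κ → B) : φ (DDc c κ0 S g) = DDc (fun i k => φ (c i k)) κ0 S (fun k => φ (g k)) := by
  unfold DDc
  rw [RingHom.map_det]
  congr 1
  ext i j
  simp only [RingHom.mapMatrix_apply, Matrix.map_apply, Matrix.of_apply]
  split_ifs <;> rfl

theorem DDc_add (c : I → κ → B) (κ0 : κ) (S : κ → I) (g h : κ → B) :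
    DDc c κ0 S (g + h) = DDc c κ0 S g + DDc c κ0 S h := by
  rw [DDc_eq_updateCol c κ0 S 0 (g + h), DDc_eq_updateCol c κ0 S 0 g, DDc_eq_updateCol c κ0 S 0 h,
    Matrix.det_updateCol_add]

theorem DDc_smul (c : I → κ → B) (κ0 : κ) (S : κ → I) (t : B) (g : κ → B) :
    DDc c κ0 S (t • g) = t * DDc c κ0 S g := by
  rw [DDc_eq_updateCol c κ0 S 0 (t • g), DDc_eq_updateCol c κ0 S 0 g, Matrix.det_updateCol_smul]

end ring

section field

variable {K : Type*} [Field K] {κ I : Type*} [Fintype κ] [DecidableEq κ]

/-- all columns in a proper subspace -/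
theorem DDc_eq_zero (c : I → κ → K) (κ0 : κ) (S : κ → I) (g : κ → K) (l : (κ → K) →ₗ[K] K)
    (hl0 : l ≠ 0) (hl : ∀ i, l (c i) = 0) (hg : l g = 0) : DDc c κ0 S g = 0 := by
  unfold DDc
  rw [← Matrix.exists_vecMul_eq_zero_iff]
  refine ⟨fun k => l (Pi.single k 1), ?_, ?_⟩
  · intro h
    apply hl0
    apply LinearMap.pi_ext'
    intro i
    ext
    simpa using congrFun h i
  · have key : ∀ v : κ → K, ∑ r, l (Pi.single r 1) * v r = l v := by
      intro v
      conv_rhs => rw [show v = ∑ r, v r • (Pi.single r 1 : κ → K) by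
        ext k; simp [Finset.sum_apply, Pi.single_apply]]
      rw [map_sum]
      simp only [map_smul, smul_eq_mul]
      exact Finset.sum_congr rfl fun k _ => mul_comm _ _
    ext k
    simp only [Matrix.vecMul, dotProduct, Matrix.of_apply, Pi.zero_apply]
    by_cases hk : k = κ0
    · simp only [hk, if_true]
      rw [key, hg]
    · simp only [hk, if_false]
      rw [key, hl]

/-- selection of columns -/
theorem exists_DDc_ne_zero (c : I → κ → K) (κ0 : κ) (g : κ → K) [Nonempty I]
    (hW : Module.finrank K (Submodule.span K (Set.range c)) + 1 = Fintype.card κ)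
    (hg : g ∉ Submodule.span K (Set.range c)) : ∃ S : κ → I, DDc c κ0 S g ≠ 0 := by
  classical
  obtain ⟨J, a, ha, hspan, hli⟩ := exists_linearIndependent' K c
  have : Finite J := hli.finite
  have : Fintype J := Fintype.ofFinite J
  have hcardJ : Fintype.card J = Fintype.card {k : κ // k ≠ κ0} := by
    have h1 : Module.finrank K (Submodule.span K (Set.range (c ∘ a))) = Fintype.card J :=
      finrank_span_eq_card hli
    rw [hspan] at h1
    rw [← h1, Fintype.card_subtype_compl, Fintype.card_subtype_eq]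
    omega
  obtain ⟨e⟩ := Fintype.card_eq.mp hcardJ
  refine ⟨fun k => if h : k ≠ κ0 then a (e.symm ⟨k, h⟩) else Classical.arbitrary I, ?_⟩
  unfold DDc
  rw [Ne, ← Matrix.exists_mulVec_eq_zero_iff]
  rintro ⟨v, hv0, hv⟩
  -- the linear relation
  have h1 : v κ0 • g + ∑ j, v (e j).1 • c (a j) = 0 := by
    ext r
    have h2 := congrFun hv r
    simp only [Matrix.mulVec, dotProduct, Matrix.of_apply, Pi.zero_apply] at h2
    rw [← Finset.add_sum_erase _ _ (Finset.mem_univ κ0)] at h2
    simp only [if_true] at h2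
    simp only [Pi.add_apply, Pi.smul_apply, smul_eq_mul, Finset.sum_apply, Pi.zero_apply]
    rw [← h2, mul_comm (v κ0)]
    congr 1
    have h3 : ∑ x ∈ Finset.univ.erase κ0, (if x = κ0 then g r
        else c (if h : x ≠ κ0 then a (e.symm ⟨x, h⟩) else Classical.arbitrary I) r) * v x =
        ∑ x : {k : κ // k ≠ κ0}, c (a (e.symm x)) r * v x.1 := by
      rw [Finset.sum_subtype (Finset.univ.erase κ0) (p := fun k => k ≠ κ0) (by simp)
        (f := fun x => (if x = κ0 then g r
        else c (if h : x ≠ κ0 then a (e.symm ⟨x, h⟩) else Classical.arbitrary I) r) * v x)]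
      refine Finset.sum_congr rfl fun x _ => ?_
      rw [if_neg x.2, dif_pos x.2]
    rw [h3, ← e.sum_comp]
    refine Finset.sum_congr rfl fun j _ => ?_
    rw [Equiv.symm_apply_apply, mul_comm]
  have hvk : v κ0 = 0 := by
    by_contra hne
    apply hg
    have h2 : g = -(v κ0)⁻¹ • ∑ j, v (e j).1 • c (a j) := by
      have h3 : v κ0 • g = - ∑ j, v (e j).1 • c (a j) := eq_neg_of_add_eq_zero_left h1
      have h4 : g = (v κ0)⁻¹ • (v κ0 • g) := by rw [smul_smul, inv_mul_cancel₀ hne, one_smul]
      rw [h4, h3, smul_neg, neg_smul]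
    rw [h2]
    refine Submodule.smul_mem _ _ (Submodule.sum_mem _ fun j _ => Submodule.smul_mem _ _ ?_)
    exact Submodule.subset_span ⟨a j, rfl⟩
  rw [hvk, zero_smul, zero_add] at h1
  have h2 := Fintype.linearIndependent_iff.mp hli (fun j => v (e j).1) h1
  apply hv0
  ext k
  by_cases hk : k = κ0
  · rw [hk, hvk]; rfl
  · have := h2 (e.symm ⟨k, hk⟩)
    simpa using this

end field

end Run7.h100.AF
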