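import Mathlib
import Pool.Agent.Run7.h100.AF.Minors
import Pool.Agent.Run7.h100.AF.Jac

/-!
Forms and their coefficient vectors.
-/

open MvPolynomial

namespace Run7.h100.AF

open H503R3.QCI

/-- exponents of monomials of degree `D` in `n` variables -/
abbrev Mon (n D : ℕ) : Type := {μ : Fin n →₀ ℕ // μ.degree = D}

noncomputable instance (n D : ℕ) : Fintype (Mon n D) :=
  (Finsupp.finite_of_degree_eq (σ := Fin n) D).fintype

/-- the form of degree `D` with coefficient vector `b` -/
noncomputable def form {B : Type*} [CommSemiring B] {n D : ℕ} (b : Mon n D → B) :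
    MvPolynomial (Fin n) B := ∑ μ : Mon n D, monomial μ.1 (b μ)

/-- the coefficient vector in degree `D` -/
noncomputable def vec {B : Type*} [CommSemiring B] {n : ℕ} (D : ℕ) (p : MvPolynomial (Fin n) B) :
    Mon n D → B := fun μ => coeff μ.1 p

/-- the Hessian determinant -/
noncomputable def hess {B : Type*} [CommRing B] {n : ℕ} (p : MvPolynomial (Fin n) B) :
    MvPolynomial (Fin n) B := (Matrix.of fun i j => pderiv i (pderiv j p)).det

section semi

variable {B : Type*} [CommRing B] {n D : ℕ}

theorem coeff_form (b : Mon n D → B) (μ : Mon n D) : coeff μ.1 (form b) = b μ := by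
  classical
  unfold form
  rw [coeff_sum, Finset.sum_eq_single μ]
  · simp
  · intro ν _ hν
    rw [coeff_monomial, if_neg]
    exact fun h => hν (Subtype.ext h)
  · intro h; exact absurd (Finset.mem_univ _) h

theorem coeff_form' (b : Mon n D → B) {μ : Fin n →₀ ℕ} (hμ : μ.degree ≠ D) :
    coeff μ (form b) = 0 := by
  classical
  unfold form
  rw [coeff_sum]
  refine Finset.sum_eq_zero fun ν _ => ?_
  rw [coeff_monomial, if_neg]
  intro h
  exact hμ (h ▸ ν.2)

theorem vec_form (b : Mon n D → B) : vec D (form b) = b := by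
  ext μ; exact coeff_form b μ

theorem form_isHomogeneous (b : Mon n D → B) : (form b).IsHomogeneous D := by
  unfold form
  refine IsHomogeneous.sum _ _ _ fun μ _ => ?_
  exact isHomogeneous_monomial _ μ.2

theorem form_vec {p : MvPolynomial (Fin n) B} (hp : p.IsHomogeneous D) : form (vec D p) = p := by
  ext μ
  by_cases hμ : μ.degree = D
  · exact coeff_form (vec D p) ⟨μ, hμ⟩
  · rw [coeff_form' _ hμ, hp.coeff_eq_zero hμ]

theorem form_add (a b : Mon n D → B) : form (a + b) = form a + form b := by
  simp [form, Finset.sum_add_distrib]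

theorem form_smul (t : B) (b : Mon n D → B) : form (t • b) = C t * form b := by
  simp only [form, Pi.smul_apply, smul_eq_mul, Finset.mul_sum, C_mul_monomial]

theorem vec_add (p q : MvPolynomial (Fin n) B) : vec D (p + q) = vec D p + vec D q := by
  ext μ; simp [vec]

theorem vec_C_mul (t : B) (p : MvPolynomial (Fin n) B) : vec D (C t * p) = t • vec D p := by
  ext μ; simp [vec]

theorem vec_sum {ι : Type*} (s : Finset ι) (f : ι → MvPolynomial (Fin n) B) :
    vec D (∑ i ∈ s, f i) = ∑ i ∈ s, vec D (f i) := by
  ext μ; simp [vec, coeff_sum]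

variable {B' : Type*} [CommRing B'] (φ : B →+* B')

theorem map_form (b : Mon n D → B) : map φ (form b) = form (fun μ => φ (b μ)) := by
  simp [form, map_sum, map_monomial]

theorem vec_map (p : MvPolynomial (Fin n) B) : vec D (map φ p) = fun μ => φ (vec D p μ) := by
  ext μ; simp [vec, coeff_map]

theorem map_hess (p : MvPolynomial (Fin n) B) : map φ (hess p) = hess (map φ p) := by
  unfold hess
  rw [RingHom.map_det]
  congr 1
  ext i j
  simp [pderiv_map]

theorem hess_isHomogeneous {p : MvPolynomial (Fin n) B} {d : ℕ} (hp : p.IsHomogeneous d) :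
    (hess p).IsHomogeneous (n * (d - 2)) := by
  unfold hess
  rw [Matrix.det_apply]
  refine IsHomogeneous.sum _ _ _ fun σ _ => ?_
  have h1 : (∏ i, (Matrix.of fun i j => pderiv i (pderiv j p)) (σ i) i).IsHomogeneous
      (n * (d - 2)) := by
    have h2 := IsHomogeneous.prod Finset.univ
      (fun i => (Matrix.of fun i j => pderiv i (pderiv j p)) (σ i) i) (fun _ => d - 2) (by
        intro i _
        have h3 := (hp.pderiv (i := i)).pderiv (i := σ i)
        have h4 : d - 1 - 1 = d - 2 := by omega
        rw [h4] at h3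
        exact h3)
    simpa using h2
  rcases Int.units_eq_one_or (Equiv.Perm.sign σ) with h | h
  · rw [h, one_smul]; exact h1
  · rw [h, Units.neg_smul, one_smul]; exact h1.neg

/-- the columns: coefficient vectors of `z^ν ∂_i f` in degree `n (d - 2)` -/
noncomputable def col {d : ℕ} (b : Mon n d → B) (iν : Fin n × Mon n (n * (d - 2) - (d - 1))) :
    Mon n (n * (d - 2)) → B :=
  vec (n * (d - 2)) (monomial iν.2.1 1 * pderiv iν.1 (form b))

theorem col_map {d : ℕ} (b : Mon n d → B) (iν : Fin n × Mon n (n * (d - 2) - (d - 1))) :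
    col (fun μ => φ (b μ)) iν = fun μ => φ (col b iν μ) := by
  unfold col
  rw [← vec_map, ← map_form, map_mul, map_monomial, map_one φ, pderiv_map]

theorem hess_vec_map {d : ℕ} (b : Mon n d → B) :
    vec (n * (d - 2)) (hess (form fun μ => φ (b μ))) =
      fun μ => φ (vec (n * (d - 2)) (hess (form b)) μ) := by
  rw [← vec_map, ← map_form, map_hess]

theorem euler_le {n d : ℕ} (hn : 2 ≤ n) (hd : 3 ≤ d) : d - 1 ≤ n * (d - 2) := by
  have : 2 * (d - 2) ≤ n * (d - 2) := Nat.mul_le_mul_right _ hn
  omega

theorem pderiv_comm' (p : MvPolynomial (Fin n) B) (i j : Fin n) :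
    pderiv i (pderiv j p) = pderiv j (pderiv i p) := by
  by_cases h : i = j
  · rw [h]
  · ext m
    simp only [coeff_pderiv]
    have e1 : m + Finsupp.single i 1 + Finsupp.single j 1 =
        m + Finsupp.single j 1 + Finsupp.single i 1 := by
      rw [add_assoc, add_comm (Finsupp.single i 1), ← add_assoc]
    rw [e1]
    simp only [Finsupp.add_apply, Finsupp.single_apply, h, Ne.symm h, if_false, add_zero]
    ring

/-- second order Euler identity -/
theorem euler2 {p : MvPolynomial (Fin n) B} {d : ℕ} (hp : p.IsHomogeneous d) (i : Fin n) :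
    ∑ j, pderiv i (pderiv j p) * X j = ((d - 1 : ℕ) : MvPolynomial (Fin n) B) * pderiv i p := by
  have h1 := (hp.pderiv (i := i)).sum_X_mul_pderiv
  rw [nsmul_eq_mul] at h1
  rw [← h1]
  refine Finset.sum_congr rfl fun j _ => ?_
  rw [mul_comm, pderiv_comm']

end semi

end Run7.h100.AF
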