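import Mathlib
import Pool.Agent.Run7.h100.AF.Form

/-!
Facts at one form over the complex numbers.
-/

open MvPolynomial

namespace Run7.h100.AF

open H503R3.QCI

variable {n d : ℕ}

/-- `form` as a linear map -/
noncomputable def formL (n D : ℕ) : (Mon n D → ℂ) →ₗ[ℂ] MvPolynomial (Fin n) ℂ where
  toFun := form
  map_add' := form_add
  map_smul' t b := by rw [form_smul, RingHom.id_apply, MvPolynomial.smul_eq_C_mul]

theorem formL_injective (n D : ℕ) : Function.Injective (formL n D) := by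
  intro a b h
  have h' : form a = form b := h
  rw [← vec_form a, h', vec_form]

/-- `f` has no singular point -/
def Nondeg (f : MvPolynomial (Fin n) ℂ) : Prop :=
  ∀ z : Fin n → ℂ, (∀ i, eval z (pderiv i f) = 0) → z = 0

/-- the ideal of partial derivatives -/
noncomputable def jac (f : MvPolynomial (Fin n) ℂ) : Ideal (MvPolynomial (Fin n) ℂ) :=
  Ideal.span (Set.range fun i => pderiv i f)

/-- the span of the columns -/
noncomputable def WW (a : Mon n d → ℂ) : Submodule ℂ (Mon n (n * (d - 2)) → ℂ) :=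
  Submodule.span ℂ (Set.range (col a))

theorem pderiv_hom (a : Mon n d → ℂ) (i : Fin n) : (pderiv i (form a)).IsHomogeneous (d - 1) :=
  (form_isHomogeneous a).pderiv

theorem col_hom (hn : 2 ≤ n) (hd : 3 ≤ d) (a : Mon n d → ℂ)
    (iν : Fin n × Mon n (n * (d - 2) - (d - 1))) :
    (monomial iν.2.1 1 * pderiv iν.1 (form a)).IsHomogeneous (n * (d - 2)) := by
  have h1 : (monomial iν.2.1 (1 : ℂ)).IsHomogeneous (n * (d - 2) - (d - 1)) :=
    isHomogeneous_monomial _ iν.2.2
  have h2 := h1.mul (pderiv_hom a iν.1)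
  rwa [Nat.sub_add_cancel (euler_le hn hd)] at h2

theorem form_col (hn : 2 ≤ n) (hd : 3 ≤ d) (a : Mon n d → ℂ)
    (iν : Fin n × Mon n (n * (d - 2) - (d - 1))) :
    form (col a iν) = monomial iν.2.1 1 * pderiv iν.1 (form a) :=
  form_vec (col_hom hn hd a iν)

theorem form_mem (hn : 2 ≤ n) (hd : 3 ≤ d) (a : Mon n d → ℂ) {v : Mon n (n * (d - 2)) → ℂ}
    (hv : v ∈ WW a) : form v ∈ jac (form a) := by
  unfold WW at hv
  induction hv using Submodule.span_induction with
  | mem x hx =>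
    obtain ⟨iν, rfl⟩ := hx
    rw [form_col hn hd]
    exact Ideal.mul_mem_left _ _ (Ideal.subset_span ⟨iν.1, rfl⟩)
  | zero =>
    have : form (0 : Mon n (n * (d - 2)) → ℂ) = 0 := (formL n _).map_zero
    rw [this]; exact zero_mem _
  | add x y _ _ hx hy => rw [form_add]; exact add_mem hx hy
  | smul t x _ hx => rw [form_smul]; exact Ideal.mul_mem_left _ _ hx

theorem vec_mem (hn : 2 ≤ n) (hd : 3 ≤ d) (a : Mon n d → ℂ) {p : MvPolynomial (Fin n) ℂ}
    (hp : p.IsHomogeneous (n * (d - 2))) (hpI : p ∈ jac (form a)) :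
    vec (n * (d - 2)) p ∈ WW a := by
  obtain ⟨c, hc⟩ := Ideal.mem_span_range_iff_exists_fun.mp hpI
  have hle := euler_le hn hd
  have h1 : p = ∑ i, pderiv i (form a) * homogeneousComponent (n * (d - 2) - (d - 1)) (c i) := by
    have h2 := homogeneousComponent_eq_self hp
    rw [← h2, ← hc, map_sum]
    refine Finset.sum_congr rfl fun i _ => ?_
    have h3 := comp_mul (v := c i) (k := n * (d - 2) - (d - 1)) (pderiv_hom a i)
    rw [mul_comm (c i)]
    rw [← h3]
    congr 1
    congr 1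
    omega
  rw [h1, vec_sum]
  refine sum_mem fun i _ => ?_
  have h4 : homogeneousComponent (n * (d - 2) - (d - 1)) (c i) =
      form (vec (n * (d - 2) - (d - 1)) (homogeneousComponent (n * (d - 2) - (d - 1)) (c i))) :=
    (form_vec (homogeneousComponent_isHomogeneous _ _)).symm
  rw [h4]
  set e := vec (n * (d - 2) - (d - 1)) (homogeneousComponent (n * (d - 2) - (d - 1)) (c i))
  unfold form
  rw [Finset.mul_sum, vec_sum]
  refine sum_mem fun ν _ => ?_
  have h5 : pderiv i (∑ μ : Mon n d, monomial μ.1 (a μ)) * monomial ν.1 (e ν) =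
      C (e ν) * (monomial ν.1 1 * pderiv i (form a)) := by
    have : (monomial ν.1 (e ν) : MvPolynomial (Fin n) ℂ) = C (e ν) * monomial ν.1 1 := by
      rw [C_mul_monomial, mul_one]
    rw [this]
    unfold form
    ring
  rw [h5, vec_C_mul]
  exact Submodule.smul_mem _ _ (Submodule.subset_span ⟨(i, ν), rfl⟩)

theorem onlyZero_of_nondeg {f : MvPolynomial (Fin n) ℂ} (h : Nondeg f) :
    OnlyZero (fun i => pderiv i f) := h

theorem card_Mon (n D : ℕ) :
    Module.finrank ℂ (homogeneousSubmodule (Fin n) ℂ D) = Fintype.card (Mon n D) := by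
  have h1 : (⊤ : Submodule ℂ (Mon n D → ℂ)).map (formL n D) = homogeneousSubmodule (Fin n) ℂ D := by
    ext p
    constructor
    · rintro ⟨v, _, rfl⟩
      exact form_isHomogeneous v
    · intro hp
      exact ⟨vec D p, trivial, form_vec hp⟩
  rw [← h1, finrank_map_of_inj _ (formL_injective n D), _root_.finrank_top, Module.finrank_fintype_fun_eq_card]

theorem finrank_WW (hn : 2 ≤ n) (hd : 3 ≤ d) (a : Mon n d → ℂ) (h : Nondeg (form a)) :
    Module.finrank ℂ (WW a) + 1 = Fintype.card (Mon n (n * (d - 2))) := by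
  have h1 : (WW a).map (formL n (n * (d - 2))) = gr (jac (form a)) (n * (d - 2)) := by
    ext p
    constructor
    · rintro ⟨v, hv, rfl⟩
      exact mem_gr.mpr ⟨form_mem hn hd a hv, form_isHomogeneous v⟩
    · intro hp
      obtain ⟨h2, h3⟩ := mem_gr.mp hp
      exact ⟨vec _ p, vec_mem hn hd a h3 h2, form_vec h3⟩
  have h2 : Module.finrank ℂ (WW a) = Module.finrank ℂ (gr (jac (form a)) (n * (d - 2))) := by
    rw [← h1, finrank_map_of_inj _ (formL_injective n _)]
  have h3 := AF.finrank_top (F := ℂ) (n := n) (m := d - 1) (by omega)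
    (fun i => pderiv i (form a)) (fun i => pderiv_hom a i) (onlyZero_of_nondeg h)
  have h4 : d - 1 - 1 = d - 2 := by omega
  rw [h4, card_Mon] at h3
  rw [h2, h3]
  rfl

theorem hess_notMem (hd : 3 ≤ d) (a : Mon n d → ℂ) (h : Nondeg (form a)) :
    hess (form a) ∉ jac (form a) := by
  have hd1 : ((d - 1 : ℕ) : ℂ) ≠ 0 := by
    rw [Nat.cast_ne_zero]; omega
  let Bm : Matrix (Fin n) (Fin n) (MvPolynomial (Fin n) ℂ) :=
    Matrix.of fun i j => C (((d - 1 : ℕ) : ℂ)⁻¹) * pderiv i (pderiv j (form a))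
  have hB : Bm.mulVec X = fun i => pderiv i (form a) := by
    ext1 i
    have h1 := euler2 (form_isHomogeneous a) i
    simp only [Bm, Matrix.mulVec, dotProduct, Matrix.of_apply]
    have h2 : (C (((d - 1 : ℕ) : ℂ)⁻¹) * ((d - 1 : ℕ) : MvPolynomial (Fin n) ℂ)) = 1 := by
      have : ((d - 1 : ℕ) : MvPolynomial (Fin n) ℂ) = C ((d - 1 : ℕ) : ℂ) := by
        rw [map_natCast]
      rw [this, ← C_mul, inv_mul_cancel₀ hd1, C_1]
    simp only [mul_assoc]
    rw [← Finset.mul_sum, h1, ← mul_assoc, h2, one_mul]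
  have h1 := det_notMem (fun i => pderiv i (form a)) (onlyZero_of_nondeg h) Bm hB
  intro h2
  apply h1
  have h3 : Bm = (C (((d - 1 : ℕ) : ℂ)⁻¹) : MvPolynomial (Fin n) ℂ) •
      (Matrix.of fun i j => pderiv i (pderiv j (form a)) : Matrix (Fin n) (Fin n) _) := by
    ext1 i j
    simp [Bm]
  rw [h3, Matrix.det_smul]
  exact Ideal.mul_mem_left _ _ h2

theorem hessv_notMem (hn : 2 ≤ n) (hd : 3 ≤ d) (a : Mon n d → ℂ) (h : Nondeg (form a)) :
    vec (n * (d - 2)) (hess (form a)) ∉ WW a := by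
  intro h1
  have h2 := form_mem hn hd a h1
  rw [form_vec (hess_isHomogeneous (form_isHomogeneous a))] at h2
  exact hess_notMem hd a h h2

/-- every vector is a multiple of the Hessian modulo the columns -/
theorem exists_coeff (hn : 2 ≤ n) (hd : 3 ≤ d) (a : Mon n d → ℂ) (h : Nondeg (form a))
    (g : Mon n (n * (d - 2)) → ℂ) :
    ∃ c : ℂ, g - c • vec (n * (d - 2)) (hess (form a)) ∈ WW a := by
  have h1 := finrank_WW hn hd a h
  have h2 := hessv_notMem hn hd a h
  set v := vec (n * (d - 2)) (hess (form a))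
  have h3 : WW a ⊔ Submodule.span ℂ {v} = ⊤ := by
    apply Submodule.eq_top_of_finrank_eq
    rw [Module.finrank_fintype_fun_eq_card, ← h1]
    have h4 := Submodule.finrank_sup_add_finrank_inf_eq (WW a) (Submodule.span ℂ {v})
    have h5 : WW a ⊓ Submodule.span ℂ {v} = ⊥ := by
      rw [eq_bot_iff]
      rintro x ⟨hx1, hx2⟩
      obtain ⟨t, rfl⟩ := Submodule.mem_span_singleton.mp hx2
      rw [Submodule.mem_bot]
      by_contra hne
      have ht : t ≠ 0 := fun h => hne (by rw [h, zero_smul])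
      apply h2
      have := Submodule.smul_mem (WW a) t⁻¹ hx1
      rwa [smul_smul, inv_mul_cancel₀ ht, one_smul] at this
    have hv0 : v ≠ 0 := fun h => h2 (by rw [h]; exact zero_mem _)
    rw [h5, finrank_bot, add_zero, finrank_span_singleton hv0] at h4
    exact h4
  have h4 : g ∈ WW a ⊔ Submodule.span ℂ {v} := by rw [h3]; trivial
  obtain ⟨w, hw, u, hu, rfl⟩ := Submodule.mem_sup.mp h4
  obtain ⟨t, rfl⟩ := Submodule.mem_span_singleton.mp hu
  exact ⟨t, by simpa using hw⟩

theorem exists_functional_WW (hn : 2 ≤ n) (hd : 3 ≤ d) (a : Mon n d → ℂ) (h : Nondeg (form a)) :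
    ∃ l : (Mon n (n * (d - 2)) → ℂ) →ₗ[ℂ] ℂ, l ≠ 0 ∧ ∀ w ∈ WW a, l w = 0 := by
  have h1 : WW a < ⊤ := by
    rw [lt_top_iff_ne_top]
    intro h2
    exact hessv_notMem hn hd a h (by rw [h2]; trivial)
  obtain ⟨l, hl, hle⟩ := (WW a).exists_le_ker_of_lt_top h1
  exact ⟨l, hl, fun w hw => hle hw⟩

/-- at a nondegenerate form the minors compute the coefficient -/
theorem DD_eq (hn : 2 ≤ n) (hd : 3 ≤ d) (a : Mon n d → ℂ) (h : Nondeg (form a))
    (κ0 : Mon n (n * (d - 2))) (S : Mon n (n * (d - 2)) → Fin n × Mon n (n * (d - 2) - (d - 1)))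
    (g : Mon n (n * (d - 2)) → ℂ) (c : ℂ)
    (hc : g - c • vec (n * (d - 2)) (hess (form a)) ∈ WW a) :
    DDc (col a) κ0 S g = c * DDc (col a) κ0 S (vec (n * (d - 2)) (hess (form a))) := by
  classical
  obtain ⟨l, hl0, hl⟩ := exists_functional_WW hn hd a h
  have h1 : DDc (col a) κ0 S (g - c • vec (n * (d - 2)) (hess (form a))) = 0 :=
    DDc_eq_zero _ _ _ _ l hl0 (fun i => hl _ (Submodule.subset_span ⟨i, rfl⟩)) (hl _ hc)
  have h2 : g = (g - c • vec (n * (d - 2)) (hess (form a))) +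
      c • vec (n * (d - 2)) (hess (form a)) := by simp
  conv_lhs => rw [h2]
  rw [DDc_add, h1, zero_add, DDc_smul]

theorem exists_DD (hn : 2 ≤ n) (hd : 3 ≤ d) (a : Mon n d → ℂ) (h : Nondeg (form a))
    (κ0 : Mon n (n * (d - 2))) [Nonempty (Fin n × Mon n (n * (d - 2) - (d - 1)))] :
    ∃ S : Mon n (n * (d - 2)) → Fin n × Mon n (n * (d - 2) - (d - 1)),
      DDc (col a) κ0 S (vec (n * (d - 2)) (hess (form a))) ≠ 0 := by
  classical
  exact exists_DDc_ne_zero (col a) κ0 _ (finrank_WW hn hd a h) (hessv_notMem hn hd a h)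

/-- at a degenerate form all minors vanish -/
theorem DD_eq_zero (hn : 2 ≤ n) (hd : 3 ≤ d) (a : Mon n d → ℂ) (h : ¬ Nondeg (form a))
    (κ0 : Mon n (n * (d - 2))) (S : Mon n (n * (d - 2)) → Fin n × Mon n (n * (d - 2) - (d - 1))) :
    DDc (col a) κ0 S (vec (n * (d - 2)) (hess (form a))) = 0 := by
  classical
  unfold Nondeg at h
  push Not at h
  obtain ⟨z, hz, hz0⟩ := h
  let l : (Mon n (n * (d - 2)) → ℂ) →ₗ[ℂ] ℂ :=
    (aeval (R := ℂ) z).toLinearMap ∘ₗ formL n (n * (d - 2))
  have hl : ∀ v, l v = eval z (form v) := by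
    intro v
    simp only [l, LinearMap.comp_apply, AlgHom.toLinearMap_apply]
    rw [aeval_eq_eval]
    rfl
  apply DDc_eq_zero _ _ _ _ l
  · intro hl0
    obtain ⟨i, hi⟩ := Function.ne_iff.mp hz0
    have h1 := hl (vec (n * (d - 2)) (X i ^ (n * (d - 2))))
    rw [hl0, form_vec (by simpa using (isHomogeneous_X ℂ i).pow (n * (d - 2)))] at h1
    simp only [LinearMap.zero_apply, map_pow, eval_X] at h1
    exact pow_ne_zero _ hi h1.symm
  · intro iν
    rw [hl, form_col hn hd, map_mul, hz, mul_zero]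
  · rw [hl, form_vec (hess_isHomogeneous (form_isHomogeneous a))]
    unfold hess
    rw [RingHom.map_det, ← Matrix.exists_mulVec_eq_zero_iff]
    refine ⟨z, hz0, ?_⟩
    ext i
    have h1 := congrArg (eval z) (euler2 (form_isHomogeneous a) i)
    rw [map_mul, hz, mul_zero, map_sum] at h1
    simp only [map_mul, eval_X] at h1
    simpa [Matrix.mulVec, dotProduct] using h1

end Run7.h100.AF
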