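import Mathlib
import Pool.Agent.Run7.h100.AF.Point
import Pool.Agent.Run7.h100.AF.Grid

/-!
The one parameter family and its derivatives.
-/

open MvPolynomial

namespace Run7.h100.AF

section defs

variable {B : Type*} [CommRing B] {k m : ℕ}

/-- the family of forms -/
noncomputable def Fam (m : ℕ) (t : B) (w : Fin k → B) : MvPolynomial (Fin (k + 1)) B :=
  C t * X 0 ^ (m + 2) + ∑ i : Fin k, C (w i) *
    (((m + 2 : ℕ) : MvPolynomial (Fin (k + 1)) B) * (X 0 ^ m * X i.succ ^ 2) - 2 * X i.succ ^ (m + 2))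

theorem Fam_hom (t : B) (w : Fin k → B) : (Fam m t w).IsHomogeneous (m + 2) := by
  unfold Fam
  refine IsHomogeneous.add ?_ (IsHomogeneous.sum _ _ _ fun i _ => ?_)
  · have h1 := (isHomogeneous_C (Fin (k + 1)) t).mul ((isHomogeneous_X B (0 : Fin (k + 1))).pow (m + 2))
    simpa using h1
  · have h1 : ∀ c : B, (C c : MvPolynomial (Fin (k + 1)) B).IsHomogeneous 0 := fun c =>
      isHomogeneous_C _ c
    have e1 : ((m + 2 : ℕ) : MvPolynomial (Fin (k + 1)) B) = C ((m + 2 : ℕ) : B) := by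
      rw [map_natCast]
    have e2 : (2 : MvPolynomial (Fin (k + 1)) B) = C (2 : B) := by
      rw [map_ofNat]
    have h2 : (((m + 2 : ℕ) : MvPolynomial (Fin (k + 1)) B) * (X 0 ^ m * X i.succ ^ 2)).IsHomogeneous
        (m + 2) := by
      rw [e1]
      have h3 := (h1 ((m + 2 : ℕ) : B)).mul
        (((isHomogeneous_X B (0 : Fin (k + 1))).pow m).mul ((isHomogeneous_X B i.succ).pow 2))
      simpa using h3
    have h3 : (2 * X i.succ ^ (m + 2) : MvPolynomial (Fin (k + 1)) B).IsHomogeneous (m + 2) := by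
      rw [e2]
      have h4 := (h1 (2 : B)).mul ((isHomogeneous_X B i.succ).pow (m + 2))
      simpa using h4
    have h4 := (h1 (w i)).mul (h2.sub h3)
    rwa [zero_add] at h4

theorem pderiv_zero_Fam (t : B) (w : Fin k → B) :
    pderiv 0 (Fam m t w) = C t * (((m + 2 : ℕ) : MvPolynomial (Fin (k + 1)) B) * X 0 ^ (m + 1)) +
      ((m + 2 : ℕ) : MvPolynomial (Fin (k + 1)) B) * (m : MvPolynomial (Fin (k + 1)) B) *
      ∑ i : Fin k, C (w i) * (X 0 ^ (m - 1) * X i.succ ^ 2) := by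
  have h0 : ∀ i : Fin k, pderiv 0 (X i.succ : MvPolynomial (Fin (k + 1)) B) = 0 := fun i =>
    pderiv_X_of_ne (Fin.succ_ne_zero i)
  unfold Fam
  simp only [map_add, map_sum, Derivation.leibniz, Derivation.leibniz_pow, pderiv_C, map_sub, h0,
    pderiv_X_self, smul_zero, smul_eq_mul, mul_zero, add_zero, nsmul_eq_mul, mul_one,
    Derivation.map_natCast, Finset.mul_sum]
  congr 1
  refine Finset.sum_congr rfl fun i _ => ?_
  have : pderiv (0 : Fin (k + 1)) (2 : MvPolynomial (Fin (k + 1)) B) = 0 := by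
    have e2 : (2 : MvPolynomial (Fin (k + 1)) B) = C (2 : B) := by rw [map_ofNat]
    rw [e2, pderiv_C]
  rw [this]
  ring

theorem pderiv_succ_Fam (t : B) (w : Fin k → B) (j : Fin k) :
    pderiv j.succ (Fam m t w) = C (w j) * (2 * ((m + 2 : ℕ) : MvPolynomial (Fin (k + 1)) B)) *
      (X 0 ^ m * X j.succ - X j.succ ^ (m + 1)) := by
  have h0 : pderiv j.succ (X 0 : MvPolynomial (Fin (k + 1)) B) = 0 :=
    pderiv_X_of_ne (Fin.succ_ne_zero j).symm
  have h2 : pderiv j.succ (2 : MvPolynomial (Fin (k + 1)) B) = 0 := by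
    have e2 : (2 : MvPolynomial (Fin (k + 1)) B) = C (2 : B) := by rw [map_ofNat]
    rw [e2, pderiv_C]
  unfold Fam
  rw [map_add, map_sum, Finset.sum_eq_single j]
  · simp only [Derivation.leibniz, Derivation.leibniz_pow, pderiv_C, map_sub, h0, h2,
      pderiv_X_self, smul_zero, smul_eq_mul, mul_zero, add_zero, nsmul_eq_mul, mul_one,
      Derivation.map_natCast, zero_add]
    push_cast
    ring
  · intro i _ hi
    have h1 : pderiv j.succ (X i.succ : MvPolynomial (Fin (k + 1)) B) = 0 :=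
      pderiv_X_of_ne (fun h => hi (Fin.succ_injective _ h))
    simp only [Derivation.leibniz, Derivation.leibniz_pow, pderiv_C, map_sub, h0, h2, h1,
      smul_zero, Derivation.map_natCast, add_zero, sub_zero]
  · intro h; exact absurd (Finset.mem_univ _) h

theorem pderiv2_Fam_ne (t : B) (w : Fin k → B) {i j : Fin k} (hij : i ≠ j) :
    pderiv i.succ (pderiv j.succ (Fam m t w)) = 0 := by
  have h0 : pderiv i.succ (X 0 : MvPolynomial (Fin (k + 1)) B) = 0 :=
    pderiv_X_of_ne (Fin.succ_ne_zero i).symm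
  have h1 : pderiv i.succ (X j.succ : MvPolynomial (Fin (k + 1)) B) = 0 :=
    pderiv_X_of_ne (fun h => hij (Fin.succ_injective _ h).symm)
  have h2 : pderiv i.succ (2 : MvPolynomial (Fin (k + 1)) B) = 0 := by
    have e2 : (2 : MvPolynomial (Fin (k + 1)) B) = C (2 : B) := by rw [map_ofNat]
    rw [e2, pderiv_C]
  rw [pderiv_succ_Fam]
  simp only [Derivation.leibniz, Derivation.leibniz_pow, pderiv_C, map_sub, h0, h1, h2,
      smul_zero, Derivation.map_natCast, add_zero, sub_zero]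

theorem pderiv2_Fam_self (t : B) (w : Fin k → B) (j : Fin k) :
    pderiv j.succ (pderiv j.succ (Fam m t w)) =
      C (w j) * (2 * ((m + 2 : ℕ) : MvPolynomial (Fin (k + 1)) B)) *
      (X 0 ^ m - ((m + 1 : ℕ) : MvPolynomial (Fin (k + 1)) B) * X j.succ ^ m) := by
  have h0 : pderiv j.succ (X 0 : MvPolynomial (Fin (k + 1)) B) = 0 :=
    pderiv_X_of_ne (Fin.succ_ne_zero j).symm
  have h2 : pderiv j.succ (2 : MvPolynomial (Fin (k + 1)) B) = 0 := by
    have e2 : (2 : MvPolynomial (Fin (k + 1)) B) = C (2 : B) := by rw [map_ofNat]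
    rw [e2, pderiv_C]
  rw [pderiv_succ_Fam]
  simp only [Derivation.leibniz, Derivation.leibniz_pow, pderiv_C, map_sub, h0, h2,
      pderiv_X_self, smul_zero, smul_eq_mul, mul_zero, add_zero, nsmul_eq_mul, mul_one,
      Derivation.map_natCast, Nat.add_sub_cancel]

/-- the point `(1, Q)` -/
noncomputable def pt (φ : ℂ →+* B) (Q : Fin k → ℂ) : Fin (k + 1) → B := Fin.cons 1 fun i => φ (Q i)

theorem eval_pderiv_succ (hm : 0 < m) (φ : ℂ →+* B) {Q : Fin k → ℂ} (hQ : Q ∈ Gr k m) (t : B)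
    (w : Fin k → B) (j : Fin k) : eval (pt φ Q) (pderiv j.succ (Fam m t w)) = 0 := by
  rw [pderiv_succ_Fam]
  simp only [map_mul, map_sub, map_pow, eval_X, pt, Fin.cons_zero, Fin.cons_succ, one_pow, one_mul]
  rw [← map_pow, pow_Sg hm (Fintype.mem_piFinset.mp hQ j), sub_self, mul_zero]

/-- the value of the derivative in direction zero -/
noncomputable def f1 (m : ℕ) (φ : ℂ →+* B) (t : B) (w : Fin k → B) (Q : Fin k → ℂ) : B :=
  eval (pt φ Q) (pderiv 0 (Fam m t w))

theorem f1_eq (φ : ℂ →+* B) (t : B) (w : Fin k → B) (Q : Fin k → ℂ) :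
    f1 m φ t w Q = t * ((m + 2 : ℕ) : B) + ((m + 2 : ℕ) : B) * (m : B) *
      ∑ i, w i * φ (Q i) ^ 2 := by
  unfold f1
  rw [pderiv_zero_Fam]
  simp [pt]

theorem eval_hess (hm : 0 < m) (φ : ℂ →+* B) {Q : Fin k → ℂ} (hQ : Q ∈ Gr k m) (t : B)
    (w : Fin k → B) : eval (pt φ Q) (hess (Fam m t w)) =
      ((m + 1 : ℕ) : B) * f1 m φ t w Q *
        ∏ i, (w i * (2 * ((m + 2 : ℕ) : B)) * (1 - ((m + 1 : ℕ) : B) * φ (Q i) ^ m)) := by
  classical
  unfold hess
  rw [RingHom.map_det]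
  set H : Matrix (Fin (k + 1)) (Fin (k + 1)) B :=
    (eval (pt φ Q)).mapMatrix (Matrix.of fun i j => pderiv i (pderiv j (Fam m t w))) with hH
  have hHij : ∀ i j, H i j = eval (pt φ Q) (pderiv i (pderiv j (Fam m t w))) := fun i j => rfl
  have h1 : H.mulVec (pt φ Q) = Pi.single 0 (((m + 1 : ℕ) : B) * f1 m φ t w Q) := by
    ext i
    have h2 := congrArg (eval (pt φ Q)) (euler2 (Fam_hom (m := m) t w) i)
    rw [map_sum, map_mul, map_natCast] at h2
    simp only [map_mul, eval_X] at h2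
    simp only [Matrix.mulVec, dotProduct, hHij]
    rw [h2]
    refine Fin.cases ?_ (fun j => ?_) i
    · rw [Pi.single_eq_same]; rfl
    · rw [eval_pderiv_succ hm φ hQ, mul_zero, Pi.single_eq_of_ne (Fin.succ_ne_zero j)]
  have h2 : H.det • pt φ Q = H.adjugate.mulVec (Pi.single 0 (((m + 1 : ℕ) : B) * f1 m φ t w Q)) := by
    rw [← h1, Matrix.mulVec_mulVec, Matrix.adjugate_mul, Matrix.smul_mulVec, Matrix.one_mulVec]
  have h3 := congrFun h2 0
  simp only [Pi.smul_apply, smul_eq_mul, Matrix.mulVec_single] at h3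
  have h4 : (pt φ Q) 0 = 1 := rfl
  rw [h4, mul_one] at h3
  rw [h3]
  have h5 : H.adjugate 0 0 = ∏ i, (w i * (2 * ((m + 2 : ℕ) : B)) *
      (1 - ((m + 1 : ℕ) : B) * φ (Q i) ^ m)) := by
    rw [Matrix.adjugate_fin_succ_eq_det_submatrix]
    have h6 : H.submatrix (Fin.succAbove 0) (Fin.succAbove 0) = Matrix.diagonal
        (fun i => (w i * (2 * ((m + 2 : ℕ) : B)) * (1 - ((m + 1 : ℕ) : B) * φ (Q i) ^ m))) := by
      ext i j
      rw [Matrix.submatrix_apply, hHij, Fin.succAbove_zero]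
      by_cases hij : i = j
      · rw [hij, pderiv2_Fam_self, Matrix.diagonal_apply_eq]
        simp [pt]
      · rw [pderiv2_Fam_ne t w hij, Matrix.diagonal_apply_ne _ hij, map_zero]
    rw [h6, Matrix.det_diagonal]
    simp
  have h7 : H.adjugate.col 0 0 = H.adjugate 0 0 := rfl
  simp only [Matrix.col_apply, h5]
  simp [mul_comm]

end defs

end Run7.h100.AF
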