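import Mathlib
import Pool.Agent.Run7.h100.AF.Fam

/-!
A line through a special degenerate form.
-/

open MvPolynomial

namespace Run7.h100.AF

variable {k m : ℕ}

/-- the exponent `D e_0` -/
noncomputable def k0 (k D : ℕ) : Mon (k + 1) D := ⟨Finsupp.single 0 D, by simp⟩

theorem degree_cons (a : ℕ) (β : Fin k →₀ ℕ) : (Finsupp.cons a β).degree = a + β.degree := by
  rw [Finsupp.degree_eq_sum, Fin.sum_univ_succ, Finsupp.cons_zero, Finsupp.degree_eq_sum]
  simp

/-- homogenisation in degree `D` -/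
noncomputable def hz (k D : ℕ) : MvPolynomial (Fin k) ℂ →ₗ[ℂ] MvPolynomial (Fin (k + 1)) ℂ :=
  (basisMonomials (Fin k) ℂ).constr ℂ fun β => monomial (Finsupp.cons (D - β.degree) β) 1

theorem hz_monomial (D : ℕ) (β : Fin k →₀ ℕ) :
    hz k D (monomial β 1) = monomial (Finsupp.cons (D - β.degree) β) 1 := by
  have h := (basisMonomials (Fin k) ℂ).constr_basis ℂ
    (fun β => (monomial (Finsupp.cons (D - β.degree) β) 1 : MvPolynomial (Fin (k + 1)) ℂ)) β
  rwa [coe_basisMonomials] at h

theorem hz_mul (D e : ℕ) (β γ : Fin k →₀ ℕ) (h : β.degree + e ≤ D) (hγ : γ.degree ≤ e) :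
    hz k D (monomial β 1 * monomial γ 1) =
      monomial (Finsupp.cons (D - e - β.degree) β) 1 * hz k e (monomial γ 1) := by
  rw [monomial_mul, one_mul, hz_monomial, hz_monomial, monomial_mul, one_mul]
  have he : Finsupp.cons (D - (β + γ).degree) (β + γ) =
      Finsupp.cons (D - e - β.degree) β + Finsupp.cons (e - γ.degree) γ := by
    ext i
    rw [Finsupp.add_apply]
    refine Fin.cases ?_ (fun j => ?_) i
    · rw [Finsupp.cons_zero, Finsupp.cons_zero, Finsupp.cons_zero]
      have : (β + γ).degree = β.degree + γ.degree := map_add _ _ _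
      omega
    · rw [Finsupp.cons_succ, Finsupp.cons_succ, Finsupp.cons_succ, Finsupp.add_apply]
  rw [he]

theorem X_pow_monomial {σ : Type*} (i : σ) (a : ℕ) :
    (X i ^ a : MvPolynomial σ ℂ) = monomial (Finsupp.single i a) 1 := X_pow_eq_monomial

theorem hz_X_pow (e a : ℕ) (i : Fin k) : hz k e (X i ^ a) = X 0 ^ (e - a) * X i.succ ^ a := by
  rw [X_pow_monomial, hz_monomial, X_pow_monomial, X_pow_monomial, monomial_mul, one_mul]
  have he : Finsupp.cons (e - (Finsupp.single i a).degree) (Finsupp.single i a) =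
      Finsupp.single 0 (e - a) + Finsupp.single i.succ a := by
    ext j
    rw [Finsupp.add_apply]
    refine Fin.cases ?_ (fun l => ?_) j
    · rw [Finsupp.cons_zero, Finsupp.degree_single, Finsupp.single_eq_same]
      simp
    · rw [Finsupp.cons_succ]
      by_cases h : l = i
      · rw [h]; simp
      · rw [Finsupp.single_eq_of_ne h, Finsupp.single_eq_of_ne (Fin.succ_ne_zero l),
          Finsupp.single_eq_of_ne (fun h' => h (Fin.succ_injective _ h')), add_zero]
  rw [he]

theorem eval_e0_form {D : ℕ} (v : Mon (k + 1) D → ℂ) :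
    eval (Pi.single 0 1) (form v) = v (k0 k D) := by
  classical
  unfold form
  rw [map_sum, Finset.sum_eq_single (k0 k D)]
  · rw [eval_monomial, k0, Finsupp.prod_fintype _ _ fun i => pow_zero _]
    rw [Finset.prod_eq_one, mul_one]
    intro i _
    by_cases hi : i = 0
    · rw [hi, Pi.single_eq_same, one_pow]
    · simp [Finsupp.single_eq_of_ne hi]
  · intro μ _ hμ
    rw [eval_monomial, Finsupp.prod_fintype _ _ fun i => pow_zero _]
    have h1 : ∃ i, i ≠ 0 ∧ μ.1 i ≠ 0 := by
      by_contra hcon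
      push Not at hcon
      apply hμ
      apply Subtype.ext
      have h2 := μ.2
      rw [Finsupp.degree_eq_sum, Finset.sum_eq_single 0 (fun i _ hi => hcon i hi)
        (fun h => absurd (Finset.mem_univ _) h)] at h2
      ext i
      change μ.1 i = (Finsupp.single 0 D : Fin (k + 1) →₀ ℕ) i
      by_cases hi : i = 0
      · rw [hi, h2, Finsupp.single_eq_same]
      · rw [hcon i hi, Finsupp.single_eq_of_ne hi]
    obtain ⟨i, hi0, hi⟩ := h1
    rw [Finset.prod_eq_zero (Finset.mem_univ i), mul_zero]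
    rw [Pi.single_eq_of_ne hi0, zero_pow hi]
  · intro h; exact absurd (Finset.mem_univ _) h

/-- `vec` of a monomial -/
theorem vec_monomial {B : Type*} [CommRing B] {n D : ℕ} [DecidableEq (Mon n D)] (μ : Mon n D) :
    vec D (monomial μ.1 (1 : B)) = Pi.single μ 1 := by
  classical
  ext ν
  unfold vec
  rw [coeff_monomial, Pi.single_apply]
  by_cases h : ν = μ
  · rw [h]; simp
  · rw [if_neg h, if_neg fun h' => h (Subtype.ext h'.symm)]

/-- `vec` as a linear map -/
noncomputable def vecL (n D : ℕ) : MvPolynomial (Fin n) ℂ →ₗ[ℂ] (Mon n D → ℂ) where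
  toFun := vec D
  map_add' := vec_add
  map_smul' t b := by rw [smul_eq_C_mul, vec_C_mul, RingHom.id_apply]

/-- the coefficient vector of the family -/
noncomputable abbrev bF {B : Type*} [CommRing B] (m : ℕ) (t : B) (w : Fin k → B) :
    Mon (k + 1) (m + 2) → B := vec (m + 2) (Fam m t w)

theorem form_bF {B : Type*} [CommRing B] (t : B) (w : Fin k → B) : form (bF m t w) = Fam m t w :=
  form_vec (Fam_hom t w)

theorem bF_map {B B' : Type*} [CommRing B] [CommRing B'] (φ : B →+* B') (t : B) (w : Fin k → B) :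
    bF m (φ t) (fun i => φ (w i)) = fun μ => φ (bF m t w μ) := by
  unfold bF
  rw [← vec_map]
  congr 1
  unfold Fam
  simp

theorem degenerate_zero (hm : 0 < m) (w : Fin k → ℂ) : ¬ Nondeg (form (bF m (0 : ℂ) w)) := by
  intro h
  rw [form_bF] at h
  have h1 := h (pt (RingHom.id ℂ) 0) (by
    intro i
    refine Fin.cases ?_ (fun j => ?_) i
    · have := f1_eq (m := m) (RingHom.id ℂ) 0 w 0
      unfold f1 at this
      rw [this]
      simp
    · exact eval_pderiv_succ hm _ zero_mem_Gr _ _ _)
  have h2 := congrFun h1 0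
  simp [pt] at h2

/-- the columns at `t = 0` span the hyperplane -/
theorem exists_S0 (hm : 0 < m) (hk : 0 < k) (w : Fin k → ℂ) (hw0 : ∀ i, w i ≠ 0)
    (hw : ∀ Q ∈ Gr k m, Q ≠ 0 → ∑ i, w i * Q i ^ 2 ≠ 0)
    [DecidableEq (Mon (k + 1) ((k + 1) * (m + 2 - 2)))] :
    ∃ S : Mon (k + 1) ((k + 1) * (m + 2 - 2)) →
        Fin (k + 1) × Mon (k + 1) ((k + 1) * (m + 2 - 2) - (m + 2 - 1)),
      DDc (col (bF m (0 : ℂ) w)) (k0 k ((k + 1) * (m + 2 - 2))) S
        (Pi.single (k0 k ((k + 1) * (m + 2 - 2))) 1) ≠ 0 := by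
  classical
  have hn : 2 ≤ k + 1 := by omega
  have hd : 3 ≤ m + 2 := by omega
  have hρ' : ((k + 1) * (m + 2 - 2)) = (k + 1) * m := rfl
  have hle := euler_le hn hd
  have hexp : (k + 1) * m = k * m + m := by ring
  have : Nonempty (Fin (k + 1) × Mon (k + 1) (((k + 1) * (m + 2 - 2)) - (m + 2 - 1))) := ⟨(0, k0 k _)⟩
  -- every column has zero coefficient at the special exponent
  have hcol : ∀ iν, col (bF m (0 : ℂ) w) iν (k0 k ((k + 1) * (m + 2 - 2))) = 0 := by
    intro iν
    rw [← eval_e0_form (col (bF m (0 : ℂ) w) iν), form_col hn hd, map_mul, form_bF]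
    have h1 : (Pi.single 0 1 : Fin (k + 1) → ℂ) = pt (RingHom.id ℂ) 0 := by
      ext i
      refine Fin.cases ?_ (fun j => ?_) i
      · rw [Pi.single_eq_same]; rfl
      · rw [Pi.single_eq_of_ne (Fin.succ_ne_zero j)]; simp [pt]
    rw [h1]
    have h2 : eval (pt (RingHom.id ℂ) 0) (pderiv iν.1 (Fam m (0 : ℂ) w)) = 0 := by
      refine Fin.cases ?_ (fun j => ?_) iν.1
      · have := f1_eq (m := m) (RingHom.id ℂ) 0 w 0
        unfold f1 at this
        rw [this]
        simp
      · exact eval_pderiv_succ hm _ zero_mem_Gr _ _ _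
    rw [h2, mul_zero]
  have hker : Submodule.span ℂ (Set.range (col (bF m (0 : ℂ) w))) =
      LinearMap.ker (LinearMap.proj (k0 k ((k + 1) * (m + 2 - 2))) : (Mon (k + 1) ((k + 1) * (m + 2 - 2)) → ℂ) →ₗ[ℂ] ℂ) := by
    apply le_antisymm
    · rw [Submodule.span_le]
      rintro _ ⟨iν, rfl⟩
      exact hcol iν
    · intro v hv
      by_contra hvs
      obtain ⟨μ, hμv, hμ⟩ := Submodule.exists_dual_map_eq_bot_of_notMem hvs inferInstance
      have hμ' : ∀ iν, μ (col (bF m (0 : ℂ) w) iν) = 0 := by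
        intro iν
        have h1 : μ (col (bF m (0 : ℂ) w) iν) ∈
            (Submodule.span ℂ (Set.range (col (bF m (0 : ℂ) w)))).map μ :=
          Submodule.mem_map_of_mem (Submodule.subset_span ⟨iν, rfl⟩)
        rw [hμ] at h1
        exact (Submodule.mem_bot ℂ).mp h1
      let L : MvPolynomial (Fin k) ℂ →ₗ[ℂ] ℂ := μ ∘ₗ vecL (k + 1) ((k + 1) * (m + 2 - 2)) ∘ₗ hz k ((k + 1) * (m + 2 - 2))
      have hL : ∀ p, L p = μ (vec ((k + 1) * (m + 2 - 2)) (hz k ((k + 1) * (m + 2 - 2)) p)) := fun p => rfl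
      -- the reduction polynomial in direction zero
      let F1 : MvPolynomial (Fin k) ℂ := ∑ i, C (w i) * X i ^ 2
      have hF1 : F1.totalDegree ≤ m + 1 := by
        refine totalDegree_finsetSum_le fun i _ => ?_
        refine (totalDegree_mul _ _).trans ?_
        rw [totalDegree_C, totalDegree_X_pow]; omega
      have hmulz : ∀ (r : MvPolynomial (Fin k) ℂ) (hr : r.totalDegree ≤ m + 1) (β : Fin k →₀ ℕ),
          β.degree + (m + 1) ≤ (k + 1) * m → hz k ((k + 1) * (m + 2 - 2)) (monomial β 1 * r) =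
            monomial (Finsupp.cons (((k + 1) * (m + 2 - 2)) - (m + 1) - β.degree) β) 1 * hz k (m + 1) r := by
        intro r hr β hβ
        have e1 : r = ∑ γ ∈ r.support, C (coeff γ r) * monomial γ 1 := by
          conv_lhs => rw [r.as_sum]
          exact Finset.sum_congr rfl fun γ _ => by rw [C_mul_monomial, mul_one]
        rw [e1, Finset.mul_sum, map_sum, map_sum, Finset.mul_sum]
        refine Finset.sum_congr rfl fun γ hγ => ?_
        have h5 : γ.degree ≤ m + 1 := by
          have := (le_totalDegree hγ).trans hr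
          rw [Finsupp.degree_eq_sum]
          rwa [Finsupp.sum_fintype _ _ fun i => rfl] at this
        rw [mul_left_comm, ← smul_eq_C_mul, map_smul, hz_mul ((k + 1) * (m + 2 - 2)) (m + 1) β γ hβ h5,
          ← smul_eq_C_mul, map_smul]
        rw [mul_smul_comm]
      have hnu : ∀ β : Fin k →₀ ℕ, β.degree + (m + 1) ≤ (k + 1) * m →
          (Finsupp.cons (((k + 1) * (m + 2 - 2)) - (m + 1) - β.degree) β).degree = ((k + 1) * (m + 2 - 2)) - (m + 2 - 1) := by
        intro β hβ
        rw [degree_cons]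
        have : m + 2 - 1 = m + 1 := rfl
        omega
      have key := grid_main hm F1 hF1 (by simp [F1]) (by
        intro Q hQ hne
        have := hw Q hQ hne
        simpa [F1] using this) L (by
        intro i β hβ
        rw [hL, hmulz _ (by
          refine (totalDegree_sub _ _).trans (max_le ?_ ?_)
          · rw [totalDegree_X_pow]
          · rw [totalDegree_X]; omega) β hβ]
        have h1 := hμ' (i.succ, ⟨_, hnu β hβ⟩)
        unfold col at h1
        rw [form_bF, pderiv_succ_Fam] at h1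
        have h2 : hz k (m + 1) (X i ^ (m + 1) - X i) = X i.succ ^ (m + 1) - X 0 ^ m * X i.succ := by
          rw [map_sub, hz_X_pow]
          have h3 := hz_X_pow (m + 1) 1 i
          rw [pow_one, pow_one, Nat.add_sub_cancel] at h3
          rw [h3, Nat.sub_self, pow_zero, one_mul]
        rw [h2]
        have h3 : (monomial (Finsupp.cons (((k + 1) * (m + 2 - 2)) - (m + 1) - β.degree) β) (1 : ℂ)) *
            (C (w i) * (2 * ((m + 2 : ℕ) : MvPolynomial (Fin (k + 1)) ℂ)) *
              (X 0 ^ m * X i.succ - X i.succ ^ (m + 1))) =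
            C (-(w i * (2 * (m + 2 : ℕ)))) *
            ((monomial (Finsupp.cons (((k + 1) * (m + 2 - 2)) - (m + 1) - β.degree) β) (1 : ℂ)) *
              (X i.succ ^ (m + 1) - X 0 ^ m * X i.succ)) := by
          rw [C_neg, C_mul, C_mul]
          have e2 : (2 : MvPolynomial (Fin (k + 1)) ℂ) = C (2 : ℂ) := by rw [map_ofNat]
          have e3 : ((m + 2 : ℕ) : MvPolynomial (Fin (k + 1)) ℂ) = C ((m + 2 : ℕ) : ℂ) := by
            rw [map_natCast]
          rw [e2, e3]
          ring
        have h5 : μ (vec ((k + 1) * (m + 2 - 2)) (C (-(w i * (2 * (m + 2 : ℕ)))) *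
            ((monomial (Finsupp.cons (((k + 1) * (m + 2 - 2)) - (m + 1) - β.degree) β) (1 : ℂ)) *
              (X i.succ ^ (m + 1) - X 0 ^ m * X i.succ)))) = 0 := by
          rw [← h3]; exact h1
        rw [vec_C_mul, map_smul, smul_eq_mul] at h5
        refine (mul_eq_zero.mp h5).resolve_left (neg_ne_zero.mpr (mul_ne_zero (hw0 i) ?_))
        refine mul_ne_zero two_ne_zero ?_
        exact_mod_cast (by omega : m + 2 ≠ 0)) (by
        intro β hβ
        rw [hL, hmulz _ hF1 β hβ]
        have h1 := hμ' (0, ⟨_, hnu β hβ⟩)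
        unfold col at h1
        rw [form_bF, pderiv_zero_Fam, C_0, zero_mul, zero_add] at h1
        have h2 : hz k (m + 1) F1 = ∑ i : Fin k, C (w i) * (X 0 ^ (m - 1) * X i.succ ^ 2) := by
          simp only [F1, map_sum]
          refine Finset.sum_congr rfl fun i _ => ?_
          rw [← smul_eq_C_mul, map_smul, hz_X_pow, smul_eq_C_mul]
          have : m + 1 - 2 = m - 1 := by omega
          rw [this]
        rw [h2]
        have h3 : (monomial (Finsupp.cons (((k + 1) * (m + 2 - 2)) - (m + 1) - β.degree) β) (1 : ℂ)) *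
            (((m + 2 : ℕ) : MvPolynomial (Fin (k + 1)) ℂ) * (m : MvPolynomial (Fin (k + 1)) ℂ) *
              ∑ i : Fin k, C (w i) * (X 0 ^ (m - 1) * X i.succ ^ 2)) =
            C ((m + 2 : ℕ) * (m : ℂ)) *
            ((monomial (Finsupp.cons (((k + 1) * (m + 2 - 2)) - (m + 1) - β.degree) β) (1 : ℂ)) *
              ∑ i : Fin k, C (w i) * (X 0 ^ (m - 1) * X i.succ ^ 2)) := by
          have e3 : ∀ N : ℕ, (N : MvPolynomial (Fin (k + 1)) ℂ) = C (N : ℂ) := fun N => by
            rw [map_natCast]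
          rw [C_mul, e3, e3]
          ring
        have h5 : μ (vec ((k + 1) * (m + 2 - 2)) (C ((m + 2 : ℕ) * (m : ℂ)) *
            ((monomial (Finsupp.cons (((k + 1) * (m + 2 - 2)) - (m + 1) - β.degree) β) (1 : ℂ)) *
              ∑ i : Fin k, C (w i) * (X 0 ^ (m - 1) * X i.succ ^ 2)))) = 0 := by
          rw [← h3]; exact h1
        rw [vec_C_mul, map_smul, smul_eq_mul] at h5
        refine (mul_eq_zero.mp h5).resolve_left (mul_ne_zero ?_ ?_)
        · exact_mod_cast (by omega : m + 2 ≠ 0)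
        · exact_mod_cast hm.ne')
      -- all other coordinates are killed
      have hcoord : ∀ κ : Mon (k + 1) ((k + 1) * (m + 2 - 2)), κ ≠ k0 k ((k + 1) * (m + 2 - 2)) → μ (Pi.single κ 1) = 0 := by
        intro κ hκ
        have h1 : κ.1 = Finsupp.cons (κ.1 0) κ.1.tail := (Finsupp.cons_tail κ.1).symm
        have h2 : κ.1 0 + κ.1.tail.degree = ((k + 1) * (m + 2 - 2)) := by
          rw [← degree_cons, ← h1]; exact κ.2
        have h3 : κ.1.tail ≠ 0 := by
          intro h0
          apply hκ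
          apply Subtype.ext
          rw [h0, map_zero Finsupp.degree, add_zero] at h2
          rw [h1, h0, h2]
          change _ = (Finsupp.single 0 ((k + 1) * (m + 2 - 2)) : Fin (k + 1) →₀ ℕ)
          ext i
          refine Fin.cases ?_ (fun j => ?_) i
          · rw [Finsupp.cons_zero, Finsupp.single_eq_same]
          · rw [Finsupp.cons_succ, Finsupp.single_eq_of_ne (Fin.succ_ne_zero j)]; rfl
        have h4 := key κ.1.tail h3 (by omega)
        rw [hL, hz_monomial] at h4
        have h5 : ((k + 1) * (m + 2 - 2)) - κ.1.tail.degree = κ.1 0 := by omega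
        rw [h5, ← h1, vec_monomial] at h4
        exact h4
      apply hμv
      have hsum : v = ∑ κ, v κ • (Pi.single κ 1 : Mon (k + 1) ((k + 1) * (m + 2 - 2)) → ℂ) := by
        ext κ; simp [Finset.sum_apply, Pi.single_apply]
      rw [hsum, map_sum]
      refine Finset.sum_eq_zero fun κ _ => ?_
      rw [map_smul]
      by_cases hκ : κ = k0 k ((k + 1) * (m + 2 - 2))
      · have : v (k0 k ((k + 1) * (m + 2 - 2))) = 0 := hv
        rw [hκ, this, zero_smul]
      · rw [hcoord κ hκ, smul_zero]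
  have h1 : Module.finrank ℂ (Submodule.span ℂ (Set.range (col (bF m (0 : ℂ) w)))) + 1 =
      Fintype.card (Mon (k + 1) ((k + 1) * (m + 2 - 2))) := by
    rw [hker]
    have h2 := LinearMap.finrank_range_add_finrank_ker
      (LinearMap.proj (k0 k ((k + 1) * (m + 2 - 2))) : (Mon (k + 1) ((k + 1) * (m + 2 - 2)) → ℂ) →ₗ[ℂ] ℂ)
    rw [Module.finrank_fintype_fun_eq_card] at h2
    have h3 : LinearMap.range (LinearMap.proj (k0 k ((k + 1) * (m + 2 - 2))) : (Mon (k + 1) ((k + 1) * (m + 2 - 2)) → ℂ) →ₗ[ℂ] ℂ) = ⊤ := by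
      rw [LinearMap.range_eq_top]
      exact Function.surjective_eval _
    rw [h3, _root_.finrank_top, Module.finrank_self] at h2
    omega
  exact exists_DDc_ne_zero _ _ _ h1 (by
    rw [hker]
    intro h
    have : (Pi.single (k0 k ((k + 1) * (m + 2 - 2))) 1 : Mon (k + 1) ((k + 1) * (m + 2 - 2)) → ℂ) (k0 k ((k + 1) * (m + 2 - 2))) = 0 := h
    simp at this)

end Run7.h100.AF
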