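import Mathlib
import Pool.Agent.Run7.h100.AF.Example

/-!
The order of vanishing of the minors along the line.
-/

open MvPolynomial

namespace Run7.h100.AF

variable {k m : ℕ}

/-- evaluation of the form with given coefficients -/
noncomputable def evL {B : Type*} [CommRing B] {n D : ℕ} (p : Fin n → B) :
    (Mon n D → B) →ₗ[B] B where
  toFun v := eval p (form v)
  map_add' a b := by rw [form_add, map_add]
  map_smul' t b := by rw [form_smul, map_mul, eval_C, RingHom.id_apply, smul_eq_mul]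

theorem form_colB {B : Type*} [CommRing B] {n d : ℕ} (hn : 2 ≤ n) (hd : 3 ≤ d) (a : Mon n d → B)
    (iν : Fin n × Mon n (n * (d - 2) - (d - 1))) :
    form (col a iν) = monomial iν.2.1 1 * pderiv iν.1 (form a) := by
  apply form_vec
  have h1 : (monomial iν.2.1 (1 : B)).IsHomogeneous (n * (d - 2) - (d - 1)) :=
    isHomogeneous_monomial _ iν.2.2
  have h2 := h1.mul ((form_isHomogeneous a).pderiv (i := iν.1))
  rwa [Nat.sub_add_cancel (euler_le hn hd)] at h2

theorem exists_line (hm : 0 < m) (hk : 0 < k)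
    [DecidableEq (Mon (k + 1) ((k + 1) * (m + 2 - 2)))] :
    ∃ (b : Mon (k + 1) (m + 2) → Polynomial ℂ)
      (S : Mon (k + 1) ((k + 1) * (m + 2 - 2)) →
        Fin (k + 1) × Mon (k + 1) ((k + 1) * (m + 2 - 2) - (m + 2 - 1))),
      ¬ Nondeg (form fun μ => (b μ).eval 0) ∧
      (¬ Polynomial.X ^ 2 ∣ DDc (col b) (k0 k ((k + 1) * (m + 2 - 2))) S
        (vec ((k + 1) * (m + 2 - 2)) (hess (form b)))) ∧
      (DDc (col b) (k0 k ((k + 1) * (m + 2 - 2))) S
        (Pi.single (k0 k ((k + 1) * (m + 2 - 2))) 1)).eval 0 ≠ 0 := by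
  classical
  obtain ⟨w, hw0, hw⟩ := exists_weights (k := k) hm
  obtain ⟨S, hS⟩ := exists_S0 hm hk w hw0 hw
  have hn : 2 ≤ k + 1 := by omega
  have hd : 3 ≤ m + 2 := by omega
  have hexp : (k + 1) * m = k * m + m := by ring
  set φ : ℂ →+* Polynomial ℂ := Polynomial.C with hφ
  set b : Mon (k + 1) (m + 2) → Polynomial ℂ := bF m (Polynomial.X : Polynomial ℂ) (fun i => φ (w i)) with hb
  set f : (Fin k → ℂ) → Polynomial ℂ := f1 m φ (Polynomial.X : Polynomial ℂ) (fun i => φ (w i)) with hf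
  have hb0 : (fun μ => (b μ).eval 0) = bF m (0 : ℂ) w := by
    have h1 := bF_map (m := m) (Polynomial.evalRingHom (0 : ℂ)) (Polynomial.X : Polynomial ℂ)
      (fun i => φ (w i))
    have h2 : (fun i => Polynomial.evalRingHom (0 : ℂ) (φ (w i))) = w := by
      ext i; simp [hφ]
    rw [h2] at h1
    have h3 : Polynomial.evalRingHom (0 : ℂ) (Polynomial.X : Polynomial ℂ) = 0 := by simp
    rw [h3] at h1
    exact h1.symm
  have h4 : (DDc (col b) (k0 k ((k + 1) * (m + 2 - 2))) S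
      (Pi.single (k0 k ((k + 1) * (m + 2 - 2))) 1)).eval 0 ≠ 0 := by
    have h5 := map_DDc (Polynomial.evalRingHom (0 : ℂ)) (col b) (k0 k ((k + 1) * (m + 2 - 2))) S
      (Pi.single (k0 k ((k + 1) * (m + 2 - 2))) 1)
    rw [Polynomial.coe_evalRingHom] at h5
    rw [h5]
    have h6 : (fun i κ => Polynomial.eval 0 (col b i κ)) = col (bF m (0 : ℂ) w) := by
      ext i κ
      have h7 := congrFun (col_map (Polynomial.evalRingHom (0 : ℂ)) b i) κ
      simp only [Polynomial.coe_evalRingHom] at h7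
      rw [hb0] at h7
      exact h7.symm
    have h8 : (fun κ => Polynomial.eval (0 : ℂ)
        ((Pi.single (k0 k ((k + 1) * (m + 2 - 2))) 1 :
          Mon (k + 1) ((k + 1) * (m + 2 - 2)) → Polynomial ℂ) κ)) =
        Pi.single (k0 k ((k + 1) * (m + 2 - 2))) 1 := by
      ext κ
      rw [Pi.single_apply, Pi.single_apply]
      split_ifs <;> simp
    rw [h6, h8]
    exact hS
  refine ⟨b, S, ?_, ?_, h4⟩
  · rw [hb0]; exact degenerate_zero hm w
  -- values of `f`
  have hf0 : f 0 = Polynomial.X * ((m + 2 : ℕ) : Polynomial ℂ) := by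
    rw [hf, f1_eq]; simp
  have hfv : ∀ Q ∈ Gr k m, Q ≠ 0 → (f Q).eval 0 ≠ 0 := by
    intro Q hQ hne
    rw [hf, f1_eq]
    have h1 : (Polynomial.X * ((m + 2 : ℕ) : Polynomial ℂ) + ((m + 2 : ℕ) : Polynomial ℂ) *
        (m : Polynomial ℂ) * ∑ i, φ (w i) * φ (Q i) ^ 2).eval 0 =
        ((m + 2 : ℕ) : ℂ) * (m : ℂ) * ∑ i, w i * Q i ^ 2 := by
      simp [hφ, Polynomial.eval_finsetSum]
    rw [h1]
    refine mul_ne_zero (mul_ne_zero ?_ ?_) (hw Q hQ hne)
    · exact_mod_cast (by omega : m + 2 ≠ 0)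
    · exact_mod_cast hm.ne'
  -- the functional
  set l : (Mon (k + 1) ((k + 1) * (m + 2 - 2)) → Polynomial ℂ) →ₗ[Polynomial ℂ] Polynomial ℂ :=
    ∑ Q ∈ Gr k m, (φ (cW m Q) * ∏ Q' ∈ (Gr k m).erase Q, f Q') • evL (pt φ Q) with hl
  have hlv : ∀ v, l v = ∑ Q ∈ Gr k m, (φ (cW m Q) * ∏ Q' ∈ (Gr k m).erase Q, f Q') *
      eval (pt φ Q) (form v) := by
    intro v
    rw [hl, LinearMap.sum_apply]
    rfl
  have hlmul : ∀ (v : Mon (k + 1) ((k + 1) * (m + 2 - 2)) → Polynomial ℂ) (y : (Fin k → ℂ) → ℂ),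
      (∀ Q ∈ Gr k m, eval (pt φ Q) (form v) = f Q * φ (y Q)) →
      l v = (∏ Q ∈ Gr k m, f Q) * φ (∑ Q ∈ Gr k m, cW m Q * y Q) := by
    intro v y hv
    rw [hlv, map_sum, Finset.mul_sum]
    refine Finset.sum_congr rfl fun Q hQ => ?_
    rw [hv Q hQ, ← Finset.mul_prod_erase _ _ hQ, map_mul]
    ring
  have hcol : ∀ iν, l (col b iν) = 0 := by
    intro iν
    obtain ⟨i, ν⟩ := iν
    have hform : form (col b (i, ν)) = monomial ν.1 1 * pderiv i (Fam m Polynomial.X fun i => φ (w i)) := by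
      rw [form_colB hn hd, hb, form_bF]
    revert hform
    refine Fin.cases ?_ (fun j => ?_) i
    · intro hform
      have h1 := hlmul (col b (0, ν)) (fun Q => ∏ j, Q j ^ ν.1.tail j) (by
        intro Q hQ
        rw [hform, map_mul, eval_monomial, one_mul, Finsupp.prod_fintype _ _ fun i => pow_zero _,
          Fin.prod_univ_succ]
        simp only [pt, Fin.cons_zero, one_pow, one_mul, Fin.cons_succ]
        rw [map_prod, mul_comm]
        simp only [map_pow]
        rfl)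
      rw [h1, cW_sum hm ν.1.tail, map_zero, mul_zero]
      have h2 : ν.1.degree = ν.1 0 + ν.1.tail.degree := by
        conv_lhs => rw [← Finsupp.cons_tail ν.1, degree_cons]
      have h3 := ν.2
      have h4 : (k + 1) * (m + 2 - 2) - (m + 2 - 1) = (k + 1) * m - (m + 1) := rfl
      have h5 : 1 * m ≤ k * m := Nat.mul_le_mul_right m hk
      omega
    · intro hform
      rw [hlv]
      refine Finset.sum_eq_zero fun Q hQ => ?_
      rw [hform, map_mul, eval_pderiv_succ hm φ hQ, mul_zero, mul_zero]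
  have hhess : ∃ c : ℂ, c ≠ 0 ∧ l (vec ((k + 1) * (m + 2 - 2)) (hess (form b))) =
      (∏ Q ∈ Gr k m, f Q) * φ c := by
    have h1 := hlmul (vec ((k + 1) * (m + 2 - 2)) (hess (form b)))
      (fun Q => ((m + 1 : ℕ) : ℂ) * ∏ i, (w i * (2 * ((m + 2 : ℕ) : ℂ)) *
        (1 - ((m + 1 : ℕ) : ℂ) * Q i ^ m))) (by
      intro Q hQ
      rw [form_vec (hess_isHomogeneous (form_isHomogeneous b)), hb, form_bF, eval_hess hm φ hQ]
      rw [map_mul, map_prod]
      simp only [map_mul, map_sub, map_one, map_pow, map_natCast, map_ofNat]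
      rw [mul_comm (((m + 1 : ℕ) : Polynomial ℂ)), mul_assoc])
    refine ⟨_, ?_, h1⟩
    have h2 : ∀ Q ∈ Gr k m, cW m Q * (((m + 1 : ℕ) : ℂ) * ∏ i, (w i * (2 * ((m + 2 : ℕ) : ℂ)) *
        (1 - ((m + 1 : ℕ) : ℂ) * Q i ^ m))) =
        ((m + 1 : ℕ) : ℂ) * ∏ i, (-(w i * (2 * ((m + 2 : ℕ) : ℂ)))) := by
      intro Q hQ
      unfold cW
      rw [mul_left_comm, ← Finset.prod_mul_distrib]
      congr 1
      refine Finset.prod_congr rfl fun i _ => ?_
      have h3 := cw_mul hm (Fintype.mem_piFinset.mp hQ i)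
      push_cast
      linear_combination (-(w i * (2 * ((m : ℂ) + 2)))) * h3
    rw [Finset.sum_congr rfl h2, Finset.sum_const, nsmul_eq_mul]
    refine mul_ne_zero ?_ (mul_ne_zero ?_ ?_)
    · rw [Nat.cast_ne_zero, Finset.card_ne_zero]
      exact ⟨0, zero_mem_Gr⟩
    · exact_mod_cast (by omega : m + 1 ≠ 0)
    · rw [Finset.prod_ne_zero_iff]
      intro i _
      refine neg_ne_zero.mpr (mul_ne_zero (hw0 i) (mul_ne_zero two_ne_zero ?_))
      exact_mod_cast (by omega : m + 2 ≠ 0)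
  obtain ⟨c, hc0, hc⟩ := hhess
  -- the final comparison
  have hcr := DDc_cramer (col b) (k0 k ((k + 1) * (m + 2 - 2))) S
    (vec ((k + 1) * (m + 2 - 2)) (hess (form b))) (Pi.single (k0 k ((k + 1) * (m + 2 - 2))) 1) l
    (fun κ _ => hcol (S κ))
  intro hdvd
  have h1 : Polynomial.X ^ 2 ∣ DDc (col b) (k0 k ((k + 1) * (m + 2 - 2))) S
      (Pi.single (k0 k ((k + 1) * (m + 2 - 2))) 1) * ((∏ Q ∈ Gr k m, f Q) * φ c) := by
    rw [← hc, ← hcr]
    exact Dvd.dvd.mul_right hdvd _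
  rw [← Finset.mul_prod_erase _ _ (zero_mem_Gr (k := k) (m := m)), hf0] at h1
  have h2 : Polynomial.X * Polynomial.X ∣ Polynomial.X *
      (DDc (col b) (k0 k ((k + 1) * (m + 2 - 2))) S
      (Pi.single (k0 k ((k + 1) * (m + 2 - 2))) 1) * (((m + 2 : ℕ) : Polynomial ℂ) *
        (∏ Q ∈ (Gr k m).erase 0, f Q) * φ c)) := by
    rw [← sq]
    refine h1.trans (dvd_of_eq ?_)
    ring
  have h3 := (mul_dvd_mul_iff_left (Polynomial.X_ne_zero (R := ℂ))).mp h2
  rw [Polynomial.X_dvd_iff, Polynomial.coeff_zero_eq_eval_zero] at h3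
  simp only [Polynomial.eval_mul, Polynomial.eval_natCast, Polynomial.eval_prod] at h3
  refine (mul_ne_zero h4 (mul_ne_zero (mul_ne_zero ?_ ?_) ?_)) h3
  · exact_mod_cast (by omega : m + 2 ≠ 0)
  · rw [Finset.prod_ne_zero_iff]
    intro Q hQ
    obtain ⟨hne, hQ'⟩ := Finset.mem_erase.mp hQ
    exact hfv Q hQ' hne
  · simpa [hφ] using hc0

end Run7.h100.AF
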