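import Mathlib
import Pool.Agent.Run7.h100.AF.Line

/-!
The discriminant times the associated form extends.
-/

open MvPolynomial

namespace Run7.h100.AF

variable {n d : ℕ}

/-- generic minor of the Hessian vector -/
noncomputable def DS (κ0 : Mon n (n * (d - 2)))
    (S : Mon n (n * (d - 2)) → Fin n × Mon n (n * (d - 2) - (d - 1))) :
    MvPolynomial (Mon n d) ℂ :=
  DDc (col (X : Mon n d → MvPolynomial (Mon n d) ℂ)) κ0 S (vec (n * (d - 2)) (hess (form X)))

/-- generic minor of a constant vector -/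
noncomputable def DG (κ0 : Mon n (n * (d - 2)))
    (S : Mon n (n * (d - 2)) → Fin n × Mon n (n * (d - 2) - (d - 1)))
    (g : Mon n (n * (d - 2)) → ℂ) : MvPolynomial (Mon n d) ℂ :=
  DDc (col (X : Mon n d → MvPolynomial (Mon n d) ℂ)) κ0 S (fun κ => C (g κ))

theorem map_col_X {B : Type*} [CommRing B] (φ : MvPolynomial (Mon n d) ℂ →+* B)
    (iν : Fin n × Mon n (n * (d - 2) - (d - 1))) :
    (fun κ => φ (col (X : Mon n d → MvPolynomial (Mon n d) ℂ) iν κ)) =
      col (fun μ => φ (X μ)) iν := by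
  rw [col_map]

theorem map_DS {B : Type*} [CommRing B] (φ : MvPolynomial (Mon n d) ℂ →+* B)
    (κ0 : Mon n (n * (d - 2)))
    (S : Mon n (n * (d - 2)) → Fin n × Mon n (n * (d - 2) - (d - 1))) :
    φ (DS κ0 S) = DDc (col fun μ => φ (X μ)) κ0 S
      (vec (n * (d - 2)) (hess (form fun μ => φ (X μ)))) := by
  unfold DS
  rw [map_DDc, ← hess_vec_map]
  congr 1
  ext1 iν
  exact map_col_X φ iν

theorem eval_DS (a : Mon n d → ℂ) (κ0 : Mon n (n * (d - 2)))
    (S : Mon n (n * (d - 2)) → Fin n × Mon n (n * (d - 2) - (d - 1))) :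
    eval a (DS κ0 S) = DDc (col a) κ0 S (vec (n * (d - 2)) (hess (form a))) := by
  have h := map_DS (eval a) κ0 S
  simpa using h

theorem eval_DG (a : Mon n d → ℂ) (κ0 : Mon n (n * (d - 2)))
    (S : Mon n (n * (d - 2)) → Fin n × Mon n (n * (d - 2) - (d - 1)))
    (g : Mon n (n * (d - 2)) → ℂ) : eval a (DG κ0 S g) = DDc (col a) κ0 S g := by
  unfold DG
  rw [map_DDc]
  simp only [eval_C]
  congr 1
  ext1 iν
  have h := map_col_X (eval a) iν
  simpa using h

/-- a discriminant: an irreducible polynomial vanishing exactly at the singular forms -/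
def IsDisc (n d : ℕ) (Δ : MvPolynomial (Mon n d) ℂ) : Prop :=
  Irreducible Δ ∧ ∀ a : Mon n d → ℂ, eval a Δ = 0 ↔ ¬ Nondeg (form a)

/-- Nullstellensatz for a prime polynomial -/
theorem dvd_of_zeros {σ : Type*} [Finite σ] {p q : MvPolynomial σ ℂ} (hp : Prime p)
    (h : ∀ a, eval a p = 0 → eval a q = 0) : p ∣ q := by
  have hP : (Ideal.span {p}).IsPrime := (Ideal.span_singleton_prime hp.ne_zero).mpr hp
  have h1 : q ∈ vanishingIdeal ℂ (zeroLocus ℂ (Ideal.span {p})) := by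
    rw [mem_vanishingIdeal_iff]
    intro x hx
    rw [mem_zeroLocus_iff] at hx
    have h2 := hx p (Ideal.mem_span_singleton_self p)
    rw [aeval_eq_eval] at h2 ⊢
    exact h x h2
  rw [MvPolynomial.IsPrime.vanishingIdeal_zeroLocus] at h1
  exact Ideal.mem_span_singleton.mp h1

theorem identity (hn : 2 ≤ n) (hd : 3 ≤ d) (κ0 : Mon n (n * (d - 2)))
    (S S' : Mon n (n * (d - 2)) → Fin n × Mon n (n * (d - 2) - (d - 1)))
    (g : Mon n (n * (d - 2)) → ℂ) : DS κ0 S * DG κ0 S' g = DS κ0 S' * DG κ0 S g := by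
  apply MvPolynomial.funext
  intro a
  rw [map_mul, map_mul, eval_DS, eval_DS, eval_DG, eval_DG]
  by_cases h : Nondeg (form a)
  · obtain ⟨c, hc⟩ := exists_coeff hn hd a h g
    rw [DD_eq hn hd a h κ0 S g c hc, DD_eq hn hd a h κ0 S' g c hc]
    ring
  · rw [DD_eq_zero hn hd a h, DD_eq_zero hn hd a h, zero_mul, zero_mul]

theorem disc_dvd (hn : 2 ≤ n) (hd : 3 ≤ d) {Δ : MvPolynomial (Mon n d) ℂ} (hΔ : IsDisc n d Δ)
    (κ0 : Mon n (n * (d - 2)))
    (S : Mon n (n * (d - 2)) → Fin n × Mon n (n * (d - 2) - (d - 1))) : Δ ∣ DS κ0 S := by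
  apply dvd_of_zeros hΔ.1.prime
  intro a ha
  rw [eval_DS]
  exact DD_eq_zero hn hd a ((hΔ.2 a).mp ha) κ0 S

theorem exists_S (hn : 2 ≤ n) (hd : 3 ≤ d) {Δ : MvPolynomial (Mon n d) ℂ} (hΔ : IsDisc n d Δ) :
    ∃ (κ0 : Mon n (n * (d - 2)))
      (S : Mon n (n * (d - 2)) → Fin n × Mon n (n * (d - 2) - (d - 1))), ¬ Δ ^ 2 ∣ DS κ0 S := by
  obtain ⟨k, rfl⟩ : ∃ k, n = k + 1 := ⟨n - 1, by omega⟩
  obtain ⟨m, rfl⟩ : ∃ m, d = m + 2 := ⟨d - 2, by omega⟩
  obtain ⟨b, S, h0, hS, _⟩ := exists_line (k := k) (m := m) (by omega) (by omega)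
  refine ⟨k0 k _, S, fun hdvd => hS ?_⟩
  set φ : MvPolynomial (Mon (k + 1) (m + 2)) ℂ →+* Polynomial ℂ := (aeval b).toRingHom with hφ
  have hφX : (fun μ => φ (X μ)) = b := by
    ext1 μ
    exact aeval_X b μ
  have h1 : φ Δ ^ 2 ∣ φ (DS (k0 k _) S) := by
    rw [← map_pow]; exact map_dvd φ hdvd
  rw [map_DS, hφX] at h1
  refine (pow_dvd_pow_of_dvd ?_ 2).trans h1
  rw [Polynomial.X_dvd_iff, Polynomial.coeff_zero_eq_eval_zero]
  have h2 : (φ Δ).eval 0 = eval (fun μ => (b μ).eval 0) Δ := by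
    have h3 : (Polynomial.evalRingHom (0 : ℂ)).comp φ = eval (fun μ => (b μ).eval 0) := by
      apply MvPolynomial.ringHom_ext
      · intro r
        rw [RingHom.comp_apply, eval_C]
        have : φ (C r) = Polynomial.C r := by
          change aeval b (C r) = _
          rw [aeval_C]; rfl
        rw [this]; simp
      · intro μ
        rw [RingHom.comp_apply, eval_X, congrFun hφX μ]
        rfl
    exact DFunLike.congr_fun h3 Δ
  rw [h2]
  exact (hΔ.2 _).mpr h0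

/-- the extension of one coefficient -/
theorem exists_P (hn : 2 ≤ n) (hd : 3 ≤ d) {Δ : MvPolynomial (Mon n d) ℂ} (hΔ : IsDisc n d Δ)
    (g : Mon n (n * (d - 2)) → ℂ) :
    ∃ P : MvPolynomial (Mon n d) ℂ, ∀ a, Nondeg (form a) → ∀ c : ℂ,
      g - c • vec (n * (d - 2)) (hess (form a)) ∈ WW a → eval a P = eval a Δ * c := by
  obtain ⟨κ0, S0, hS0⟩ := exists_S hn hd hΔ
  have : Nonempty (Fin n × Mon n (n * (d - 2) - (d - 1))) := ⟨S0 κ0⟩
  obtain ⟨E, hE⟩ := disc_dvd hn hd hΔ κ0 S0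
  have hE0 : E ≠ 0 := by
    intro h
    apply hS0
    rw [hE, h, mul_zero]
    exact dvd_zero _
  have hΔE : ¬ Δ ∣ E := by
    intro h
    apply hS0
    rw [hE, sq]
    exact mul_dvd_mul_left _ h
  have hΔ0 : Δ ≠ 0 := hΔ.1.ne_zero
  obtain ⟨E', h', c', hrel, hcE, hch⟩ :=
    UniqueFactorizationMonoid.exists_reduced_factors E hE0 (DG κ0 S0 g)
  have hc0 : c' ≠ 0 := by
    intro h; rw [h, zero_mul] at hcE; exact hE0 hcE.symm
  -- `E'` divides every minor
  have hall : ∀ S, E' ∣ DS κ0 S := by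
    intro S
    have h1 := identity hn hd κ0 S S0 g
    rw [hE, ← hcE, ← hch] at h1
    have h2 : c' * (E' * (Δ * DG κ0 S g)) = c' * (DS κ0 S * h') := by
      linear_combination -h1
    have h3 := mul_left_cancel₀ hc0 h2
    exact hrel.dvd_of_dvd_mul_right ⟨_, h3.symm⟩
  have hunit : IsUnit E' := by
    by_contra hnu
    have hE'0 : E' ≠ 0 := by
      intro h; rw [h, mul_zero] at hcE; exact hE0 hcE.symm
    obtain ⟨q, hq, hqE⟩ := WfDvdMonoid.exists_irreducible_factor hnu hE'0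
    have h1 : q ∣ Δ := by
      apply dvd_of_zeros hq.prime
      intro a ha
      rw [hΔ.2]
      intro hnd
      obtain ⟨S, hS⟩ := exists_DD hn hd a hnd κ0
      apply hS
      rw [← eval_DS]
      obtain ⟨r, hr⟩ := hqE.trans (hall S)
      rw [hr, map_mul, ha, zero_mul]
    have h2 : Associated q Δ := hq.associated_of_dvd hΔ.1 h1
    apply hΔE
    rw [← hcE]
    exact (h2.symm.dvd.trans hqE).trans (dvd_mul_left _ _)
  have hEdvd : E ∣ DG κ0 S0 g := by
    rw [← hcE, ← hch]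
    exact mul_dvd_mul_left _ (hunit.dvd)
  obtain ⟨P, hP⟩ := hEdvd
  refine ⟨P, fun a ha c hc => ?_⟩
  obtain ⟨S, hS⟩ := exists_DD hn hd a ha κ0
  have h1 := identity hn hd κ0 S S0 g
  rw [hE, hP] at h1
  have h2 : DS κ0 S * P = Δ * DG κ0 S g := by
    apply mul_left_cancel₀ hE0
    linear_combination h1
  have h3 := congrArg (eval a) h2
  rw [map_mul, map_mul, eval_DS, eval_DG, DD_eq hn hd a ha κ0 S g c hc] at h3
  apply mul_left_cancel₀ hS
  linear_combination h3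

end Run7.h100.AF
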