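import Mathlib
import Pool.Agent.Run7.h100.AF.Main

/-!
Linear substitutions and the parametrisation of singular forms.
-/

open MvPolynomial

namespace Run7.h100.AF

section subst

variable {n : ℕ} {B : Type*} [CommRing B]

/-- linear substitution -/
noncomputable def subst (M : Matrix (Fin n) (Fin n) B) :
    MvPolynomial (Fin n) B →ₐ[B] MvPolynomial (Fin n) B :=
  aeval fun i => ∑ j, C (M i j) * X j

theorem subst_X (M : Matrix (Fin n) (Fin n) B) (i : Fin n) :
    subst M (X i) = ∑ j, C (M i j) * X j := aeval_X _ _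

theorem subst_C (M : Matrix (Fin n) (Fin n) B) (c : B) : subst M (C c) = C c := by
  unfold subst
  rw [aeval_C]; rfl

theorem eval_subst (M : Matrix (Fin n) (Fin n) B) (z : Fin n → B) (f : MvPolynomial (Fin n) B) :
    eval z (subst M f) = eval (M.mulVec z) f := by
  induction f using MvPolynomial.induction_on with
  | C a => rw [subst_C, eval_C, eval_C]
  | add p q hp hq => rw [map_add, map_add, hp, hq, map_add]
  | mul_X p i hp =>
    rw [map_mul, map_mul, hp, map_mul, subst_X, eval_X, map_sum]
    congr 1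
    simp [Matrix.mulVec, dotProduct]

theorem pderiv_subst (M : Matrix (Fin n) (Fin n) B) (j : Fin n) (f : MvPolynomial (Fin n) B) :
    pderiv j (subst M f) = ∑ i, C (M i j) * subst M (pderiv i f) := by
  classical
  induction f using MvPolynomial.induction_on with
  | C a => simp
  | add p q hp hq =>
    rw [map_add, map_add, hp, hq, ← Finset.sum_add_distrib]
    refine Finset.sum_congr rfl fun i _ => ?_
    rw [map_add, map_add, mul_add]
  | mul_X p i hp =>
    rw [map_mul, Derivation.leibniz, hp, subst_X, map_sum]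
    have h1 : ∑ l, pderiv j (C (M i l) * X l : MvPolynomial (Fin n) B) = C (M i j) := by
      rw [Finset.sum_eq_single j]
      · rw [Derivation.leibniz, pderiv_C, pderiv_X_self]; simp
      · intro l _ hl
        rw [Derivation.leibniz, pderiv_C, pderiv_X_of_ne hl]; simp
      · intro h; exact absurd (Finset.mem_univ _) h
    rw [h1]
    have h2 : ∀ l, C (M l j) * subst M (pderiv l (p * X i)) =
        subst M p * (if l = i then C (M i j) else 0) +
          (∑ j, C (M i j) * X j) * (C (M l j) * subst M (pderiv l p)) := by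
      intro l
      rw [Derivation.leibniz, map_add, smul_eq_mul, smul_eq_mul, map_mul, map_mul, subst_X]
      by_cases hl : l = i
      · rw [hl, pderiv_X_self, map_one, if_pos rfl]; ring
      · rw [pderiv_X_of_ne (Ne.symm hl), map_zero, if_neg hl]; ring
    simp only [h2]
    rw [Finset.sum_add_distrib, ← Finset.mul_sum, ← Finset.mul_sum]
    simp [smul_eq_mul]

theorem subst_subst (M M' : Matrix (Fin n) (Fin n) B) (f : MvPolynomial (Fin n) B) :
    subst M (subst M' f) = subst (M' * M) f := by
  induction f using MvPolynomial.induction_on with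
  | C a => rw [subst_C, subst_C, subst_C]
  | add p q hp hq => rw [map_add, map_add, hp, hq, map_add]
  | mul_X p i hp =>
    rw [map_mul, map_mul, hp, map_mul, subst_X, subst_X, map_sum]
    congr 1
    have h1 : ∀ l, subst M (C (M' i l) * X l) = ∑ j, C (M' i l * M l j) * X j := by
      intro l
      rw [map_mul, subst_C, subst_X, Finset.mul_sum]
      refine Finset.sum_congr rfl fun j _ => ?_
      rw [C_mul]; ring
    simp only [h1]
    rw [Finset.sum_comm]
    refine Finset.sum_congr rfl fun j _ => ?_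
    rw [← Finset.sum_mul, ← map_sum, Matrix.mul_apply]

theorem subst_one (f : MvPolynomial (Fin n) B) : subst 1 f = f := by
  classical
  induction f using MvPolynomial.induction_on with
  | C a => rw [subst_C]
  | add p q hp hq => rw [map_add, hp, hq]
  | mul_X p i hp =>
    rw [map_mul, hp, subst_X]
    congr 1
    rw [Finset.sum_eq_single i]
    · rw [Matrix.one_apply_eq, C_1, one_mul]
    · intro j _ hj
      rw [Matrix.one_apply_ne (Ne.symm hj), C_0, zero_mul]
    · intro h; exact absurd (Finset.mem_univ _) h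

theorem subst_hom (M : Matrix (Fin n) (Fin n) B) {f : MvPolynomial (Fin n) B} {D : ℕ}
    (hf : f.IsHomogeneous D) : (subst M f).IsHomogeneous D := by
  have h1 := hf.aeval (fun i => ∑ j, C (M i j) * X j) (n := 1) (fun i => by
    refine IsHomogeneous.sum _ _ _ fun j _ => ?_
    have := (isHomogeneous_C (Fin n) (M i j)).mul (isHomogeneous_X B j)
    rwa [zero_add] at this)
  rwa [one_mul] at h1

theorem map_subst {B' : Type*} [CommRing B'] (φ : B →+* B') (M : Matrix (Fin n) (Fin n) B)
    (f : MvPolynomial (Fin n) B) : map φ (subst M f) = subst (M.map φ) (map φ f) := by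
  induction f using MvPolynomial.induction_on with
  | C a => rw [subst_C, map_C, subst_C]
  | add p q hp hq => rw [map_add, map_add, hp, hq, map_add, map_add]
  | mul_X p i hp =>
    rw [map_mul, map_mul, hp, map_mul, map_mul, subst_X, map_X, subst_X, map_sum]
    congr 1
    refine Finset.sum_congr rfl fun j _ => ?_
    rw [map_mul, map_C, map_X]; rfl

end subst

section trunc

variable {k d : ℕ}

open Classical in
/-- kill the coefficients that obstruct a singular point at `e_0` -/
noncomputable def tr {B : Type*} [CommRing B] (y : Mon (k + 1) d → B) : Mon (k + 1) d → B :=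
  fun κ => if ∃ i, κ.1 = Finsupp.single 0 (d - 1) + Finsupp.single i 1 then 0 else y κ

theorem tr_map {B B' : Type*} [CommRing B] [CommRing B'] (φ : B →+* B') (y : Mon (k + 1) d → B) :
    (fun κ => φ (tr y κ)) = tr fun κ => φ (y κ) := by
  ext κ
  unfold tr
  split_ifs
  · exact map_zero φ
  · rfl

theorem eval_e0 {D : ℕ} {p : MvPolynomial (Fin (k + 1)) ℂ} (hp : p.IsHomogeneous D) :
    eval (Pi.single 0 1) p = coeff (Finsupp.single 0 D) p := by
  have h1 := eval_e0_form (vec D p)
  rw [form_vec hp] at h1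
  exact h1

theorem sing_e0 (a : Mon (k + 1) d → ℂ) (i : Fin (k + 1)) :
    eval (Pi.single 0 1) (pderiv i (form a)) = 0 ↔
      coeff (Finsupp.single 0 (d - 1) + Finsupp.single i 1) (form a) = 0 := by
  rw [eval_e0 (pderiv_hom a i), coeff_pderiv, mul_eq_zero]
  constructor
  · rintro (h | h)
    · exact h
    · exfalso
      have : (((Finsupp.single 0 (d - 1) : Fin (k + 1) →₀ ℕ) i + 1 : ℕ) : ℂ) = 0 := by
        exact_mod_cast h
      rw [Nat.cast_eq_zero] at this
      omega
  · intro h; exact Or.inl h

theorem coeff_tr (hd : 1 ≤ d) (y : Mon (k + 1) d → ℂ) (i : Fin (k + 1)) :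
    coeff (Finsupp.single 0 (d - 1) + Finsupp.single i 1) (form (tr y)) = 0 := by
  have h1 : (Finsupp.single 0 (d - 1) + Finsupp.single i 1 : Fin (k + 1) →₀ ℕ).degree = d := by
    rw [map_add Finsupp.degree, Finsupp.degree_single, Finsupp.degree_single]; omega
  have h2 := coeff_form (tr y) ⟨_, h1⟩
  rw [h2]
  unfold tr
  rw [if_pos ⟨i, rfl⟩]

theorem tr_of_sing (a : Mon (k + 1) d → ℂ)
    (h : ∀ i, eval (Pi.single 0 1) (pderiv i (form a)) = 0) : tr a = a := by
  ext κ
  unfold tr
  split_ifs with h1
  · obtain ⟨i, hi⟩ := h1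
    have h2 := (sing_e0 a i).mp (h i)
    rw [← hi, coeff_form] at h2
    exact h2.symm
  · rfl

/-- image of the parametrisation is singular -/
theorem not_nondeg_subst (hd : 2 ≤ d) (M : Matrix (Fin (k + 1)) (Fin (k + 1)) ℂ)
    (y : Mon (k + 1) d → ℂ) : ¬ Nondeg (subst M (form (tr y))) := by
  intro h
  obtain ⟨z, hz0, hz⟩ : ∃ z : Fin (k + 1) → ℂ, z ≠ 0 ∧
      (M.mulVec z = 0 ∨ M.mulVec z = Pi.single 0 1) := by
    by_cases hM : M.det = 0
    · obtain ⟨z, hz0, hz⟩ := Matrix.exists_mulVec_eq_zero_iff.mpr hM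
      exact ⟨z, hz0, Or.inl hz⟩
    · refine ⟨M⁻¹.mulVec (Pi.single 0 1), ?_, Or.inr ?_⟩
      · intro h0
        have h1 : M.mulVec (M⁻¹.mulVec (Pi.single 0 1)) = 0 := by rw [h0, Matrix.mulVec_zero]
        rw [Matrix.mulVec_mulVec, Matrix.mul_nonsing_inv _ (isUnit_iff_ne_zero.mpr hM),
          Matrix.one_mulVec] at h1
        have := congrFun h1 0
        simp at this
      · rw [Matrix.mulVec_mulVec, Matrix.mul_nonsing_inv _ (isUnit_iff_ne_zero.mpr hM),
          Matrix.one_mulVec]
  apply hz0
  apply h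
  intro j
  rw [pderiv_subst, map_sum]
  refine Finset.sum_eq_zero fun i _ => ?_
  rw [map_mul, eval_subst]
  rcases hz with hz | hz
  · rw [hz]
    have h1 : eval (0 : Fin (k + 1) → ℂ) (pderiv i (form (tr y))) = 0 := by
      rw [eval_zero, constantCoeff_eq]
      apply (pderiv_hom (tr y) i).coeff_eq_zero
      rw [map_zero Finsupp.degree]
      omega
    rw [h1, mul_zero]
  · rw [hz, (sing_e0 (tr y) i).mpr (coeff_tr (by omega) y i), mul_zero]

/-- every singular form is in the image of the parametrisation -/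
theorem exists_param (a : Mon (k + 1) d → ℂ) (h : ¬ Nondeg (form a)) :
    ∃ (M : Matrix (Fin (k + 1)) (Fin (k + 1)) ℂ) (y : Mon (k + 1) d → ℂ),
      form a = subst M (form (tr y)) := by
  unfold Nondeg at h
  push Not at h
  obtain ⟨z, hz, hz0⟩ := h
  have he0 : (Pi.single 0 1 : Fin (k + 1) → ℂ) ≠ 0 := by
    intro h0
    have := congrFun h0 0
    simp at this
  obtain ⟨A, hA⟩ := SeparatingDual.exists_continuousLinearEquiv_apply_eq (R := ℂ) he0 hz0
  set G : Matrix (Fin (k + 1)) (Fin (k + 1)) ℂ := LinearMap.toMatrix' (A.toLinearEquiv : _ →ₗ[ℂ] _)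
    with hG
  set G' : Matrix (Fin (k + 1)) (Fin (k + 1)) ℂ :=
    LinearMap.toMatrix' (A.symm.toLinearEquiv : _ →ₗ[ℂ] _) with hG'
  have hGG : G * G' = 1 := by
    rw [hG, hG', ← LinearMap.toMatrix'_comp]
    have : (A.toLinearEquiv : (Fin (k + 1) → ℂ) →ₗ[ℂ] (Fin (k + 1) → ℂ)) ∘ₗ
        (A.symm.toLinearEquiv : (Fin (k + 1) → ℂ) →ₗ[ℂ] (Fin (k + 1) → ℂ)) = LinearMap.id := by
      ext1 i
      ext
      simp
    rw [this, LinearMap.toMatrix'_id]
  have hGe : G.mulVec (Pi.single 0 1) = z := by
    rw [hG, LinearMap.toMatrix'_mulVec]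
    exact hA
  set y : Mon (k + 1) d → ℂ := vec d (subst G (form a)) with hy
  have hfy : form y = subst G (form a) := form_vec (subst_hom G (form_isHomogeneous a))
  have htr : tr y = y := by
    apply tr_of_sing
    intro j
    rw [hfy, pderiv_subst, map_sum]
    refine Finset.sum_eq_zero fun i _ => ?_
    rw [map_mul, eval_subst, hGe, hz, mul_zero]
  refine ⟨G', y, ?_⟩
  rw [htr, hfy, subst_subst, hGG, subst_one]

end trunc

end Run7.h100.AF
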