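import Mathlib
import Pool.Agent.Run7.h100.AF.Subst
import Pool.Agent.Run7.h100.AF.Elim

/-!
Existence of the discriminant.
-/

open MvPolynomial

namespace Run7.h100.AF

variable {k m : ℕ}

theorem exists_DS_ne_zero (hm : 0 < m) (hk : 0 < k) :
    ∃ (κ0 : Mon (k + 1) ((k + 1) * (m + 2 - 2)))
      (S : Mon (k + 1) ((k + 1) * (m + 2 - 2)) →
        Fin (k + 1) × Mon (k + 1) ((k + 1) * (m + 2 - 2) - (m + 2 - 1))),
      DS (n := k + 1) (d := m + 2) κ0 S ≠ 0 := by
  obtain ⟨b, S, _, hS, _⟩ := exists_line (k := k) (m := m) hm hk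
  refine ⟨k0 k _, S, fun h0 => hS ?_⟩
  have h1 := map_DS (aeval (R := ℂ) b).toRingHom (k0 k ((k + 1) * (m + 2 - 2))) S
  rw [h0, map_zero] at h1
  have h2 : (fun μ => (aeval (R := ℂ) b).toRingHom (X μ)) = b := by
    ext1 μ
    exact aeval_X b μ
  rw [h2] at h1
  rw [← h1]
  exact dvd_zero _

/-- a nonzero polynomial whose non-vanishing forces nondegeneracy -/
theorem exists_nonvan (hm : 0 < m) (hk : 0 < k) :
    ∃ h : MvPolynomial (Mon k (m + 2)) ℂ, h ≠ 0 ∧ ∀ a, eval a h ≠ 0 → Nondeg (form a) := by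
  obtain ⟨l, rfl⟩ : ∃ l, k = l + 1 := ⟨k - 1, by omega⟩
  rcases Nat.eq_zero_or_pos l with hl | hl
  · subst hl
    refine ⟨X (k0 0 (m + 2)), X_ne_zero _, fun a ha z hz => ?_⟩
    rw [eval_X] at ha
    have h1 : form a = monomial (Finsupp.single 0 (m + 2)) (a (k0 0 (m + 2))) := by
      unfold form
      rw [Finset.sum_eq_single (k0 0 (m + 2))]
      · rfl
      · intro μ _ hμ
        exfalso
        apply hμ
        apply Subtype.ext
        have h2 := μ.2
        rw [Finsupp.degree_eq_sum, Fin.sum_univ_one] at h2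
        ext i
        have hi : i = 0 := Subsingleton.elim (α := Fin 1) i 0
        rw [hi, h2]
        change _ = (Finsupp.single 0 (m + 2) : Fin (0 + 1) →₀ ℕ) 0
        rw [Finsupp.single_eq_same]
      · intro h; exact absurd (Finset.mem_univ _) h
    have h2 := hz 0
    rw [h1, pderiv_monomial, eval_monomial, Finsupp.prod_fintype _ _ fun i => pow_zero _] at h2
    ext i
    have hi : i = 0 := Subsingleton.elim (α := Fin 1) i 0
    rw [hi, Pi.zero_apply]
    by_contra hz0
    have h3 : ((Finsupp.single 0 (m + 2) : Fin (0 + 1) →₀ ℕ) 0 : ℂ) ≠ 0 := by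
      rw [Finsupp.single_eq_same]
      exact_mod_cast (by omega : m + 2 ≠ 0)
    refine mul_ne_zero (mul_ne_zero ha h3) ?_ h2
    rw [Finset.prod_ne_zero_iff]
    intro j _
    have hj : j = 0 := Subsingleton.elim (α := Fin 1) j 0
    rw [hj]
    exact pow_ne_zero _ hz0
  · obtain ⟨κ0, S, hS⟩ := exists_DS_ne_zero (k := l) (m := m) hm hl
    refine ⟨DS κ0 S, hS, fun a ha => ?_⟩
    by_contra hcon
    apply ha
    rw [eval_DS]
    exact DD_eq_zero (by omega) (by omega) a hcon κ0 S

/-- restriction to the hyperplane `z_0 = 0` -/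
noncomputable def res0 (k : ℕ) : MvPolynomial (Fin (k + 1)) ℂ →ₐ[ℂ] MvPolynomial (Fin k) ℂ :=
  aeval (Fin.cons 0 X)

theorem coeff_res0 (p : MvPolynomial (Fin (k + 1)) ℂ) (μ : Fin k →₀ ℕ) :
    coeff μ (res0 k p) = coeff (Finsupp.cons 0 μ) p := by
  classical
  induction p using MvPolynomial.induction_on' with
  | monomial κ c =>
    unfold res0
    rw [aeval_monomial, Finsupp.prod_fintype _ _ fun i => pow_zero _, Fin.prod_univ_succ]
    simp only [Fin.cons_zero, Fin.cons_succ]
    rw [coeff_monomial]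
    by_cases h0 : κ 0 = 0
    · rw [h0, pow_zero, one_mul]
      have h1 : (algebraMap ℂ (MvPolynomial (Fin k) ℂ)) c * ∏ i : Fin k, X i ^ κ i.succ =
          monomial κ.tail c := by
        rw [monomial_eq, Finsupp.prod_fintype _ _ fun i => pow_zero _]
        rfl
      rw [h1, coeff_monomial]
      have h2 : κ.tail = μ ↔ κ = Finsupp.cons 0 μ := by
        constructor
        · intro h; rw [← h, ← h0, Finsupp.cons_tail]
        · intro h; rw [h, Finsupp.tail_cons]
      by_cases h3 : κ.tail = μ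
      · rw [if_pos h3, if_pos (h2.mp h3)]
      · rw [if_neg h3, if_neg fun h => h3 (h2.mpr h)]
    · rw [zero_pow h0, zero_mul, mul_zero, coeff_zero, if_neg]
      intro h
      rw [h, Finsupp.cons_zero] at h0
      exact h0 rfl
  | add p q hp hq => rw [map_add, coeff_add, hp, hq, coeff_add]

theorem eval_res0 (p : MvPolynomial (Fin (k + 1)) ℂ) (y : Fin k → ℂ) :
    eval y (res0 k p) = eval (Fin.cons 0 y) p := by
  induction p using MvPolynomial.induction_on with
  | C a => unfold res0; rw [aeval_C, eval_C]; exact eval_C a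
  | add p q hp hq => rw [map_add, map_add, hp, hq, map_add]
  | mul_X p i hp =>
    rw [map_mul, map_mul, hp, map_mul, eval_X]
    congr 1
    unfold res0
    rw [aeval_X]
    refine Fin.cases ?_ (fun j => ?_) i
    · simp
    · simp

theorem pderiv_res0 (p : MvPolynomial (Fin (k + 1)) ℂ) (i : Fin k) :
    pderiv i (res0 k p) = res0 k (pderiv i.succ p) := by
  ext μ
  rw [coeff_pderiv, coeff_res0, coeff_res0, coeff_pderiv]
  have h1 : (Finsupp.cons 0 (μ + Finsupp.single i 1) : Fin (k + 1) →₀ ℕ) =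
      Finsupp.cons 0 μ + Finsupp.single i.succ 1 := by
    ext j
    rw [Finsupp.add_apply]
    refine Fin.cases ?_ (fun l => ?_) j
    · rw [Finsupp.cons_zero, Finsupp.cons_zero, Finsupp.single_eq_of_ne (Fin.succ_ne_zero i).symm,
        add_zero]
    · rw [Finsupp.cons_succ, Finsupp.cons_succ, Finsupp.add_apply]
      by_cases h : l = i
      · rw [h]; simp
      · rw [Finsupp.single_eq_of_ne h,
          Finsupp.single_eq_of_ne (fun h' => h (Fin.succ_injective _ h'))]
  rw [h1, Finsupp.cons_succ]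

theorem exists_zero (hm : 0 < m) (a : Mon (k + 1) (m + 2) → ℂ) :
    ∃ z : Fin (k + 1) → ℂ, z ≠ 0 ∧ ∀ i : Fin k, eval z (pderiv i.succ (form a)) = 0 := by
  by_contra hcon
  push Not at hcon
  have hd1 : ((m + 2 - 1 : ℕ) : ℂ) ≠ 0 := by
    rw [Nat.cast_ne_zero]; omega
  let f' : Fin (k + 1) → MvPolynomial (Fin (k + 1)) ℂ := Fin.cons 0 fun i => pderiv i.succ (form a)
  have hf' : OnlyZero f' := by
    intro z hz
    by_contra hz0
    obtain ⟨i, hi⟩ := hcon z hz0
    exact hi (by simpa [f'] using hz i.succ)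
  let Bm : Matrix (Fin (k + 1)) (Fin (k + 1)) (MvPolynomial (Fin (k + 1)) ℂ) :=
    Matrix.of (Fin.cons 0 fun i j =>
      C (((m + 2 - 1 : ℕ) : ℂ)⁻¹) * pderiv i.succ (pderiv j (form a)))
  have hB : Bm.mulVec X = f' := by
    ext1 i
    refine Fin.cases ?_ (fun l => ?_) i
    · simp [Bm, f', Matrix.mulVec, dotProduct]
    · have h1 := euler2 (form_isHomogeneous a) l.succ
      simp only [Bm, f', Matrix.mulVec, dotProduct, Matrix.of_apply, Fin.cons_succ]
      have h2 : (C (((m + 2 - 1 : ℕ) : ℂ)⁻¹) * ((m + 2 - 1 : ℕ) : MvPolynomial (Fin (k + 1)) ℂ)) = 1 := by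
        have : ((m + 2 - 1 : ℕ) : MvPolynomial (Fin (k + 1)) ℂ) = C ((m + 2 - 1 : ℕ) : ℂ) := by
          rw [map_natCast]
        rw [this, ← C_mul, inv_mul_cancel₀ hd1, C_1]
      simp only [mul_assoc]
      rw [← Finset.mul_sum, h1, ← mul_assoc, h2, one_mul]
  apply det_notMem f' hf' Bm hB
  rw [Matrix.det_eq_zero_of_row_eq_zero (0 : Fin (k + 1)) (by intro j; simp [Bm])]
  exact zero_mem _

/-- adding a multiple of `z_0 ^ d` -/
theorem form_add_single (a : Mon (k + 1) (m + 2) → ℂ) (t : ℂ) [DecidableEq (Mon (k + 1) (m + 2))] :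
    form (a + t • Pi.single (k0 k (m + 2)) 1) = form a + C t * X 0 ^ (m + 2) := by
  classical
  rw [form_add, form_smul]
  congr 2
  unfold form
  rw [Finset.sum_eq_single (k0 k (m + 2))]
  · rw [Pi.single_eq_same, X_pow_eq_monomial]; rfl
  · intro μ _ hμ
    rw [Pi.single_eq_of_ne hμ, monomial_zero]
  · intro h; exact absurd (Finset.mem_univ _) h

theorem exists_t (a : Mon (k + 1) (m + 2) → ℂ) [DecidableEq (Mon (k + 1) (m + 2))]
    (z : Fin (k + 1) → ℂ) (hz0 : z 0 ≠ 0) (hz : ∀ i : Fin k, eval z (pderiv i.succ (form a)) = 0) :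
    ∃ t : ℂ, ¬ Nondeg (form (a + t • Pi.single (k0 k (m + 2)) 1)) := by
  have hm2 : ((m + 2 : ℕ) : ℂ) ≠ 0 := by
    rw [Nat.cast_ne_zero]; omega
  refine ⟨-(eval z (pderiv 0 (form a))) / (((m + 2 : ℕ) : ℂ) * z 0 ^ (m + 1)), fun h => ?_⟩
  rw [form_add_single] at h
  have h1 := h z (by
    intro i
    refine Fin.cases ?_ (fun j => ?_) i
    · rw [map_add, Derivation.leibniz, Derivation.leibniz_pow, pderiv_C, pderiv_X_self]
      simp only [smul_eq_mul, mul_one, map_add, map_mul, eval_C, nsmul_eq_mul,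
        map_pow, eval_X, map_natCast, mul_zero, add_zero]
      have hp : z 0 ^ (m + 1) ≠ 0 := pow_ne_zero _ hz0
      have e1 : m + 2 - 1 = m + 1 := rfl
      rw [e1]
      field_simp
      ring
    · rw [map_add, Derivation.leibniz, Derivation.leibniz_pow, pderiv_C,
        pderiv_X_of_ne (Fin.succ_ne_zero j).symm, map_add, hz j]
      simp)
  rw [h1] at hz0
  exact hz0 rfl

theorem exists_disc_aux (hm : 0 < m) (hk : 0 < k) :
    ∃ Δ : MvPolynomial (Mon (k + 1) (m + 2)) ℂ, IsDisc (k + 1) (m + 2) Δ := by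
  classical
  -- the parametrisation
  let R := MvPolynomial ((Fin (k + 1) × Fin (k + 1)) ⊕ Mon (k + 1) (m + 2)) ℂ
  let MU : Matrix (Fin (k + 1)) (Fin (k + 1)) R := Matrix.of fun i j => X (Sum.inl (i, j))
  let yU : Mon (k + 1) (m + 2) → R := fun κ => X (Sum.inr κ)
  let bU : Mon (k + 1) (m + 2) → R := vec (m + 2) (subst MU (form (tr yU)))
  let ψ : MvPolynomial (Mon (k + 1) (m + 2)) ℂ →ₐ[ℂ] R := aeval bU
  have hformU : form bU = subst MU (form (tr yU)) := form_vec (subst_hom MU (form_isHomogeneous _))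
  have hevalψ : ∀ (Y : (Fin (k + 1) × Fin (k + 1)) ⊕ Mon (k + 1) (m + 2) → ℂ)
      (p : MvPolynomial (Mon (k + 1) (m + 2)) ℂ), eval Y (ψ p) = eval (fun κ => eval Y (bU κ)) p := by
    intro Y p
    induction p using MvPolynomial.induction_on with
    | C a =>
      simp only [ψ]
      rw [aeval_C, eval_C]
      exact eval_C a
    | add p q hp hq => rw [map_add, map_add, hp, hq, map_add]
    | mul_X p i hp => rw [map_mul, map_mul, hp, map_mul, aeval_X, eval_X]
  have hform : ∀ Y : (Fin (k + 1) × Fin (k + 1)) ⊕ Mon (k + 1) (m + 2) → ℂ,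
      form (fun κ => eval Y (bU κ)) = subst (Matrix.of fun i j => Y (Sum.inl (i, j)))
        (form (tr fun κ => Y (Sum.inr κ))) := by
    intro Y
    rw [← map_form, hformU, map_subst, map_form, tr_map]
    congr 2
    · ext i j
      simp [MU, R]
    · ext κ
      simp [yU, R]
  let P : Ideal (MvPolynomial (Mon (k + 1) (m + 2)) ℂ) := RingHom.ker ψ
  have hPprime : P.IsPrime := RingHom.ker_isPrime ψ
  have hmemP : ∀ p, p ∈ P ↔ ∀ a : Mon (k + 1) (m + 2) → ℂ, ¬ Nondeg (form a) → eval a p = 0 := by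
    intro p
    constructor
    · intro hp a ha
      obtain ⟨M, y, hMy⟩ := exists_param a ha
      have h1 : ψ p = 0 := hp
      have h2 := hevalψ (Sum.elim (fun ij => M ij.1 ij.2) y) p
      rw [h1, map_zero] at h2
      have h3 := hform (Sum.elim (fun ij => M ij.1 ij.2) y)
      simp only [Sum.elim_inl, Sum.elim_inr] at h3
      have h4 : (Matrix.of fun i j => M i j) = M := rfl
      rw [h4, ← hMy] at h3
      have h5 : (fun κ => eval (Sum.elim (fun ij => M ij.1 ij.2) y) (bU κ)) = a := by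
        rw [← vec_form (fun κ => eval (Sum.elim (fun ij => M ij.1 ij.2) y) (bU κ)), h3, vec_form]
      rw [h5] at h2
      exact h2.symm
    · intro hp
      change ψ p = 0
      apply MvPolynomial.funext
      intro Y
      rw [hevalψ, map_zero]
      apply hp
      rw [hform]
      exact not_nondeg_subst (by omega) _ _
  have hne : P ≠ ⊥ := by
    obtain ⟨κ0, S, hS⟩ := exists_DS_ne_zero (k := k) (m := m) hm hk
    rw [Submodule.ne_bot_iff]
    refine ⟨DS κ0 S, ?_, hS⟩
    rw [hmemP]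
    intro a ha
    rw [eval_DS]
    exact DD_eq_zero (by omega) (by omega) a ha κ0 S
  obtain ⟨D, hD, hDP, hall⟩ := principal_mv (k0 k (m + 2)) P hne (by
    intro r hr
    obtain ⟨h, hh0, hh⟩ := exists_nonvan (k := k) (m := m) hm hk
    have hdeg : ∀ μ : Mon k (m + 2), (Finsupp.cons 0 μ.1 : Fin (k + 1) →₀ ℕ).degree = m + 2 := by
      intro μ
      rw [degree_cons, μ.2, zero_add]
    let j : Mon k (m + 2) → {x : Mon (k + 1) (m + 2) // x ≠ k0 k (m + 2)} := fun μ =>
      ⟨⟨Finsupp.cons 0 μ.1, hdeg μ⟩, by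
        intro h
        have h1 := DFunLike.congr_fun (congrArg Subtype.val h) 0
        change (Finsupp.cons 0 μ.1 : Fin (k + 1) →₀ ℕ) 0 =
          (Finsupp.single 0 (m + 2) : Fin (k + 1) →₀ ℕ) 0 at h1
        rw [Finsupp.cons_zero, Finsupp.single_eq_same] at h1
        omega⟩
    have hj : Function.Injective j := by
      intro μ ν h
      apply Subtype.ext
      have h1 : (Finsupp.cons 0 μ.1 : Fin (k + 1) →₀ ℕ) = Finsupp.cons 0 ν.1 :=
        congrArg (fun x => x.1.1) h
      have h2 := congrArg Finsupp.tail h1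
      rwa [Finsupp.tail_cons, Finsupp.tail_cons] at h2
    have hprod : r * rename j h = 0 := by
      apply MvPolynomial.funext
      intro a'
      rw [map_mul, map_zero]
      by_cases hz : eval a' (rename j h) = 0
      · rw [hz, mul_zero]
      rw [eval_rename] at hz
      have hnd := hh _ hz
      let a : Mon (k + 1) (m + 2) → ℂ := fun κ => if h : κ ≠ k0 k (m + 2) then a' ⟨κ, h⟩ else 0
      have hres : res0 k (form a) = form (a' ∘ j) := by
        ext μ
        rw [coeff_res0]
        by_cases hμ : μ.degree = m + 2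
        · have h1 := coeff_form (a' ∘ j) ⟨μ, hμ⟩
          have h2 := coeff_form a ⟨Finsupp.cons 0 μ, hdeg ⟨μ, hμ⟩⟩
          rw [h1, h2]
          simp only [a]
          rw [dif_pos (j ⟨μ, hμ⟩).2]
          rfl
        · rw [coeff_form' _ hμ, coeff_form']
          rwa [degree_cons, zero_add]
      obtain ⟨z, hz0, hz1⟩ := exists_zero hm a
      have hzz : z 0 ≠ 0 := by
        intro h0
        have h1 : z = Fin.cons 0 (Fin.tail z) := by
          rw [← h0]; exact (Fin.cons_self_tail z).symm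
        have h2 := hnd (Fin.tail z) (by
          intro i
          rw [← hres, pderiv_res0, eval_res0, ← h1]
          exact hz1 i)
        apply hz0
        rw [h1, h2]
        ext i
        refine Fin.cases ?_ (fun l => ?_) i
        · rfl
        · rfl
      obtain ⟨t, ht⟩ := exists_t a z hzz hz1
      have h3 := (hmemP _).mp hr _ ht
      rw [eval_rename] at h3
      have h4 : ((a + t • Pi.single (k0 k (m + 2)) 1) ∘ Subtype.val :
          {x : Mon (k + 1) (m + 2) // x ≠ k0 k (m + 2)} → ℂ) = a' := by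
        ext κ
        simp only [Function.comp, Pi.add_apply, Pi.smul_apply, a]
        rw [dif_pos κ.2, Pi.single_eq_of_ne κ.2, smul_zero, add_zero]
      rw [h4] at h3
      rw [h3, zero_mul]
    rcases mul_eq_zero.mp hprod with h1 | h1
    · exact h1
    · exfalso
      apply hh0
      apply rename_injective j hj
      rw [h1, map_zero])
  refine ⟨D, hD.irreducible, fun a => ⟨fun ha hnd => ?_, fun ha => (hmemP D).mp hDP a ha⟩⟩
  obtain ⟨κ0, _, _⟩ := exists_DS_ne_zero (k := k) (m := m) hm hk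
  have : Nonempty (Fin (k + 1) × Mon (k + 1) ((k + 1) * (m + 2 - 2) - (m + 2 - 1))) :=
    ⟨(0, k0 k _)⟩
  obtain ⟨S, hS⟩ := exists_DD (by omega) (by omega) a hnd κ0
  apply hS
  rw [← eval_DS]
  have h1 : D ∣ DS κ0 S := by
    apply hall
    rw [hmemP]
    intro b hb
    rw [eval_DS]
    exact DD_eq_zero (by omega) (by omega) b hb κ0 S
  obtain ⟨r, hr⟩ := h1
  rw [hr, map_mul, ha, zero_mul]

/-- existence of the discriminant -/
theorem exists_disc {n d : ℕ} (hn : 2 ≤ n) (hd : 3 ≤ d) :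
    ∃ Δ : MvPolynomial (Mon n d) ℂ, IsDisc n d Δ := by
  obtain ⟨k, rfl⟩ : ∃ k, n = k + 1 := ⟨n - 1, by omega⟩
  obtain ⟨m, rfl⟩ : ∃ m, d = m + 2 := ⟨d - 2, by omega⟩
  exact exists_disc_aux (by omega) (by omega)

end Run7.h100.AF
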