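import Mathlib
import Pool.Agent.Run7.h100.AF.Exist

/-!
The associated form and the power series Milnor algebra.
-/

open MvPolynomial

namespace Run7.h100.AF

variable {n d : ℕ}

/-- the power of a linear form -/
theorem pow_lin (w : Fin n → ℂ) (D : ℕ) : (∑ i, C (w i) * X i : MvPolynomial (Fin n) ℂ) ^ D =
    form (fun μ : Mon n D => (μ.1.multinomial : ℂ) * ∏ i, w i ^ μ.1 i) := by
  have h0 : (∑ i, C (w i) * X i : MvPolynomial (Fin n) ℂ) = ∑ i, w i • X i :=
    Finset.sum_congr rfl fun i _ => (smul_eq_C_mul _ _).symm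
  ext μ
  rw [h0, coeff_linearCombination_X_pow_of_fintype]
  have h1 : (μ.sum fun _ m => m) = μ.degree := by
    rw [Finsupp.degree_eq_sum, Finsupp.sum_fintype _ _ fun i => rfl]
  rw [h1]
  by_cases hμ : μ.degree = D
  · rw [if_pos hμ]
    have h2 := coeff_form (fun μ : Mon n D => (μ.1.multinomial : ℂ) * ∏ i, w i ^ μ.1 i) ⟨μ, hμ⟩
    rw [h2, Finsupp.prod_fintype _ _ fun i => pow_zero _]
  · rw [if_neg hμ, coeff_form' _ hμ]

theorem vec_pow_lin (w : Fin n → ℂ) (D : ℕ) :
    vec D ((∑ i, C (w i) * X i : MvPolynomial (Fin n) ℂ) ^ D) =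
    fun μ : Mon n D => (μ.1.multinomial : ℂ) * ∏ i, w i ^ μ.1 i := by
  rw [pow_lin, vec_form]

theorem eval_form (w : Fin n → ℂ) {D : ℕ} (v : Mon n D → ℂ) :
    eval w (form v) = ∑ μ : Mon n D, v μ * ∏ i, w i ^ μ.1 i := by
  unfold form
  rw [map_sum]
  refine Finset.sum_congr rfl fun μ _ => ?_
  rw [eval_monomial, Finsupp.prod_fintype _ _ fun i => pow_zero _]

/-- membership in the power series ideal -/
theorem mem_powerSeries (hn : 2 ≤ n) (hd : 3 ≤ d) (a : Mon n d → ℂ) {p : MvPolynomial (Fin n) ℂ}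
    (hp : p.IsHomogeneous (n * (d - 2))) :
    (p : MvPowerSeries (Fin n) ℂ) ∈ Ideal.span (Set.range fun i =>
      ((pderiv i (form a) : MvPolynomial (Fin n) ℂ) : MvPowerSeries (Fin n) ℂ)) ↔
      p ∈ jac (form a) := by
  classical
  have hle := euler_le hn hd
  constructor
  · intro h
    obtain ⟨c, hc⟩ := Ideal.mem_span_range_iff_exists_fun.mp h
    unfold jac
    rw [Ideal.mem_span_range_iff_exists_fun]
    refine ⟨fun i => form fun α : Mon n (n * (d - 2) - (d - 1)) => MvPowerSeries.coeff α.1 (c i), ?_⟩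
    have hhom : (∑ i, form (fun α : Mon n (n * (d - 2) - (d - 1)) =>
        MvPowerSeries.coeff α.1 (c i)) * pderiv i (form a)).IsHomogeneous (n * (d - 2)) := by
      refine IsHomogeneous.sum _ _ _ fun i _ => ?_
      have h2 := (form_isHomogeneous (fun α : Mon n (n * (d - 2) - (d - 1)) =>
        MvPowerSeries.coeff α.1 (c i))).mul (pderiv_hom a i)
      rwa [Nat.sub_add_cancel hle] at h2
    ext μ
    by_cases hμ : μ.degree = n * (d - 2)
    · rw [← coeff_coe p, ← hc, coeff_sum, map_sum]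
      refine Finset.sum_congr rfl fun i _ => ?_
      rw [coeff_mul, MvPowerSeries.coeff_mul]
      refine Finset.sum_congr rfl fun αβ hαβ => ?_
      rw [coeff_coe]
      have hsum : αβ.1 + αβ.2 = μ := Finset.HasAntidiagonal.mem_antidiagonal.mp hαβ
      have hdeg : αβ.1.degree + αβ.2.degree = n * (d - 2) := by
        rw [← map_add Finsupp.degree, hsum, hμ]
      by_cases hβ : αβ.2.degree = d - 1
      · have hα : αβ.1.degree = n * (d - 2) - (d - 1) := by omega
        have h3 := coeff_form (fun α : Mon n (n * (d - 2) - (d - 1)) =>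
          MvPowerSeries.coeff α.1 (c i)) ⟨αβ.1, hα⟩
        rw [h3]
      · rw [(pderiv_hom a i).coeff_eq_zero hβ, mul_zero, mul_zero]
    · rw [hhom.coeff_eq_zero hμ, hp.coeff_eq_zero hμ]
  · intro h
    obtain ⟨c, hc⟩ := Ideal.mem_span_range_iff_exists_fun.mp h
    rw [Ideal.mem_span_range_iff_exists_fun]
    refine ⟨fun i => (c i : MvPowerSeries (Fin n) ℂ), ?_⟩
    rw [← hc]
    have h1 : ∀ q : MvPolynomial (Fin n) ℂ, (q : MvPowerSeries (Fin n) ℂ) =
      MvPolynomial.coeToMvPowerSeries.ringHom q := fun q => rfl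
    rw [h1, map_sum]
    refine Finset.sum_congr rfl fun i _ => ?_
    rw [map_mul]
    rfl

/-- `c` is the value at `w` of the associated form of `f` -/
def IsAssocVal (n d : ℕ) (f : MvPolynomial (Fin n) ℂ) (w : Fin n → ℂ) (c : ℂ) : Prop :=
  (((∑ i, C (w i) * X i) ^ (n * (d - 2)) - C c * hess f : MvPolynomial (Fin n) ℂ) :
    MvPowerSeries (Fin n) ℂ) ∈ Ideal.span (Set.range fun i =>
      ((pderiv i f : MvPolynomial (Fin n) ℂ) : MvPowerSeries (Fin n) ℂ))

theorem lin_hom (w : Fin n → ℂ) :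
    (∑ i, C (w i) * X i : MvPolynomial (Fin n) ℂ).IsHomogeneous 1 := by
  refine IsHomogeneous.sum _ _ _ fun j _ => ?_
  have := (isHomogeneous_C (Fin n) (w j)).mul (isHomogeneous_X ℂ j)
  rwa [zero_add] at this

theorem isAssocVal_iff (hn : 2 ≤ n) (hd : 3 ≤ d) (a : Mon n d → ℂ) (w : Fin n → ℂ) (c : ℂ) :
    IsAssocVal n d (form a) w c ↔
      (fun μ : Mon n (n * (d - 2)) => (μ.1.multinomial : ℂ) * ∏ i, w i ^ μ.1 i) -
        c • vec (n * (d - 2)) (hess (form a)) ∈ WW a := by
  have h1 : ((∑ i, C (w i) * X i : MvPolynomial (Fin n) ℂ) ^ (n * (d - 2))).IsHomogeneous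
      (n * (d - 2)) := by
    have := (lin_hom w).pow (n * (d - 2))
    rwa [one_mul] at this
  have h2 : (C c * hess (form a)).IsHomogeneous (n * (d - 2)) := by
    have := (isHomogeneous_C (Fin n) c).mul (hess_isHomogeneous (form_isHomogeneous a))
    rwa [zero_add] at this
  have h3 : vec (n * (d - 2)) ((∑ i, C (w i) * X i) ^ (n * (d - 2)) - C c * hess (form a)) =
      (fun μ : Mon n (n * (d - 2)) => (μ.1.multinomial : ℂ) * ∏ i, w i ^ μ.1 i) -
        c • vec (n * (d - 2)) (hess (form a)) := by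
    rw [← vec_pow_lin, ← vec_C_mul]
    ext μ
    simp [vec]
  unfold IsAssocVal
  rw [mem_powerSeries hn hd a (h1.sub h2)]
  constructor
  · intro h
    have h4 := vec_mem hn hd a (h1.sub h2) h
    rwa [h3] at h4
  · intro h
    rw [← h3] at h
    have h4 := form_mem hn hd a h
    rwa [form_vec (h1.sub h2)] at h4

theorem coeff_unique (hn : 2 ≤ n) (hd : 3 ≤ d) (a : Mon n d → ℂ) (h : Nondeg (form a))
    {g : Mon n (n * (d - 2)) → ℂ} {c c' : ℂ}
    (hc : g - c • vec (n * (d - 2)) (hess (form a)) ∈ WW a)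
    (hc' : g - c' • vec (n * (d - 2)) (hess (form a)) ∈ WW a) : c = c' := by
  by_contra hne
  apply hessv_notMem hn hd a h
  have h1 := sub_mem hc' hc
  have h2 : g - c' • vec (n * (d - 2)) (hess (form a)) -
      (g - c • vec (n * (d - 2)) (hess (form a))) =
      (c - c') • vec (n * (d - 2)) (hess (form a)) := by
    rw [sub_smul]; abel
  rw [h2] at h1
  have h3 := Submodule.smul_mem (WW a) (c - c')⁻¹ h1
  rwa [smul_smul, inv_mul_cancel₀ (sub_ne_zero.mpr hne), one_smul] at h3

/-- the product of the discriminant and the associated form extends -/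
theorem extends_one (hn : 2 ≤ n) (hd : 3 ≤ d) {Δ : MvPolynomial (Mon n d) ℂ}
    (hΔ : IsDisc n d Δ) :
    ∃ P : Mon n (n * (d - 2)) → MvPolynomial (Mon n d) ℂ, ∀ a : Mon n d → ℂ, Nondeg (form a) →
      ∀ (w : Fin n → ℂ) (c : ℂ), IsAssocVal n d (form a) w c →
        eval w (form fun μ => eval a (P μ)) = eval a Δ * c := by
  classical
  choose P hP using fun g => exists_P hn hd hΔ g
  refine ⟨fun μ => C (μ.1.multinomial : ℂ) * P (Pi.single μ 1), fun a ha w c hc => ?_⟩
  rw [isAssocVal_iff hn hd] at hc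
  choose e he using fun g => exists_coeff hn hd a ha g
  have h1 : (fun μ : Mon n (n * (d - 2)) => (μ.1.multinomial : ℂ) * ∏ i, w i ^ μ.1 i) -
      (∑ μ : Mon n (n * (d - 2)), ((μ.1.multinomial : ℂ) * ∏ i, w i ^ μ.1 i) * e (Pi.single μ 1)) •
        vec (n * (d - 2)) (hess (form a)) ∈ WW a := by
    have h2 : (fun μ : Mon n (n * (d - 2)) => (μ.1.multinomial : ℂ) * ∏ i, w i ^ μ.1 i) -
      (∑ μ : Mon n (n * (d - 2)), ((μ.1.multinomial : ℂ) * ∏ i, w i ^ μ.1 i) * e (Pi.single μ 1)) •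
        vec (n * (d - 2)) (hess (form a)) =
        ∑ μ : Mon n (n * (d - 2)), ((μ.1.multinomial : ℂ) * ∏ i, w i ^ μ.1 i) •
          (Pi.single μ 1 - e (Pi.single μ 1) • vec (n * (d - 2)) (hess (form a))) := by
      simp only [smul_sub, Finset.sum_sub_distrib, smul_smul]
      rw [← Finset.sum_smul]
      congr 1
      ext ν
      simp [Finset.sum_apply, Pi.single_apply]
    rw [h2]
    exact sum_mem fun μ _ => Submodule.smul_mem _ _ (he _)
  have h2 := coeff_unique hn hd a ha hc h1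
  rw [eval_form, h2, Finset.mul_sum]
  refine Finset.sum_congr rfl fun μ _ => ?_
  rw [map_mul, eval_C, hP _ a ha _ (he _)]
  ring

/-- the associated form itself does not extend -/
theorem not_extends_zero (hn : 2 ≤ n) (hd : 3 ≤ d) :
    ¬ ∃ P : Mon n (n * (d - 2)) → MvPolynomial (Mon n d) ℂ, ∀ a : Mon n d → ℂ, Nondeg (form a) →
      ∀ (w : Fin n → ℂ) (c : ℂ), IsAssocVal n d (form a) w c →
        eval w (form fun μ => eval a (P μ)) = c := by
  classical
  rintro ⟨P, hP⟩
  obtain ⟨k, rfl⟩ : ∃ k, n = k + 1 := ⟨n - 1, by omega⟩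
  obtain ⟨m, rfl⟩ : ∃ m, d = m + 2 := ⟨d - 2, by omega⟩
  obtain ⟨b, S, h0, _, hS⟩ := exists_line (k := k) (m := m) (by omega) (by omega)
  set κ0 := k0 k ((k + 1) * (m + 2 - 2)) with hκ0
  -- the value at `e_0`
  have hmul : (κ0.1.multinomial : ℂ) = 1 := by
    have : κ0.1.multinomial = 1 := by
      have h1 : κ0.1 = Finsupp.single 0 ((k + 1) * (m + 2 - 2)) := rfl
      have h2 : κ0.1.multinomial = Nat.multinomial Finset.univ κ0.1 :=
        (Finsupp.multinomial_of_support_subset (Finset.subset_univ _)).symm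
      rw [h2]
      have h3 := Nat.multinomial_spec Finset.univ (κ0.1 : Fin (k + 1) → ℕ)
      have h4 : ∑ i, κ0.1 i = (k + 1) * (m + 2 - 2) := by
        rw [← Finsupp.degree_eq_sum]; exact κ0.2
      have h5 : ∏ i, (κ0.1 i).factorial = ((k + 1) * (m + 2 - 2)).factorial := by
        rw [Finset.prod_eq_single 0]
        · rw [h1, Finsupp.single_eq_same]
        · intro i _ hi
          rw [h1, Finsupp.single_eq_of_ne hi, Nat.factorial_zero]
        · intro h; exact absurd (Finset.mem_univ _) h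
      rw [h4, h5] at h3
      exact Nat.eq_of_mul_eq_mul_left (Nat.factorial_pos _) (by rw [h3, mul_one])
    rw [this, Nat.cast_one]
  have hvec : (fun μ : Mon (k + 1) ((k + 1) * (m + 2 - 2)) => (μ.1.multinomial : ℂ) *
      ∏ i, (Pi.single 0 1 : Fin (k + 1) → ℂ) i ^ μ.1 i) = Pi.single κ0 1 := by
    have h1 : ∀ v : Mon (k + 1) ((k + 1) * (m + 2 - 2)) → ℂ,
        ∑ μ, v μ * ∏ i, (Pi.single 0 1 : Fin (k + 1) → ℂ) i ^ μ.1 i = v κ0 := by
      intro v
      rw [← eval_form, eval_e0_form]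
    ext μ
    have h2 := h1 (Pi.single μ 1)
    rw [Finset.sum_eq_single μ (fun ν _ hν => by rw [Pi.single_eq_of_ne hν, zero_mul])
      (fun h => absurd (Finset.mem_univ _) h), Pi.single_eq_same, one_mul] at h2
    rw [h2]
    by_cases h : μ = κ0
    · rw [h, Pi.single_eq_same, hmul, one_mul]
    · rw [Pi.single_eq_of_ne (Ne.symm h), Pi.single_eq_of_ne h, mul_zero]
  have hpoly : ∀ a : Mon (k + 1) (m + 2) → ℂ,
      Nondeg (form a) → eval a (DS κ0 S * P κ0) = eval a (DG κ0 S (Pi.single κ0 1)) := by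
    intro a ha
    obtain ⟨c, hc⟩ := exists_coeff hn hd a ha (Pi.single κ0 1)
    have h1 := hP a ha (Pi.single 0 1) c (by
      rw [isAssocVal_iff hn hd, hvec]
      exact hc)
    rw [eval_e0_form] at h1
    rw [map_mul, eval_DS, eval_DG, DD_eq hn hd a ha κ0 S _ c hc]
    have h2 : eval a (P κ0) = c := h1
    rw [h2, mul_comm]
  -- equality of polynomials
  obtain ⟨Δ, hΔ⟩ := exists_disc hn hd
  have heq : Δ * (DS κ0 S * P κ0) = Δ * DG κ0 S (Pi.single κ0 1) := by
    apply MvPolynomial.funext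
    intro a
    by_cases ha : Nondeg (form a)
    · rw [map_mul (eval a) Δ, map_mul (eval a) Δ, hpoly a ha]
    · rw [map_mul (eval a) Δ, map_mul (eval a) Δ, (hΔ.2 a).mpr ha, zero_mul, zero_mul]
  have heq' := mul_left_cancel₀ hΔ.1.ne_zero heq
  set φ : MvPolynomial (Mon (k + 1) (m + 2)) ℂ →+* Polynomial ℂ := (aeval b).toRingHom with hφ
  have hφX : (fun μ => φ (X μ)) = b := by
    ext1 μ
    exact aeval_X b μ
  have hφC : ∀ r, φ (C r) = Polynomial.C r := by
    intro r
    change aeval b (C r) = _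
    rw [aeval_C]; rfl
  have h1 := congrArg (fun p => (φ p).eval 0) heq'
  simp only [map_mul, Polynomial.eval_mul] at h1
  have h2 : (φ (DG κ0 S (Pi.single κ0 1))).eval 0 ≠ 0 := by
    have h3 : φ (DG κ0 S (Pi.single κ0 1)) = DDc (col b) κ0 S (Pi.single κ0 1) := by
      unfold DG
      rw [map_DDc]
      have h4 : (fun iν κ => φ (col (X : Mon (k + 1) (m + 2) → MvPolynomial (Mon (k + 1) (m + 2)) ℂ)
          iν κ)) = col b := by
        ext1 iν
        rw [map_col_X φ iν, hφX]
      rw [h4]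
      congr 1
      ext1 κ
      rw [hφC]
      by_cases h : κ = κ0
      · rw [h, Pi.single_eq_same, Pi.single_eq_same, map_one]
      · rw [Pi.single_eq_of_ne h, Pi.single_eq_of_ne h, map_zero]
    rw [h3]
    exact hS
  apply h2
  rw [← h1]
  have h3 : (φ (DS κ0 S)).eval 0 = 0 := by
    rw [map_DS, hφX]
    have h4 := map_DDc (Polynomial.evalRingHom (0 : ℂ)) (col b) κ0 S
      (vec ((k + 1) * (m + 2 - 2)) (hess (form b)))
    rw [Polynomial.coe_evalRingHom] at h4
    rw [h4]
    have h5 := hess_vec_map (Polynomial.evalRingHom (0 : ℂ)) b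
    simp only [Polynomial.coe_evalRingHom] at h5
    rw [← h5]
    have h6 : (fun i κ => Polynomial.eval 0 (col b i κ)) = col (fun μ => (b μ).eval 0) := by
      ext i κ
      have h7 := congrFun (col_map (Polynomial.evalRingHom (0 : ℂ)) b i) κ
      simp only [Polynomial.coe_evalRingHom] at h7
      exact h7.symm
    rw [h6]
    exact DD_eq_zero hn hd _ h0 κ0 S
  rw [h3, zero_mul]

end Run7.h100.AF
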